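import Mathlib

set_option autoImplicit false

/-! # The number of congruent pairs in a block -/

namespace Pool.Agent.Q14.CV

open Finset

/-- The number of pairs `i, i' < M` with `i ≡ i'` modulo `d`. -/
def T (M d : ℕ) : ℕ := ∑ i ∈ range M, ∑ i' ∈ range M, if i ≡ i' [MOD d] then 1 else 0

theorem count_class (M d c : ℕ) (hd : 0 < d) (hc : c < d) :
    (∑ i ∈ range M, if i % d = c then 1 else 0) = M / d + if c < M % d then 1 else 0 := by
  have h := Nat.count_modEq_card M hd c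
  rw [Nat.mod_eq_of_lt hc] at h
  rw [← h, Nat.count_eq_card_filter_range, Finset.card_filter]
  apply Finset.sum_congr rfl
  intro i _
  have : i ≡ c [MOD d] ↔ i % d = c := by
    unfold Nat.ModEq
    rw [Nat.mod_eq_of_lt hc]
  simp only [this]

theorem T_eq (M d : ℕ) (hd : 0 < d) :
    T M d = d * (M / d) ^ 2 + (2 * (M / d) + 1) * (M % d) := by
  have h1 : T M d = ∑ c ∈ range d, (∑ i ∈ range M, if i % d = c then 1 else 0) ^ 2 := by
    unfold T
    have e : ∀ i i' : ℕ, (if i ≡ i' [MOD d] then 1 else 0) =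
        ∑ c ∈ range d, (if i % d = c then 1 else 0) * (if i' % d = c then 1 else 0) := by
      intro i i'
      rw [Finset.sum_eq_single (i % d)]
      · rw [if_pos rfl, one_mul]
        by_cases h : i ≡ i' [MOD d]
        · rw [if_pos h, if_pos (Eq.symm h)]
        · rw [if_neg h, if_neg (fun hh => h (Eq.symm hh))]
      · intro c _ hc
        rw [if_neg (fun hh => hc hh.symm), zero_mul]
      · intro h
        exact absurd (mem_range.2 (Nat.mod_lt _ hd)) h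
    simp only [e]
    calc ∑ i ∈ range M, ∑ i' ∈ range M, ∑ c ∈ range d,
          (if i % d = c then 1 else 0) * (if i' % d = c then 1 else 0)
        = ∑ i ∈ range M, ∑ c ∈ range d, ∑ i' ∈ range M,
          (if i % d = c then 1 else 0) * (if i' % d = c then 1 else 0) := by
          apply Finset.sum_congr rfl
          intro i _
          rw [Finset.sum_comm]
      _ = ∑ c ∈ range d, ∑ i ∈ range M, ∑ i' ∈ range M,
          (if i % d = c then 1 else 0) * (if i' % d = c then 1 else 0) := by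
          rw [Finset.sum_comm]
      _ = _ := by
          apply Finset.sum_congr rfl
          intro c _
          rw [sq, Finset.sum_mul_sum]
  rw [h1]
  have h2 : ∀ c ∈ range d, (∑ i ∈ range M, if i % d = c then 1 else 0) ^ 2
      = (M / d) ^ 2 + (2 * (M / d) + 1) * (if c < M % d then 1 else 0) := by
    intro c hc
    rw [count_class M d c hd (mem_range.1 hc)]
    split_ifs <;> ring
  rw [Finset.sum_congr rfl h2, Finset.sum_add_distrib, ← Finset.mul_sum]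
  simp only [Finset.sum_const, card_range, smul_eq_mul]
  congr 2
  have h3 : (∑ c ∈ range d, if c < M % d then 1 else 0) = (Finset.filter (· < M % d) (range d)).card := by
    rw [Finset.card_filter]
  rw [h3]
  have h4 : Finset.filter (· < M % d) (range d) = range (M % d) := by
    ext x
    simp only [mem_filter, mem_range]
    have := Nat.mod_lt M hd
    omega
  rw [h4, card_range]

theorem T_sq_le (M d : ℕ) (hd : 0 < d) :
    (T M d : ℝ) ^ 2 ≤ (M : ℝ) ^ 4 * (1 / (d : ℝ) ^ 2) + 3 / 2 * (M : ℝ) ^ 2 := by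
  have hd' : (0 : ℝ) < d := by exact_mod_cast hd
  set q : ℝ := ((M / d : ℕ) : ℝ) with hq
  set r : ℝ := ((M % d : ℕ) : ℝ) with hr
  have hM : (M : ℝ) = d * q + r := by
    rw [hq, hr]
    exact_mod_cast (Nat.div_add_mod M d).symm
  have hr0 : 0 ≤ r := by rw [hr]; positivity
  have hrd : r ≤ d := by rw [hr]; exact_mod_cast (Nat.mod_lt M hd).le
  have hrM : r ≤ M := by rw [hr]; exact_mod_cast Nat.mod_le M d
  have hM0 : (0 : ℝ) ≤ M := by positivity
  set ρ : ℝ := r * (d - r) with hρ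
  have hρ0 : 0 ≤ ρ := mul_nonneg hr0 (by linarith)
  have hρ1 : ρ ≤ (d : ℝ) ^ 2 / 4 := by rw [hρ]; nlinarith [sq_nonneg ((d : ℝ) - 2 * r)]
  have hρ2 : ρ ≤ M * d := by
    rw [hρ]
    have : r * (d - r) ≤ r * d := by nlinarith
    exact this.trans (mul_le_mul_of_nonneg_right hrM hd'.le)
  have hT : (T M d : ℝ) = ((M : ℝ) ^ 2 + ρ) / d := by
    rw [T_eq M d hd, eq_div_iff hd'.ne']
    push_cast
    rw [← hq, ← hr, hM, hρ]
    ring
  rw [hT]
  have e : (((M : ℝ) ^ 2 + ρ) / d) ^ 2 = (M : ℝ) ^ 4 * (1 / (d : ℝ) ^ 2)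
      + 2 * (M : ℝ) ^ 2 * (ρ / (d : ℝ) ^ 2) + (ρ / d) ^ 2 := by
    field_simp
    ring
  rw [e]
  have k1 : ρ / (d : ℝ) ^ 2 ≤ 1 / 4 := by
    rw [div_le_iff₀ (by positivity)]
    linarith
  have k2 : ρ / d ≤ M := by
    rw [div_le_iff₀ hd']
    exact hρ2
  have k3 : 0 ≤ ρ / d := by positivity
  have k4 : (ρ / d) ^ 2 ≤ (M : ℝ) ^ 2 := pow_le_pow_left₀ k3 k2 2
  nlinarith [sq_nonneg (M : ℝ)]

theorem modEq_prod (D : Finset ℕ) (hD : ∀ p ∈ D, p.Prime) (i i' : ℕ) :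
    (∏ p ∈ D, if i ≡ i' [MOD p] then (1 : ℝ) else 0) =
      if i ≡ i' [MOD ∏ p ∈ D, p] then 1 else 0 := by
  induction D using Finset.induction_on with
  | empty => simp [Nat.ModEq, Nat.mod_one]
  | insert p D hp ih =>
    rw [Finset.prod_insert hp, Finset.prod_insert hp,
      ih (fun q hq => hD q (Finset.mem_insert_of_mem hq))]
    have hcop : Nat.Coprime p (∏ q ∈ D, q) := by
      apply Nat.Coprime.prod_right
      intro q hq
      rw [Nat.coprime_primes (hD p (Finset.mem_insert_self _ _))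
        (hD q (Finset.mem_insert_of_mem hq))]
      rintro rfl
      exact hp hq
    have h := Nat.modEq_and_modEq_iff_modEq_mul (a := i) (b := i') hcop
    by_cases h1 : i ≡ i' [MOD p] <;> by_cases h2 : i ≡ i' [MOD ∏ q ∈ D, q]
    · rw [if_pos h1, if_pos h2, if_pos (h.1 ⟨h1, h2⟩), one_mul]
    · rw [if_pos h1, if_neg h2, if_neg (fun hh => h2 (h.2 hh).2), mul_zero]
    · rw [if_neg h1, zero_mul, if_neg (fun hh => h1 (h.2 hh).1)]
    · rw [if_neg h1, zero_mul, if_neg (fun hh => h1 (h.2 hh).1)]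

/-- The algebraic heart: an expansion over the divisors. -/
theorem expand (s : Finset ℕ) (hs : ∀ p ∈ s, p.Prime) (M : ℕ) :
    ∑ i ∈ range M, ∑ i' ∈ range M, ∑ j ∈ range M, ∑ j' ∈ range M,
      ∏ p ∈ s, ((1 / (p : ℝ) ^ 2) * ((if i ≡ i' [MOD p] then 1 else 0) *
        (if j ≡ j' [MOD p] then 1 else 0)) + (1 - 2 / (p : ℝ) ^ 2)) =
    ∑ D ∈ s.powerset, (∏ p ∈ D, (1 / (p : ℝ) ^ 2)) * (∏ p ∈ s \ D, (1 - 2 / (p : ℝ) ^ 2)) *
      (T M (∏ p ∈ D, p) : ℝ) ^ 2 := by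
  have h1 : ∀ i i' j j' : ℕ, ∏ p ∈ s, ((1 / (p : ℝ) ^ 2) * ((if i ≡ i' [MOD p] then 1 else 0) *
        (if j ≡ j' [MOD p] then 1 else 0)) + (1 - 2 / (p : ℝ) ^ 2)) =
      ∑ D ∈ s.powerset, ((∏ p ∈ D, (1 / (p : ℝ) ^ 2)) * (∏ p ∈ s \ D, (1 - 2 / (p : ℝ) ^ 2))) *
        ((if i ≡ i' [MOD ∏ p ∈ D, p] then 1 else 0) *
          (if j ≡ j' [MOD ∏ p ∈ D, p] then 1 else 0)) := by
    intro i i' j j'
    rw [Finset.prod_add]
    apply Finset.sum_congr rfl
    intro D hD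
    rw [Finset.mem_powerset] at hD
    rw [Finset.prod_mul_distrib, Finset.prod_mul_distrib,
      modEq_prod D (fun p hp => hs p (hD hp)), modEq_prod D (fun p hp => hs p (hD hp))]
    ring
  simp only [h1]
  have swap : ∀ (f : ℕ → Finset ℕ → ℝ), ∑ i ∈ range M, ∑ D ∈ s.powerset, f i D =
      ∑ D ∈ s.powerset, ∑ i ∈ range M, f i D := fun f => Finset.sum_comm
  simp only [swap]
  apply Finset.sum_congr rfl
  intro D _
  set K := (∏ p ∈ D, (1 / (p : ℝ) ^ 2)) * (∏ p ∈ s \ D, (1 - 2 / (p : ℝ) ^ 2))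
  have hT : (T M (∏ p ∈ D, p) : ℝ) = ∑ i ∈ range M, ∑ i' ∈ range M,
      (if i ≡ i' [MOD ∏ p ∈ D, p] then (1 : ℝ) else 0) := by
    unfold T
    push_cast
    rfl
  rw [sq, hT, Finset.sum_mul, Finset.mul_sum]
  apply Finset.sum_congr rfl
  intro i _
  rw [Finset.sum_mul, Finset.mul_sum]
  apply Finset.sum_congr rfl
  intro i' _
  rw [Finset.mul_sum, Finset.mul_sum]
  apply Finset.sum_congr rfl
  intro j _
  rw [Finset.mul_sum, Finset.mul_sum]

/-- The second moment bound. -/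
theorem second_moment (s : Finset ℕ) (hs : ∀ p ∈ s, p.Prime) (M : ℕ) :
    ∑ i ∈ range M, ∑ i' ∈ range M, ∑ j ∈ range M, ∑ j' ∈ range M,
      ∏ p ∈ s, ((1 / (p : ℝ) ^ 2) * ((if i ≡ i' [MOD p] then 1 else 0) *
        (if j ≡ j' [MOD p] then 1 else 0)) + (1 - 2 / (p : ℝ) ^ 2)) ≤
    ((M : ℝ) ^ 2 * ∏ p ∈ s, (1 - 1 / (p : ℝ) ^ 2)) ^ 2 + 3 / 2 * (M : ℝ) ^ 2 := by
  rw [expand s hs M]
  have hα : ∀ p ∈ s, (0 : ℝ) ≤ 1 - 2 / (p : ℝ) ^ 2 := by
    intro p hp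
    have h2 : (2 : ℝ) ≤ p := by exact_mod_cast (hs p hp).two_le
    rw [sub_nonneg, div_le_one (by positivity)]
    nlinarith
  have h1 : ∑ D ∈ s.powerset, (∏ p ∈ D, (1 / (p : ℝ) ^ 2)) * (∏ p ∈ s \ D, (1 - 2 / (p : ℝ) ^ 2)) *
      (T M (∏ p ∈ D, p) : ℝ) ^ 2 ≤
      ∑ D ∈ s.powerset, (∏ p ∈ D, (1 / (p : ℝ) ^ 2)) * (∏ p ∈ s \ D, (1 - 2 / (p : ℝ) ^ 2)) *
        ((M : ℝ) ^ 4 * (∏ p ∈ D, (1 / (p : ℝ) ^ 2)) + 3 / 2 * (M : ℝ) ^ 2) := by
    apply Finset.sum_le_sum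
    intro D hD
    rw [Finset.mem_powerset] at hD
    apply mul_le_mul_of_nonneg_left
    · have hpos : 0 < ∏ p ∈ D, p := Finset.prod_pos fun p hp => (hs p (hD hp)).pos
      have := T_sq_le M (∏ p ∈ D, p) hpos
      have e : ∏ p ∈ D, (1 / (p : ℝ) ^ 2) = 1 / ((∏ p ∈ D, p : ℕ) : ℝ) ^ 2 := by
        push_cast
        rw [Finset.prod_div_distrib, Finset.prod_const_one, Finset.prod_pow]
      rw [e]
      exact this
    · apply mul_nonneg
      · exact Finset.prod_nonneg fun p _ => by positivity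
      · exact Finset.prod_nonneg fun p hp => hα p (Finset.sdiff_subset hp)
  refine h1.trans ?_
  have h2 : ∑ D ∈ s.powerset, (∏ p ∈ D, (1 / (p : ℝ) ^ 2)) * (∏ p ∈ s \ D, (1 - 2 / (p : ℝ) ^ 2)) *
        ((M : ℝ) ^ 4 * (∏ p ∈ D, (1 / (p : ℝ) ^ 2)) + 3 / 2 * (M : ℝ) ^ 2) =
      (M : ℝ) ^ 4 * ∏ p ∈ s, ((1 / (p : ℝ) ^ 2) * (1 / (p : ℝ) ^ 2) + (1 - 2 / (p : ℝ) ^ 2)) +
        3 / 2 * (M : ℝ) ^ 2 * ∏ p ∈ s, ((1 / (p : ℝ) ^ 2) + (1 - 2 / (p : ℝ) ^ 2)) := by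
    rw [Finset.prod_add, Finset.prod_add, Finset.mul_sum, Finset.mul_sum,
      ← Finset.sum_add_distrib]
    apply Finset.sum_congr rfl
    intro D _
    rw [Finset.prod_mul_distrib]
    ring
  rw [h2]
  have h3 : ∀ p : ℕ, (1 / (p : ℝ) ^ 2) * (1 / (p : ℝ) ^ 2) + (1 - 2 / (p : ℝ) ^ 2) =
      (1 - 1 / (p : ℝ) ^ 2) ^ 2 := by intro p; ring
  simp only [h3]
  rw [Finset.prod_pow]
  have h4 : ∏ p ∈ s, ((1 / (p : ℝ) ^ 2) + (1 - 2 / (p : ℝ) ^ 2)) ≤ 1 := by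
    apply Finset.prod_le_one
    · intro p hp
      have := hα p hp
      positivity
    · intro p _
      have : (0 : ℝ) ≤ 1 / (p : ℝ) ^ 2 := by positivity
      have e : (2 : ℝ) / (p : ℝ) ^ 2 = 2 * (1 / (p : ℝ) ^ 2) := by ring
      rw [e]
      linarith
  have h5 : 3 / 2 * (M : ℝ) ^ 2 * ∏ p ∈ s, ((1 / (p : ℝ) ^ 2) + (1 - 2 / (p : ℝ) ^ 2))
      ≤ 3 / 2 * (M : ℝ) ^ 2 * 1 := mul_le_mul_of_nonneg_left h4 (by positivity)
  nlinarith

end Pool.Agent.Q14.CV
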