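import Mathlib

set_option autoImplicit false

/-! # Averages over a complete residue system -/

namespace Pool.Agent.Q14.CV

open Finset

theorem sum_range_zmod (Q : ℕ) [NeZero Q] (h : ZMod Q → ℝ) :
    ∑ a ∈ range Q, h (a : ZMod Q) = ∑ u : ZMod Q, h u := by
  apply Finset.sum_bij (fun (a : ℕ) (_ : a ∈ range Q) => (a : ZMod Q))
  · intro a _; exact Finset.mem_univ _
  · intro a ha b hb hab
    rw [mem_range] at ha hb
    rw [ZMod.natCast_eq_natCast_iff'] at hab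
    rwa [Nat.mod_eq_of_lt ha, Nat.mod_eq_of_lt hb] at hab
  · intro u _
    exact ⟨u.val, mem_range.2 (ZMod.val_lt u), ZMod.natCast_zmod_val u⟩
  · intro a _; rfl

theorem crt_sum {ι : Type} [Fintype ι] [DecidableEq ι] (q : ι → ℕ) [∀ i, NeZero (q i)]
    (hq : Pairwise (Function.onFun Nat.Coprime q)) (F : ∀ i, ZMod (q i) → ZMod (q i) → ℝ) :
    ∑ a ∈ range (∏ i, q i), ∑ b ∈ range (∏ i, q i), ∏ i, F i (a : ZMod (q i)) (b : ZMod (q i)) =
      ∏ i, ∑ u : ZMod (q i), ∑ v : ZMod (q i), F i u v := by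
  have : NeZero (∏ i, q i) := ⟨Finset.prod_ne_zero_iff.2 fun i _ => NeZero.ne (q i)⟩
  set e := ZMod.prodEquivPi q hq with he
  have h1 : ∀ a b : ℕ, ∏ i, F i (a : ZMod (q i)) (b : ZMod (q i)) =
      (fun u v : ZMod (∏ i, q i) => ∏ i, F i (e u i) (e v i)) a b := by
    intro a b
    simp only [map_natCast, Pi.natCast_apply]
  simp only [h1]
  rw [sum_range_zmod (∏ i, q i) (fun u => ∑ b ∈ range (∏ i, q i), ∏ i, F i (e u i) (e b i))]
  have h2 : ∀ u : ZMod (∏ i, q i), ∑ b ∈ range (∏ i, q i), ∏ i, F i (e u i) (e b i)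
      = ∑ v : ZMod (∏ i, q i), ∏ i, F i (e u i) (e v i) := fun u =>
    sum_range_zmod (∏ i, q i) (fun v => ∏ i, F i (e u i) (e v i))
  simp only [h2]
  have h3 : ∀ u : ZMod (∏ i, q i), ∑ v : ZMod (∏ i, q i), ∏ i, F i (e u i) (e v i)
      = ∏ i, ∑ v : ZMod (q i), F i (e u i) v := by
    intro u
    rw [Fintype.prod_sum]
    exact Equiv.sum_comp e.toEquiv (fun y : ∀ i, ZMod (q i) => ∏ i, F i (e u i) (y i))
  simp only [h3]
  rw [Fintype.prod_sum]
  exact Equiv.sum_comp e.toEquiv (fun x : ∀ i, ZMod (q i) => ∏ i, ∑ v : ZMod (q i), F i (x i) v)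

/-- The local sum. -/
theorem local_sum (p : ℕ) [NeZero p] (i i' j j' : ℕ) :
    ∑ u : ZMod p, ∑ v : ZMod p, ((if u + i = 0 ∧ v + j = 0 then (0 : ℝ) else 1) *
      (if u + i' = 0 ∧ v + j' = 0 then (0 : ℝ) else 1)) =
    (p : ℝ) ^ 2 - 2 + (if i ≡ i' [MOD p] then 1 else 0) * (if j ≡ j' [MOD p] then 1 else 0) := by
  rw [← Fintype.sum_prod_type' (f := fun u v : ZMod p =>
    ((if u + i = 0 ∧ v + j = 0 then (0 : ℝ) else 1) *
      (if u + i' = 0 ∧ v + j' = 0 then (0 : ℝ) else 1)))]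
  set x : ZMod p × ZMod p := (-(i : ZMod p), -(j : ZMod p)) with hx
  set x' : ZMod p × ZMod p := (-(i' : ZMod p), -(j' : ZMod p)) with hx'
  have c1 : ∀ w : ZMod p × ZMod p, (w.1 + i = 0 ∧ w.2 + j = 0) ↔ w = x := by
    intro w
    rw [hx, Prod.ext_iff, add_eq_zero_iff_eq_neg, add_eq_zero_iff_eq_neg]
  have c2 : ∀ w : ZMod p × ZMod p, (w.1 + i' = 0 ∧ w.2 + j' = 0) ↔ w = x' := by
    intro w
    rw [hx', Prod.ext_iff, add_eq_zero_iff_eq_neg, add_eq_zero_iff_eq_neg]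
  have c3 : x = x' ↔ (i ≡ i' [MOD p] ∧ j ≡ j' [MOD p]) := by
    rw [hx, hx', Prod.mk.injEq, neg_inj, neg_inj, ZMod.natCast_eq_natCast_iff,
      ZMod.natCast_eq_natCast_iff]
  have e : ∀ w : ZMod p × ZMod p, ((if w.1 + i = 0 ∧ w.2 + j = 0 then (0 : ℝ) else 1) *
      (if w.1 + i' = 0 ∧ w.2 + j' = 0 then (0 : ℝ) else 1)) =
      1 - (if w = x then 1 else 0) - (if w = x' then 1 else 0) +
        (if w = x then (if x = x' then 1 else 0) else 0) := by
    intro w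
    simp only [c1, c2]
    by_cases h1 : w = x
    · rw [h1]
      by_cases h2 : x = x' <;> simp [h2]
    · rw [if_neg h1, if_neg h1, if_neg h1]
      by_cases h2 : w = x' <;> simp [h2]
  simp only [e, Finset.sum_add_distrib, Finset.sum_sub_distrib, Finset.sum_const, Finset.card_univ,
    Fintype.card_prod, ZMod.card, nsmul_eq_mul, mul_one, Finset.sum_ite_eq', Finset.mem_univ,
    if_true]
  push_cast
  have e3 : (if x = x' then (1 : ℝ) else 0) =
      (if i ≡ i' [MOD p] then 1 else 0) * (if j ≡ j' [MOD p] then 1 else 0) := by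
    by_cases h1 : i ≡ i' [MOD p] <;> by_cases h2 : j ≡ j' [MOD p] <;> simp [c3, h1, h2]
  rw [e3]
  ring

end Pool.Agent.Q14.CV
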