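import Mathlib

set_option autoImplicit false

/-! # The number of coprime pairs in a square block -/

namespace Pool.Agent.Q14.CV

open Finset Filter Topology

/-- The number of coprime pairs `(i, j)` with `a + 1 ≤ i ≤ a + M` and `b + 1 ≤ j ≤ b + M`. -/
def Z (M a b : ℕ) : ℕ :=
  ((Icc (a + 1) (a + M) ×ˢ Icc (b + 1) (b + M)).filter fun q => Nat.gcd q.1 q.2 = 1).card

/-- The proportion of the `(a, b)` with `1 ≤ a, b ≤ n` and `Z M a b = r`. -/
noncomputable def freq (M r n : ℕ) : ℝ :=
  (((Icc 1 n ×ˢ Icc 1 n).filter fun q => Z M q.1 q.2 = r).card : ℝ) / (n : ℝ) ^ 2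

/-- The limit `p_M(r)` of the proportions. -/
noncomputable def p (M r : ℕ) : ℝ := atTop.limUnder (freq M r)

/-- The mean of the limit distribution. -/
noncomputable def mean (M : ℕ) : ℝ := ∑ r ∈ range (M ^ 2 + 1), (r : ℝ) * p M r

/-- The variance of the limit distribution. -/
noncomputable def variance (M : ℕ) : ℝ :=
  ∑ r ∈ range (M ^ 2 + 1), ((r : ℝ) - mean M) ^ 2 * p M r

end Pool.Agent.Q14.CV
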