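import Mathlib
import Pool.Agent.Q14.CVCrt
import Pool.Agent.Q14.CVAlg

set_option autoImplicit false

/-! # The variance over a complete residue system -/

namespace Pool.Agent.Q14.CV

open Finset

/-- No prime of `s` divides both numbers. -/
def cop (s : Finset ℕ) (u v : ℕ) : Prop := ∀ p ∈ s, ¬ (p ∣ u ∧ p ∣ v)

instance (s : Finset ℕ) (u v : ℕ) : Decidable (cop s u v) := by
  unfold cop; infer_instance

/-- The number of points of the block with no common prime factor in `s`. -/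
def Zs (s : Finset ℕ) (M a b : ℕ) : ℕ :=
  ∑ i ∈ range M, ∑ j ∈ range M, if cop s (a + 1 + i) (b + 1 + j) then 1 else 0

theorem cop_ind (s : Finset ℕ) (u v : ℕ) : (if cop s u v then (1 : ℝ) else 0) =
    ∏ p : {p // p ∈ s}, if ((p : ℕ) ∣ u ∧ (p : ℕ) ∣ v) then 0 else 1 := by
  by_cases h : cop s u v
  · rw [if_pos h, Finset.prod_eq_one]
    intro p _
    rw [if_neg (h p p.2)]
  · rw [if_neg h]
    unfold cop at h
    push Not at h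
    obtain ⟨p, hp, h1⟩ := h
    exact (Finset.prod_eq_zero (Finset.mem_univ (⟨p, hp⟩ : {p // p ∈ s})) (by simp [h1])).symm

theorem pair_avg (s : Finset ℕ) (hs : ∀ p ∈ s, p.Prime) (i i' j j' : ℕ) :
    ∑ a ∈ range (∏ p ∈ s, p), ∑ b ∈ range (∏ p ∈ s, p),
      ((if cop s (a + 1 + i) (b + 1 + j) then (1 : ℝ) else 0) *
        (if cop s (a + 1 + i') (b + 1 + j') then (1 : ℝ) else 0)) =
    ((∏ p ∈ s, p : ℕ) : ℝ) ^ 2 *
      ∏ p ∈ s, ((1 / (p : ℝ) ^ 2) * ((if i ≡ i' [MOD p] then 1 else 0) *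
        (if j ≡ j' [MOD p] then 1 else 0)) + (1 - 2 / (p : ℝ) ^ 2)) := by
  have hne : ∀ p : {p // p ∈ s}, NeZero (p : ℕ) := fun p => ⟨(hs p p.2).ne_zero⟩
  have hcop : Pairwise (Function.onFun Nat.Coprime (fun p : {p // p ∈ s} => (p : ℕ))) := by
    intro p q hpq
    show Nat.Coprime (p : ℕ) (q : ℕ)
    rw [Nat.coprime_primes (hs p p.2) (hs q q.2)]
    exact fun h => hpq (Subtype.ext h)
  have hQ : ∏ p ∈ s, p = ∏ p : {p // p ∈ s}, (p : ℕ) := (Finset.prod_coe_sort s (fun p => p)).symm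
  have h := crt_sum (fun p : {p // p ∈ s} => (p : ℕ)) hcop
    (fun p u v => ((if u + ((1 + i : ℕ) : ZMod (p : ℕ)) = 0 ∧ v + ((1 + j : ℕ) : ZMod (p : ℕ)) = 0
      then (0 : ℝ) else 1) *
      (if u + ((1 + i' : ℕ) : ZMod (p : ℕ)) = 0 ∧ v + ((1 + j' : ℕ) : ZMod (p : ℕ)) = 0
        then (0 : ℝ) else 1)))
  rw [← hQ] at h
  have e1 : ∀ a b : ℕ, ((if cop s (a + 1 + i) (b + 1 + j) then (1 : ℝ) else 0) *
        (if cop s (a + 1 + i') (b + 1 + j') then (1 : ℝ) else 0)) =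
      ∏ p : {p // p ∈ s}, ((if ((a : ZMod (p : ℕ)) + ((1 + i : ℕ) : ZMod (p : ℕ)) = 0 ∧
        (b : ZMod (p : ℕ)) + ((1 + j : ℕ) : ZMod (p : ℕ)) = 0) then (0 : ℝ) else 1) *
      (if ((a : ZMod (p : ℕ)) + ((1 + i' : ℕ) : ZMod (p : ℕ)) = 0 ∧
        (b : ZMod (p : ℕ)) + ((1 + j' : ℕ) : ZMod (p : ℕ)) = 0) then (0 : ℝ) else 1)) := by
    intro a b
    rw [cop_ind, cop_ind, ← Finset.prod_mul_distrib]
    apply Finset.prod_congr rfl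
    intro p _
    have c : ∀ x y : ℕ, ((x : ZMod (p : ℕ)) + (y : ZMod (p : ℕ)) = 0) ↔ (p : ℕ) ∣ x + y := by
      intro x y
      rw [← Nat.cast_add, ZMod.natCast_eq_zero_iff]
    simp only [c]
    simp only [add_assoc]
  simp only [e1]
  rw [h]
  have e2 : ∀ p : {p // p ∈ s}, (∑ u : ZMod (p : ℕ), ∑ v : ZMod (p : ℕ),
      ((if u + ((1 + i : ℕ) : ZMod (p : ℕ)) = 0 ∧ v + ((1 + j : ℕ) : ZMod (p : ℕ)) = 0
      then (0 : ℝ) else 1) *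
      (if u + ((1 + i' : ℕ) : ZMod (p : ℕ)) = 0 ∧ v + ((1 + j' : ℕ) : ZMod (p : ℕ)) = 0
        then (0 : ℝ) else 1))) =
      ((p : ℕ) : ℝ) ^ 2 * ((1 / ((p : ℕ) : ℝ) ^ 2) * ((if i ≡ i' [MOD (p : ℕ)] then 1 else 0) *
        (if j ≡ j' [MOD (p : ℕ)] then 1 else 0)) + (1 - 2 / ((p : ℕ) : ℝ) ^ 2)) := by
    intro p
    rw [local_sum]
    have c1 : (1 + i ≡ 1 + i' [MOD (p : ℕ)]) ↔ (i ≡ i' [MOD (p : ℕ)]) :=
      ⟨fun h => Nat.ModEq.add_left_cancel' 1 h, fun h => h.add_left 1⟩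
    have c2 : (1 + j ≡ 1 + j' [MOD (p : ℕ)]) ↔ (j ≡ j' [MOD (p : ℕ)]) :=
      ⟨fun h => Nat.ModEq.add_left_cancel' 1 h, fun h => h.add_left 1⟩
    simp only [c1, c2]
    have hp : ((p : ℕ) : ℝ) ≠ 0 := by
      have := (hs p p.2).ne_zero
      exact_mod_cast this
    field_simp
    ring
  simp only [e2]
  rw [Finset.prod_mul_distrib]
  congr 1
  · rw [hQ]
    push_cast
    rw [Finset.prod_pow]
  · exact Finset.prod_coe_sort s (fun p => ((1 / (p : ℝ) ^ 2) *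
      ((if i ≡ i' [MOD p] then 1 else 0) * (if j ≡ j' [MOD p] then 1 else 0)) +
      (1 - 2 / (p : ℝ) ^ 2)))

theorem Zs_cast (s : Finset ℕ) (M a b : ℕ) : (Zs s M a b : ℝ) =
    ∑ i ∈ range M, ∑ j ∈ range M, if cop s (a + 1 + i) (b + 1 + j) then (1 : ℝ) else 0 := by
  unfold Zs
  push_cast
  rfl

theorem sum_Zs (s : Finset ℕ) (hs : ∀ p ∈ s, p.Prime) (M : ℕ) :
    ∑ a ∈ range (∏ p ∈ s, p), ∑ b ∈ range (∏ p ∈ s, p), (Zs s M a b : ℝ) =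
    ((∏ p ∈ s, p : ℕ) : ℝ) ^ 2 * ((M : ℝ) ^ 2 * ∏ p ∈ s, (1 - 1 / (p : ℝ) ^ 2)) := by
  simp only [Zs_cast]
  have swap : ∀ (f : ℕ → ℕ → ℝ), ∑ b ∈ range (∏ p ∈ s, p), ∑ i ∈ range M, f b i =
      ∑ i ∈ range M, ∑ b ∈ range (∏ p ∈ s, p), f b i := fun f => Finset.sum_comm
  simp only [swap]
  have h1 : ∀ i j : ℕ, ∑ a ∈ range (∏ p ∈ s, p), ∑ b ∈ range (∏ p ∈ s, p),
      (if cop s (a + 1 + i) (b + 1 + j) then (1 : ℝ) else 0) =
      ((∏ p ∈ s, p : ℕ) : ℝ) ^ 2 * ∏ p ∈ s, (1 - 1 / (p : ℝ) ^ 2) := by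
    intro i j
    have h := pair_avg s hs i i j j
    have e : ∀ a b : ℕ, ((if cop s (a + 1 + i) (b + 1 + j) then (1 : ℝ) else 0) *
        (if cop s (a + 1 + i) (b + 1 + j) then (1 : ℝ) else 0)) =
        (if cop s (a + 1 + i) (b + 1 + j) then (1 : ℝ) else 0) := by
      intro a b
      split_ifs <;> simp
    simp only [e] at h
    rw [h]
    congr 1
    apply Finset.prod_congr rfl
    intro p _
    rw [if_pos (Nat.ModEq.refl i), if_pos (Nat.ModEq.refl j)]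
    ring
  simp only [h1]
  simp only [Finset.sum_const, card_range, nsmul_eq_mul]
  ring

theorem sum_Zs_sq (s : Finset ℕ) (hs : ∀ p ∈ s, p.Prime) (M : ℕ) :
    ∑ a ∈ range (∏ p ∈ s, p), ∑ b ∈ range (∏ p ∈ s, p), (Zs s M a b : ℝ) ^ 2 =
    ((∏ p ∈ s, p : ℕ) : ℝ) ^ 2 *
      ∑ i ∈ range M, ∑ i' ∈ range M, ∑ j ∈ range M, ∑ j' ∈ range M,
      ∏ p ∈ s, ((1 / (p : ℝ) ^ 2) * ((if i ≡ i' [MOD p] then 1 else 0) *
        (if j ≡ j' [MOD p] then 1 else 0)) + (1 - 2 / (p : ℝ) ^ 2)) := by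
  have e : ∀ a b : ℕ, (Zs s M a b : ℝ) ^ 2 = ∑ i ∈ range M, ∑ i' ∈ range M, ∑ j ∈ range M,
      ∑ j' ∈ range M, ((if cop s (a + 1 + i) (b + 1 + j) then (1 : ℝ) else 0) *
        (if cop s (a + 1 + i') (b + 1 + j') then (1 : ℝ) else 0)) := by
    intro a b
    rw [Zs_cast, sq, Finset.sum_mul_sum]
    apply Finset.sum_congr rfl
    intro i _
    apply Finset.sum_congr rfl
    intro i' _
    rw [Finset.sum_mul_sum]
  simp only [e]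
  have swap : ∀ (f : ℕ → ℕ → ℝ), ∑ b ∈ range (∏ p ∈ s, p), ∑ i ∈ range M, f b i =
      ∑ i ∈ range M, ∑ b ∈ range (∏ p ∈ s, p), f b i := fun f => Finset.sum_comm
  simp only [swap, pair_avg s hs]
  simp only [← Finset.mul_sum]

/-- The variance of the count over a complete residue system. -/
theorem var_Zs (s : Finset ℕ) (hs : ∀ p ∈ s, p.Prime) (M : ℕ) :
    (∑ a ∈ range (∏ p ∈ s, p), ∑ b ∈ range (∏ p ∈ s, p), (Zs s M a b : ℝ) ^ 2) /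
        ((∏ p ∈ s, p : ℕ) : ℝ) ^ 2 -
      ((∑ a ∈ range (∏ p ∈ s, p), ∑ b ∈ range (∏ p ∈ s, p), (Zs s M a b : ℝ)) /
        ((∏ p ∈ s, p : ℕ) : ℝ) ^ 2) ^ 2 ≤ 3 / 2 * (M : ℝ) ^ 2 := by
  have hQ : ((∏ p ∈ s, p : ℕ) : ℝ) ≠ 0 := by
    have : ∏ p ∈ s, p ≠ 0 := Finset.prod_ne_zero_iff.2 fun p hp => (hs p hp).ne_zero
    exact_mod_cast this
  rw [sum_Zs_sq s hs, sum_Zs s hs, mul_div_cancel_left₀ _ (pow_ne_zero 2 hQ),
    mul_div_cancel_left₀ _ (pow_ne_zero 2 hQ)]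
  have := second_moment s hs M
  linarith

end Pool.Agent.Q14.CV
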