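import Mathlib
import Pool.Agent.Q14.CVDefs
import Pool.Agent.Q14.CVVar

set_option autoImplicit false

/-! # The limit distribution -/

namespace Pool.Agent.Q14.CV

open Finset Filter Topology

theorem Z_eq (M a b : ℕ) : Z M a b =
    ∑ i ∈ range M, ∑ j ∈ range M, if Nat.gcd (a + 1 + i) (b + 1 + j) = 1 then 1 else 0 := by
  unfold Z
  rw [Finset.card_filter, Finset.sum_product]
  have h : ∀ (c : ℕ) (f : ℕ → ℕ), ∑ x ∈ Icc (c + 1) (c + M), f x = ∑ i ∈ range M, f (c + 1 + i) := by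
    intro c f
    rw [Finset.sum_bij (fun (x : ℕ) (_ : x ∈ Icc (c + 1) (c + M)) => x - (c + 1))
      (t := range M) (g := fun i => f (c + 1 + i))]
    · intro x hx
      rw [mem_Icc] at hx
      rw [mem_range]
      omega
    · intro x hx y hy hxy
      rw [mem_Icc] at hx hy
      omega
    · intro y hy
      rw [mem_range] at hy
      exact ⟨c + 1 + y, mem_Icc.2 (by omega), by omega⟩
    · intro x hx
      rw [mem_Icc] at hx
      congr 1
      omega
  rw [h]
  apply Finset.sum_congr rfl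
  intro i _
  rw [h]

theorem Z_le (M a b : ℕ) : Z M a b ≤ M ^ 2 := by
  rw [Z_eq]
  calc _ ≤ ∑ i ∈ range M, ∑ j ∈ range M, 1 := by
        apply Finset.sum_le_sum
        intro i _
        apply Finset.sum_le_sum
        intro j _
        split_ifs <;> simp
    _ = M ^ 2 := by simp [sq]

theorem Zs_le (s : Finset ℕ) (M a b : ℕ) : Zs s M a b ≤ M ^ 2 := by
  unfold Zs
  calc _ ≤ ∑ i ∈ range M, ∑ j ∈ range M, 1 := by
        apply Finset.sum_le_sum
        intro i _
        apply Finset.sum_le_sum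
        intro j _
        split_ifs <;> simp
    _ = M ^ 2 := by simp [sq]

/-- The primes up to `k`. -/
def pr (k : ℕ) : Finset ℕ := Nat.primesBelow (k + 1)

theorem pr_prime (k : ℕ) : ∀ p ∈ pr k, p.Prime := fun _ hp => Nat.prime_of_mem_primesBelow hp

/-- If the counts differ, a large prime divides both coordinates of a point of the block. -/
theorem exists_of_ne (k M a b : ℕ) (h : Z M a b ≠ Zs (pr k) M a b) :
    ∃ i ∈ range M, ∃ j ∈ range M, ∃ m, k < m ∧ m ∣ a + 1 + i ∧ m ∣ b + 1 + j := by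
  by_contra hcon
  push Not at hcon
  apply h
  rw [Z_eq]
  unfold Zs
  apply Finset.sum_congr rfl
  intro i hi
  apply Finset.sum_congr rfl
  intro j hj
  have : Nat.gcd (a + 1 + i) (b + 1 + j) = 1 ↔ cop (pr k) (a + 1 + i) (b + 1 + j) := by
    constructor
    · intro h1 p hp h2
      have h3 := Nat.dvd_gcd h2.1 h2.2
      rw [h1] at h3
      exact (pr_prime k p hp).one_lt.ne' (Nat.dvd_one.1 h3)
    · intro h1
      by_contra h2
      obtain ⟨p, hp, hpd⟩ := Nat.exists_prime_and_dvd h2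
      have hpa := hpd.trans (Nat.gcd_dvd_left _ _)
      have hpb := hpd.trans (Nat.gcd_dvd_right _ _)
      rcases lt_or_ge k p with h3 | h3
      · exact hcon i hi j hj p h3 hpa hpb
      · apply h1 p _ ⟨hpa, hpb⟩
        unfold pr
        rw [Nat.mem_primesBelow]
        exact ⟨by omega, hp⟩
  simp only [this]

theorem card_dvd_le (n M i m : ℕ) (hi : i < M) :
    ((Icc 1 n).filter fun a => m ∣ a + 1 + i).card ≤ (n + M) / m := by
  rw [← Nat.Ioc_filter_dvd_card_eq_div]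
  apply Finset.card_le_card_of_injOn (fun a => a + 1 + i)
  · intro a ha
    simp only [Finset.coe_filter, mem_Icc, Set.mem_setOf_eq, mem_Ioc] at ha ⊢
    exact ⟨by omega, ha.2⟩
  · intro a _ b _ hab
    simp only at hab
    omega

theorem card_ne_le (k M n : ℕ) :
    (((Icc 1 n ×ˢ Icc 1 n).filter fun q => Z M q.1 q.2 ≠ Zs (pr k) M q.1 q.2).card : ℝ) ≤
      (M : ℝ) ^ 2 * ((n + M : ℝ) ^ 2 * (2 / (k + 1))) := by
  have h1 : ((Icc 1 n ×ˢ Icc 1 n).filter fun q => Z M q.1 q.2 ≠ Zs (pr k) M q.1 q.2) ⊆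
      (range M ×ˢ range M).biUnion fun ij => (Ioo k (n + M + 1)).biUnion fun m =>
        ((Icc 1 n).filter fun a => m ∣ a + 1 + ij.1) ×ˢ
          ((Icc 1 n).filter fun b => m ∣ b + 1 + ij.2) := by
    intro q hq
    rw [mem_filter, mem_product] at hq
    obtain ⟨i, hi, j, hj, m, hm, ha, hb⟩ := exists_of_ne k M q.1 q.2 hq.2
    rw [mem_biUnion]
    refine ⟨(i, j), mem_product.2 ⟨hi, hj⟩, ?_⟩
    rw [mem_biUnion]
    refine ⟨m, ?_, ?_⟩
    · rw [mem_Ioo]
      refine ⟨hm, ?_⟩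
      have := Nat.le_of_dvd (by omega) ha
      have h2 := (mem_Icc.1 hq.1.1).2
      rw [mem_range] at hi
      omega
    · rw [mem_product, mem_filter, mem_filter]
      exact ⟨⟨hq.1.1, ha⟩, ⟨hq.1.2, hb⟩⟩
  have h2 := Finset.card_le_card h1
  have h3 : ((Icc 1 n ×ˢ Icc 1 n).filter fun q => Z M q.1 q.2 ≠ Zs (pr k) M q.1 q.2).card ≤
      ∑ ij ∈ range M ×ˢ range M, ∑ m ∈ Ioo k (n + M + 1), ((n + M) / m) * ((n + M) / m) := by
    refine h2.trans (Finset.card_biUnion_le.trans ?_)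
    apply Finset.sum_le_sum
    intro ij hij
    rw [mem_product, mem_range, mem_range] at hij
    refine Finset.card_biUnion_le.trans ?_
    apply Finset.sum_le_sum
    intro m _
    rw [Finset.card_product]
    exact Nat.mul_le_mul (card_dvd_le n M ij.1 m hij.1) (card_dvd_le n M ij.2 m hij.2)
  have h4 : (((Icc 1 n ×ˢ Icc 1 n).filter fun q => Z M q.1 q.2 ≠ Zs (pr k) M q.1 q.2).card : ℝ) ≤
      ∑ ij ∈ range M ×ˢ range M, ∑ m ∈ Ioo k (n + M + 1),
        ((((n + M) / m : ℕ) : ℝ) * (((n + M) / m : ℕ) : ℝ)) := by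
    exact_mod_cast h3
  refine h4.trans ?_
  rw [Finset.sum_const, card_product, card_range, nsmul_eq_mul]
  push_cast
  rw [← sq]
  apply mul_le_mul_of_nonneg_left _ (by positivity)
  calc ∑ m ∈ Ioo k (n + M + 1), ((((n + M) / m : ℕ) : ℝ) * (((n + M) / m : ℕ) : ℝ))
      ≤ ∑ m ∈ Ioo k (n + M + 1), (n + M : ℝ) ^ 2 * ((m : ℝ) ^ 2)⁻¹ := by
        apply Finset.sum_le_sum
        intro m _
        have h5 : (((n + M) / m : ℕ) : ℝ) ≤ (n + M : ℝ) / m := by
          have := @Nat.cast_div_le ℝ _ _ _ (n + M) m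
          push_cast at this
          exact this
        have h6 : (0 : ℝ) ≤ (((n + M) / m : ℕ) : ℝ) := by positivity
        calc _ ≤ ((n + M : ℝ) / m) * ((n + M : ℝ) / m) := mul_le_mul h5 h5 h6 (h6.trans h5)
          _ = (n + M : ℝ) ^ 2 * ((m : ℝ) ^ 2)⁻¹ := by
            rw [← sq, div_pow, div_eq_mul_inv]
    _ = (n + M : ℝ) ^ 2 * ∑ m ∈ Ioo k (n + M + 1), ((m : ℝ) ^ 2)⁻¹ := by rw [Finset.mul_sum]
    _ ≤ (n + M : ℝ) ^ 2 * (2 / (k + 1)) := by
        apply mul_le_mul_of_nonneg_left _ (by positivity)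
        exact sum_Ioo_inv_sq_le k (n + M + 1)

/-- The proportions for the truncated count. -/
noncomputable def freqs (s : Finset ℕ) (M r n : ℕ) : ℝ :=
  (((Icc 1 n ×ˢ Icc 1 n).filter fun q => Zs s M q.1 q.2 = r).card : ℝ) / (n : ℝ) ^ 2

theorem freq_close (k M r n : ℕ) (hn : 1 ≤ n) :
    |freq M r n - freqs (pr k) M r n| ≤ 2 * ((M : ℝ) * (1 + M)) ^ 2 / (k + 1) := by
  have hn' : (1 : ℝ) ≤ n := by exact_mod_cast hn
  set A := (Icc 1 n ×ˢ Icc 1 n).filter fun q => Z M q.1 q.2 = r with hA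
  set B := (Icc 1 n ×ˢ Icc 1 n).filter fun q => Zs (pr k) M q.1 q.2 = r with hB
  set D := (Icc 1 n ×ˢ Icc 1 n).filter fun q => Z M q.1 q.2 ≠ Zs (pr k) M q.1 q.2 with hD
  have h1 : A ⊆ B ∪ D := by
    intro q hq
    rw [hA, mem_filter] at hq
    rw [mem_union, hB, hD, mem_filter, mem_filter]
    by_cases h : Z M q.1 q.2 = Zs (pr k) M q.1 q.2
    · exact Or.inl ⟨hq.1, h ▸ hq.2⟩
    · exact Or.inr ⟨hq.1, h⟩
  have h2 : B ⊆ A ∪ D := by
    intro q hq
    rw [hB, mem_filter] at hq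
    rw [mem_union, hA, hD, mem_filter, mem_filter]
    by_cases h : Z M q.1 q.2 = Zs (pr k) M q.1 q.2
    · exact Or.inl ⟨hq.1, h.trans hq.2⟩
    · exact Or.inr ⟨hq.1, h⟩
  have h3 : (A.card : ℝ) ≤ B.card + D.card := by
    exact_mod_cast (Finset.card_le_card h1).trans (Finset.card_union_le _ _)
  have h4 : (B.card : ℝ) ≤ A.card + D.card := by
    exact_mod_cast (Finset.card_le_card h2).trans (Finset.card_union_le _ _)
  have h5 : (D.card : ℝ) ≤ (M : ℝ) ^ 2 * ((n + M : ℝ) ^ 2 * (2 / (k + 1))) := card_ne_le k M n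
  have h6 : freq M r n - freqs (pr k) M r n = ((A.card : ℝ) - B.card) / (n : ℝ) ^ 2 := by
    unfold freq freqs
    rw [← sub_div]
  have hn2 : (0 : ℝ) < (n : ℝ) ^ 2 := by positivity
  rw [h6, abs_div, abs_of_pos hn2, div_le_iff₀ hn2]
  have h7 : |(A.card : ℝ) - B.card| ≤ D.card := by
    rw [abs_le]
    constructor <;> linarith
  refine h7.trans (h5.trans ?_)
  have h8 : (n + M : ℝ) ≤ n * (1 + M) := by
    have : (0 : ℝ) ≤ M := by positivity
    nlinarith
  have h9 : (n + M : ℝ) ^ 2 ≤ (n * (1 + M)) ^ 2 := pow_le_pow_left₀ (by positivity) h8 2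
  have h10 : (0 : ℝ) ≤ (M : ℝ) ^ 2 * (2 / (k + 1)) := by positivity
  calc (M : ℝ) ^ 2 * ((n + M : ℝ) ^ 2 * (2 / (k + 1)))
      = ((M : ℝ) ^ 2 * (2 / (k + 1))) * (n + M : ℝ) ^ 2 := by ring
    _ ≤ ((M : ℝ) ^ 2 * (2 / (k + 1))) * (n * (1 + M)) ^ 2 := mul_le_mul_of_nonneg_left h9 h10
    _ = 2 * ((M : ℝ) * (1 + M)) ^ 2 / (k + 1) * (n : ℝ) ^ 2 := by ring

/-! ## Periodic sets -/

theorem sum_periodic (Q : ℕ) (g : ℕ → ℝ) (hg : ∀ a, g (a + Q) = g a) (k : ℕ) :
    ∑ a ∈ range (k * Q), g a = k * ∑ a ∈ range Q, g a := by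
  induction k with
  | zero => simp
  | succ k ih =>
    have hk : ∀ (k a : ℕ), g (k * Q + a) = g a := by
      intro k
      induction k with
      | zero => simp
      | succ k ih =>
        intro a
        have : (k + 1) * Q + a = (k * Q + a) + Q := by ring
        rw [this, hg, ih]
    rw [Nat.succ_mul, Finset.sum_range_add, ih]
    simp only [hk]
    push_cast
    ring

theorem sum_Icc_periodic (Q : ℕ) (g : ℕ → ℝ) (hg : ∀ a, g (a + Q) = g a) (k : ℕ) :
    ∑ a ∈ Icc 1 (k * Q), g a = k * ∑ a ∈ range Q, g a := by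
  have h0 : ∀ n, ∑ a ∈ Icc 1 n, g a = ∑ a ∈ range n, g (a + 1) := by
    intro n
    rw [Finset.sum_bij (fun (x : ℕ) (_ : x ∈ Icc 1 n) => x - 1) (t := range n)
      (g := fun i => g (i + 1))]
    · intro x hx
      rw [mem_Icc] at hx
      rw [mem_range]
      omega
    · intro x hx y hy hxy
      rw [mem_Icc] at hx hy
      omega
    · intro y hy
      rw [mem_range] at hy
      exact ⟨y + 1, mem_Icc.2 (by omega), by omega⟩
    · intro x hx
      rw [mem_Icc] at hx
      congr 1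
      omega
  have h1 : ∑ a ∈ range (k * Q), g (a + 1) = ∑ a ∈ range (k * Q), g a := by
    have e1 := Finset.sum_range_succ (fun a => g a) (k * Q)
    have e2 := Finset.sum_range_succ' (fun a => g a) (k * Q)
    have hk : ∀ (k : ℕ), g (k * Q) = g 0 := by
      intro k
      induction k with
      | zero => simp
      | succ k ih => rw [Nat.succ_mul, hg, ih]
    have hk' := hk k
    linarith
  rw [h0, h1, sum_periodic Q g hg k]

theorem periodic_density (Q : ℕ) (hQ : 0 < Q) (h : ℕ → ℕ → ℝ) (h0 : ∀ a b, 0 ≤ h a b)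
    (h1 : ∀ a b, h (a + Q) b = h a b) (h2 : ∀ a b, h a (b + Q) = h a b) :
    Tendsto (fun n : ℕ => (∑ a ∈ Icc 1 n, ∑ b ∈ Icc 1 n, h a b) / (n : ℝ) ^ 2) atTop
      (𝓝 ((∑ a ∈ range Q, ∑ b ∈ range Q, h a b) / (Q : ℝ) ^ 2)) := by
  set c := ∑ a ∈ range Q, ∑ b ∈ range Q, h a b with hc
  have hc0 : 0 ≤ c := Finset.sum_nonneg fun a _ => Finset.sum_nonneg fun b _ => h0 a b
  have hQ' : (0 : ℝ) < Q := by exact_mod_cast hQ
  have hmul : ∀ k : ℕ, ∑ a ∈ Icc 1 (k * Q), ∑ b ∈ Icc 1 (k * Q), h a b = (k : ℝ) ^ 2 * c := by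
    intro k
    have e : ∀ a, ∑ b ∈ Icc 1 (k * Q), h a b = k * ∑ b ∈ range Q, h a b := fun a =>
      sum_Icc_periodic Q (fun b => h a b) (fun b => h2 a b) k
    simp only [e]
    rw [sum_Icc_periodic Q (fun a => k * ∑ b ∈ range Q, h a b) (fun a => by simp only [h1]) k,
      ← Finset.mul_sum, hc]
    ring
  have hmono : ∀ n m : ℕ, n ≤ m → ∑ a ∈ Icc 1 n, ∑ b ∈ Icc 1 n, h a b ≤
      ∑ a ∈ Icc 1 m, ∑ b ∈ Icc 1 m, h a b := by
    intro n m hnm
    calc _ ≤ ∑ a ∈ Icc 1 n, ∑ b ∈ Icc 1 m, h a b := by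
          apply Finset.sum_le_sum
          intro a _
          apply Finset.sum_le_sum_of_subset_of_nonneg (Finset.Icc_subset_Icc_right hnm)
          intro b _ _
          exact h0 a b
      _ ≤ _ := by
          apply Finset.sum_le_sum_of_subset_of_nonneg (Finset.Icc_subset_Icc_right hnm)
          intro a _ _
          exact Finset.sum_nonneg fun b _ => h0 a b
  have hinv : Tendsto (fun n : ℕ => 1 / (n : ℝ)) atTop (𝓝 0) := tendsto_one_div_atTop_nhds_zero_nat
  have lim : c / (Q : ℝ) ^ 2 = c * (1 / (Q : ℝ)) ^ 2 := by rw [one_div, inv_pow, div_eq_mul_inv]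
  rw [lim]
  have lo : Tendsto (fun n : ℕ => c * (1 / (Q : ℝ) - 1 / (n : ℝ)) ^ 2) atTop
      (𝓝 (c * (1 / (Q : ℝ)) ^ 2)) := by
    have := ((tendsto_const_nhds (x := 1 / (Q : ℝ)) (f := atTop)).sub hinv).pow 2
    rw [sub_zero] at this
    exact this.const_mul c
  have hi : Tendsto (fun n : ℕ => c * (1 / (Q : ℝ) + 1 / (n : ℝ)) ^ 2) atTop
      (𝓝 (c * (1 / (Q : ℝ)) ^ 2)) := by
    have := ((tendsto_const_nhds (x := 1 / (Q : ℝ)) (f := atTop)).add hinv).pow 2
    rw [add_zero] at this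
    exact this.const_mul c
  refine tendsto_of_tendsto_of_tendsto_of_le_of_le' lo hi ?_ ?_
  · filter_upwards [eventually_ge_atTop Q] with n hn
    have hn0 : (0 : ℝ) < n := by
      have : 0 < n := lt_of_lt_of_le hQ hn
      exact_mod_cast this
    have hk := hmono (n / Q * Q) n (Nat.div_mul_le_self n Q)
    rw [hmul] at hk
    rw [le_div_iff₀ (by positivity)]
    refine le_trans ?_ hk
    have e : c * (1 / (Q : ℝ) - 1 / (n : ℝ)) ^ 2 * (n : ℝ) ^ 2 = ((n : ℝ) / Q - 1) ^ 2 * c := by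
      field_simp
    rw [e]
    apply mul_le_mul_of_nonneg_right _ hc0
    apply pow_le_pow_left₀
    · rw [sub_nonneg, le_div_iff₀ hQ', one_mul]
      exact_mod_cast hn
    · have : (n : ℝ) / Q < ((n / Q : ℕ) : ℝ) + 1 := by
        rw [div_lt_iff₀ hQ']
        have := Nat.lt_div_mul_add (a := n) hQ
        have h3 : (n : ℝ) < ((n / Q : ℕ) : ℝ) * Q + Q := by exact_mod_cast this
        linarith
      linarith
  · filter_upwards [eventually_ge_atTop Q] with n hn
    have hn0 : (0 : ℝ) < n := by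
      have : 0 < n := lt_of_lt_of_le hQ hn
      exact_mod_cast this
    have hlt : n ≤ (n / Q + 1) * Q := by
      have := Nat.lt_div_mul_add (a := n) hQ
      rw [Nat.add_mul, one_mul]
      exact this.le
    have hk := hmono n ((n / Q + 1) * Q) hlt
    rw [hmul] at hk
    rw [div_le_iff₀ (by positivity)]
    refine hk.trans ?_
    have e : c * (1 / (Q : ℝ) + 1 / (n : ℝ)) ^ 2 * (n : ℝ) ^ 2 = ((n : ℝ) / Q + 1) ^ 2 * c := by
      field_simp
    rw [e]
    apply mul_le_mul_of_nonneg_right _ hc0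
    apply pow_le_pow_left₀ (by positivity)
    push_cast
    have : ((n / Q : ℕ) : ℝ) ≤ (n : ℝ) / Q := Nat.cast_div_le
    linarith

theorem Zs_periodic (s : Finset ℕ) (M a b : ℕ) :
    Zs s M (a + ∏ p ∈ s, p) b = Zs s M a b ∧ Zs s M a (b + ∏ p ∈ s, p) = Zs s M a b := by
  have hd : ∀ p ∈ s, ∀ x : ℕ, p ∣ x + ∏ p ∈ s, p ↔ p ∣ x := fun p hp x =>
    (Nat.dvd_add_iff_left (Finset.dvd_prod_of_mem (fun p => p) hp)).symm
  constructor
  · unfold Zs
    apply Finset.sum_congr rfl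
    intro i _
    apply Finset.sum_congr rfl
    intro j _
    have : cop s (a + ∏ p ∈ s, p + 1 + i) (b + 1 + j) ↔ cop s (a + 1 + i) (b + 1 + j) := by
      unfold cop
      apply forall₂_congr
      intro p hp
      have e : a + ∏ p ∈ s, p + 1 + i = (a + 1 + i) + ∏ p ∈ s, p := by ring
      rw [e, hd p hp]
    simp only [this]
  · unfold Zs
    apply Finset.sum_congr rfl
    intro i _
    apply Finset.sum_congr rfl
    intro j _
    have : cop s (a + 1 + i) (b + ∏ p ∈ s, p + 1 + j) ↔ cop s (a + 1 + i) (b + 1 + j) := by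
      unfold cop
      apply forall₂_congr
      intro p hp
      have e : b + ∏ p ∈ s, p + 1 + j = (b + 1 + j) + ∏ p ∈ s, p := by ring
      rw [e, hd p hp]
    simp only [this]

/-- The limit of the truncated proportions. -/
noncomputable def ps (s : Finset ℕ) (M r : ℕ) : ℝ :=
  (∑ a ∈ range (∏ p ∈ s, p), ∑ b ∈ range (∏ p ∈ s, p), if Zs s M a b = r then (1 : ℝ) else 0) /
    ((∏ p ∈ s, p : ℕ) : ℝ) ^ 2

theorem tendsto_freqs (s : Finset ℕ) (hs : ∀ p ∈ s, p.Prime) (M r : ℕ) :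
    Tendsto (freqs s M r) atTop (𝓝 (ps s M r)) := by
  have hQ : 0 < ∏ p ∈ s, p := Finset.prod_pos fun p hp => (hs p hp).pos
  have h := periodic_density (∏ p ∈ s, p) hQ (fun a b => if Zs s M a b = r then (1 : ℝ) else 0)
    (fun a b => by positivity) (fun a b => by rw [(Zs_periodic s M a b).1])
    (fun a b => by rw [(Zs_periodic s M a b).2])
  refine h.congr ?_
  intro n
  unfold freqs
  congr 1
  rw [Finset.card_filter, Finset.sum_product]
  push_cast
  rfl

/-- The proportions converge. -/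
theorem exists_limit (M r : ℕ) : ∃ l : ℝ, Tendsto (freq M r) atTop (𝓝 l) ∧
    Tendsto (fun k => ps (pr k) M r) atTop (𝓝 l) := by
  set K : ℝ := 2 * ((M : ℝ) * (1 + M)) ^ 2 with hK
  have hK0 : 0 ≤ K := by positivity
  have hKlim : Tendsto (fun k : ℕ => K / ((k : ℝ) + 1)) atTop (𝓝 0) := by
    have := (tendsto_one_div_add_atTop_nhds_zero_nat (𝕜 := ℝ)).const_mul K
    rw [mul_zero] at this
    refine this.congr ?_
    intro k
    rw [mul_one_div]
  have hcauchy : CauchySeq (freq M r) := by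
    rw [Metric.cauchySeq_iff]
    intro ε hε
    obtain ⟨k, hk⟩ := ((tendsto_order.1 hKlim).2 (ε / 4) (by positivity)).exists
    obtain ⟨N, hN⟩ := Metric.cauchySeq_iff.1 (tendsto_freqs (pr k) (pr_prime k) M r).cauchySeq
      (ε / 4) (by positivity)
    refine ⟨max N 1, fun m hm n hn => ?_⟩
    have h1 := freq_close k M r m (le_trans (le_max_right _ _) hm)
    have h2 := freq_close k M r n (le_trans (le_max_right _ _) hn)
    have h3 := hN m (le_trans (le_max_left _ _) hm) n (le_trans (le_max_left _ _) hn)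
    rw [Real.dist_eq] at h3 ⊢
    rw [abs_le] at h1 h2
    rw [abs_lt] at h3 ⊢
    rw [← hK] at h1 h2
    constructor <;> linarith [h1.1, h1.2, h2.1, h2.2, h3.1, h3.2]
  obtain ⟨l, hl⟩ := cauchySeq_tendsto_of_complete hcauchy
  refine ⟨l, hl, ?_⟩
  have hbound : ∀ k, |ps (pr k) M r - l| ≤ K / ((k : ℝ) + 1) := by
    intro k
    have h1 : Tendsto (fun n => |freqs (pr k) M r n - freq M r n|) atTop
        (𝓝 |ps (pr k) M r - l|) := ((tendsto_freqs (pr k) (pr_prime k) M r).sub hl).abs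
    apply le_of_tendsto h1
    filter_upwards [eventually_ge_atTop 1] with n hn
    rw [abs_sub_comm]
    exact freq_close k M r n hn
  rw [tendsto_iff_dist_tendsto_zero]
  apply squeeze_zero (fun _ => dist_nonneg) _ hKlim
  intro k
  rw [Real.dist_eq]
  exact hbound k

theorem tendsto_freq (M r : ℕ) : Tendsto (freq M r) atTop (𝓝 (p M r)) := by
  obtain ⟨l, hl, -⟩ := exists_limit M r
  have : p M r = l := hl.limUnder_eq
  rw [this]
  exact hl

theorem tendsto_ps (M r : ℕ) : Tendsto (fun k => ps (pr k) M r) atTop (𝓝 (p M r)) := by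
  obtain ⟨l, hl, hl'⟩ := exists_limit M r
  have : p M r = l := hl.limUnder_eq
  rw [this]
  exact hl'

theorem sum_p (M : ℕ) : ∑ r ∈ range (M ^ 2 + 1), p M r = 1 := by
  have h1 : Tendsto (fun n => ∑ r ∈ range (M ^ 2 + 1), freq M r n) atTop
      (𝓝 (∑ r ∈ range (M ^ 2 + 1), p M r)) :=
    tendsto_finset_sum _ fun r _ => tendsto_freq M r
  have h2 : Tendsto (fun n => ∑ r ∈ range (M ^ 2 + 1), freq M r n) atTop (𝓝 1) := by
    apply tendsto_const_nhds.congr'
    filter_upwards [eventually_ge_atTop 1] with n hn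
    unfold freq
    rw [← Finset.sum_div]
    have h3 : (Icc 1 n ×ˢ Icc 1 n).card = ∑ r ∈ range (M ^ 2 + 1),
        ((Icc 1 n ×ˢ Icc 1 n).filter fun q => Z M q.1 q.2 = r).card := by
      apply Finset.card_eq_sum_card_fiberwise
      intro q _
      simp only [Finset.coe_range, Set.mem_Iio]
      exact Nat.lt_succ_of_le (Z_le M q.1 q.2)
    rw [card_product, Nat.card_Icc] at h3
    have h4 : ∑ r ∈ range (M ^ 2 + 1),
        (((Icc 1 n ×ˢ Icc 1 n).filter fun q => Z M q.1 q.2 = r).card : ℝ) = (n : ℝ) ^ 2 := by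
      have : ((∑ r ∈ range (M ^ 2 + 1),
        ((Icc 1 n ×ˢ Icc 1 n).filter fun q => Z M q.1 q.2 = r).card : ℕ) : ℝ) = (n : ℝ) ^ 2 := by
        rw [← h3]
        push_cast [Nat.add_sub_cancel]
        ring
      push_cast at this
      exact this
    rw [h4]
    have : (n : ℝ) ≠ 0 := by
      have : n ≠ 0 := by omega
      exact_mod_cast this
    field_simp
  exact tendsto_nhds_unique h1 h2

theorem sum_ps (s : Finset ℕ) (M : ℕ) (φ : ℕ → ℝ) :
    ∑ r ∈ range (M ^ 2 + 1), φ r * ps s M r =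
    (∑ a ∈ range (∏ p ∈ s, p), ∑ b ∈ range (∏ p ∈ s, p), φ (Zs s M a b)) /
      ((∏ p ∈ s, p : ℕ) : ℝ) ^ 2 := by
  unfold ps
  simp only [← mul_div_assoc]
  rw [← Finset.sum_div]
  congr 1
  simp only [Finset.mul_sum]
  rw [Finset.sum_comm]
  apply Finset.sum_congr rfl
  intro a _
  rw [Finset.sum_comm]
  apply Finset.sum_congr rfl
  intro b _
  rw [Finset.sum_eq_single (Zs s M a b)]
  · simp
  · intro r _ hr
    rw [if_neg (fun hh => hr hh.symm), mul_zero]
  · intro hh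
    exact absurd (mem_range.2 (Nat.lt_succ_of_le (Zs_le s M a b))) hh

theorem variance_eq (M : ℕ) : variance M =
    ∑ r ∈ range (M ^ 2 + 1), (r : ℝ) ^ 2 * p M r - (mean M) ^ 2 := by
  unfold variance
  have e : ∀ r : ℕ, ((r : ℝ) - mean M) ^ 2 * p M r =
      (r : ℝ) ^ 2 * p M r - 2 * mean M * ((r : ℝ) * p M r) + (mean M) ^ 2 * p M r := by
    intro r; ring
  simp only [e]
  rw [Finset.sum_add_distrib, Finset.sum_sub_distrib, ← Finset.mul_sum, ← Finset.mul_sum, sum_p]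
  have : ∑ r ∈ range (M ^ 2 + 1), (r : ℝ) * p M r = mean M := rfl
  rw [this]
  ring

/-- The variance bound. -/
theorem variance_le (M : ℕ) : variance M ≤ 3 / 2 * (M : ℝ) ^ 2 := by
  rw [variance_eq]
  unfold mean
  have h1 : Tendsto (fun k => ∑ r ∈ range (M ^ 2 + 1), (r : ℝ) ^ 2 * ps (pr k) M r -
      (∑ r ∈ range (M ^ 2 + 1), (r : ℝ) * ps (pr k) M r) ^ 2) atTop
      (𝓝 (∑ r ∈ range (M ^ 2 + 1), (r : ℝ) ^ 2 * p M r -
        (∑ r ∈ range (M ^ 2 + 1), (r : ℝ) * p M r) ^ 2)) := by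
    apply Tendsto.sub
    · exact tendsto_finset_sum _ fun r _ => (tendsto_ps M r).const_mul _
    · exact (tendsto_finset_sum _ fun r _ => (tendsto_ps M r).const_mul _).pow 2
  apply le_of_tendsto' h1
  intro k
  rw [sum_ps (pr k) M (fun r => (r : ℝ) ^ 2), sum_ps (pr k) M (fun r => (r : ℝ))]
  exact var_Zs (pr k) (pr_prime k) M

end Pool.Agent.Q14.CV
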