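import Mathlib

/-!
Two-sided certificates for the trace norm (sum of the absolute values of the eigenvalues) of a real
symmetric matrix.
-/

namespace Pool.Agent.Q14.Energy

open Matrix

variable {n : Type*} [Fintype n] [DecidableEq n]

/-- The sum of the absolute values of the eigenvalues of a real symmetric matrix. -/
noncomputable def absEig {A : Matrix n n ℝ} (hA : A.IsHermitian) : ℝ := ∑ i, |hA.eigenvalues i|

theorem quad_eq {A : Matrix n n ℝ} (hA : A.IsHermitian) :
    (star (hA.eigenvectorUnitary : Matrix n n ℝ)) * A * (hA.eigenvectorUnitary : Matrix n n ℝ)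
      = diagonal hA.eigenvalues := by
  have h := hA.conjStarAlgAut_star_eigenvectorUnitary
  rw [Unitary.conjStarAlgAut_apply] at h
  simpa using h

theorem trace_conj {A : Matrix n n ℝ} (hA : A.IsHermitian) (P : Matrix n n ℝ) :
    trace ((star (hA.eigenvectorUnitary : Matrix n n ℝ)) * P *
      (hA.eigenvectorUnitary : Matrix n n ℝ)) = trace P := by
  rw [Matrix.trace_mul_comm, ← Matrix.mul_assoc]
  have : (hA.eigenvectorUnitary : Matrix n n ℝ) * star (hA.eigenvectorUnitary : Matrix n n ℝ) = 1 :=
    Unitary.coe_mul_star_self hA.eigenvectorUnitary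
  rw [this, Matrix.one_mul]

/-- Upper bound: if `A = P - N` with `P`, `N` positive semidefinite, then the trace norm of `A` is at
most `tr P + tr N`. -/
theorem absEig_le {A P N : Matrix n n ℝ} (hA : A.IsHermitian) (h : A = P - N)
    (hP : P.PosSemidef) (hN : N.PosSemidef) : absEig hA ≤ trace P + trace N := by
  set U := (hA.eigenvectorUnitary : Matrix n n ℝ) with hU
  have hq := quad_eq hA
  have hP' : (star U * P * U).PosSemidef := by
    have := hP.conjTranspose_mul_mul_same U
    rwa [← star_eq_conjTranspose] at this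
  have hN' : (star U * N * U).PosSemidef := by
    have := hN.conjTranspose_mul_mul_same U
    rwa [← star_eq_conjTranspose] at this
  rw [← trace_conj hA P, ← trace_conj hA N]
  unfold absEig Matrix.trace
  rw [← Finset.sum_add_distrib]
  apply Finset.sum_le_sum
  intro i _
  have e : hA.eigenvalues i = (star U * P * U) i i - (star U * N * U) i i := by
    have h1 : (star U * A * U) i i = hA.eigenvalues i := by
      rw [hq]; simp
    rw [← h1, ← Matrix.sub_apply, ← Matrix.sub_mul, ← Matrix.mul_sub, ← h]
  have p1 := hP'.diag_nonneg (i := i)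
  have p2 := hN'.diag_nonneg (i := i)
  rw [e]
  simp only [Matrix.diag_apply]
  rw [abs_le]
  constructor <;> linarith

/-- Lower bound: if `1 - X` and `1 + X` are positive semidefinite then `tr (A X)` is at most the
trace norm of `A`. -/
theorem le_absEig {A X : Matrix n n ℝ} (hA : A.IsHermitian) (h1 : (1 - X).PosSemidef)
    (h2 : (1 + X).PosSemidef) : trace (A * X) ≤ absEig hA := by
  set U := (hA.eigenvectorUnitary : Matrix n n ℝ) with hU
  have hq := quad_eq hA
  rw [← hU] at hq
  have hUU : U * star U = 1 := Unitary.coe_mul_star_self hA.eigenvectorUnitary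
  have hUU' : star U * U = 1 := Unitary.coe_star_mul_self hA.eigenvectorUnitary
  have h1' : (star U * (1 - X) * U).PosSemidef := by
    have := h1.conjTranspose_mul_mul_same U
    rwa [← star_eq_conjTranspose] at this
  have h2' : (star U * (1 + X) * U).PosSemidef := by
    have := h2.conjTranspose_mul_mul_same U
    rwa [← star_eq_conjTranspose] at this
  have e1 : star U * (A * X) * U = diagonal hA.eigenvalues * (star U * X * U) := by
    rw [← hq]
    calc star U * (A * X) * U = star U * A * (1 : Matrix n n ℝ) * X * U := by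
          simp only [Matrix.mul_assoc, Matrix.one_mul]
      _ = star U * A * (U * star U) * X * U := by rw [hUU]
      _ = _ := by simp only [Matrix.mul_assoc]
  rw [← trace_conj hA (A * X), e1]
  unfold absEig Matrix.trace
  apply Finset.sum_le_sum
  intro i _
  rw [Matrix.diag_apply, Matrix.diagonal_mul]
  have p1 := h1'.diag_nonneg (i := i)
  have p2 := h2'.diag_nonneg (i := i)
  rw [Matrix.mul_sub, Matrix.sub_mul, Matrix.mul_one, hUU', Matrix.sub_apply, Matrix.one_apply_eq] at p1
  rw [Matrix.mul_add, Matrix.add_mul, Matrix.mul_one, hUU', Matrix.add_apply, Matrix.one_apply_eq] at p2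
  have hb : |(star U * X * U) i i| ≤ 1 := abs_le.mpr ⟨by linarith, by linarith⟩
  calc hA.eigenvalues i * (star U * X * U) i i ≤ |hA.eigenvalues i * (star U * X * U) i i| :=
        le_abs_self _
    _ = |hA.eigenvalues i| * |(star U * X * U) i i| := abs_mul _ _
    _ ≤ |hA.eigenvalues i| * 1 := mul_le_mul_of_nonneg_left hb (abs_nonneg _)
    _ = |hA.eigenvalues i| := mul_one _

/-- A symmetric real matrix with `R i i ≥ ∑_{j ≠ i} |R i j|` is positive semidefinite. -/
theorem posSemidef_of_diagDominant {R : Matrix n n ℝ} (hR : R.IsSymm)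
    (h : ∀ i, ∑ j ∈ Finset.univ.erase i, |R i j| ≤ R i i) : R.PosSemidef := by
  refine Matrix.PosSemidef.of_dotProduct_mulVec_nonneg ?_ ?_
  · rw [Matrix.IsHermitian, Matrix.conjTranspose_eq_transpose_of_trivial]; exact hR
  · intro x
    simp only [star_trivial]
    have key : x ⬝ᵥ (R *ᵥ x) = ∑ i, ∑ j, R i j * (x i * x j) := by
      simp only [dotProduct, mulVec, Finset.mul_sum]
      apply Finset.sum_congr rfl; intro i _
      apply Finset.sum_congr rfl; intro j _
      ring
    rw [key]
    have hsym : ∀ i j, R i j = R j i := fun i j => (hR.apply i j).symm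
    -- lower bound for every term
    have h1 : ∀ i, R i i * (x i * x i) - ∑ j ∈ Finset.univ.erase i, |R i j| * ((x i ^ 2 + x j ^ 2) / 2)
        ≤ ∑ j, R i j * (x i * x j) := by
      intro i
      rw [← Finset.add_sum_erase Finset.univ _ (Finset.mem_univ i)]
      have : ∀ j, - (|R i j| * ((x i ^ 2 + x j ^ 2) / 2)) ≤ R i j * (x i * x j) := by
        intro j
        have a1 : |R i j * (x i * x j)| ≤ |R i j| * ((x i ^ 2 + x j ^ 2) / 2) := by
          rw [abs_mul]
          apply mul_le_mul_of_nonneg_left _ (abs_nonneg _)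
          rw [abs_le]
          constructor <;> nlinarith [sq_nonneg (x i + x j), sq_nonneg (x i - x j)]
        exact (abs_le.mp a1).1
      have h2 := Finset.sum_le_sum (fun j (_ : j ∈ Finset.univ.erase i) => this j)
      rw [Finset.sum_neg_distrib] at h2
      linarith
    have h2 := Finset.sum_le_sum (fun i (_ : i ∈ Finset.univ) => h1 i)
    refine le_trans ?_ h2
    rw [Finset.sum_sub_distrib]
    have h3 : ∑ i, ∑ j ∈ Finset.univ.erase i, |R i j| * ((x i ^ 2 + x j ^ 2) / 2) =
        ∑ i, (∑ j ∈ Finset.univ.erase i, |R i j|) * x i ^ 2 := by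
      have e1 : ∀ i, ∑ j ∈ Finset.univ.erase i, |R i j| * ((x i ^ 2 + x j ^ 2) / 2) =
          ∑ j, (if j ≠ i then |R i j| * (x i ^ 2 / 2) else 0) +
          ∑ j, (if j ≠ i then |R i j| * (x j ^ 2 / 2) else 0) := by
        intro i
        rw [← Finset.sum_add_distrib, ← Finset.add_sum_erase Finset.univ _ (Finset.mem_univ i)]
        simp only [ne_eq, not_true_eq_false, if_false, add_zero, zero_add]
        apply Finset.sum_congr rfl
        intro j hj
        rw [if_pos (Finset.ne_of_mem_erase hj), if_pos (Finset.ne_of_mem_erase hj)]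
        ring
      simp only [e1]
      rw [Finset.sum_add_distrib]
      have e2 : ∑ i, ∑ j, (if j ≠ i then |R i j| * (x j ^ 2 / 2) else 0) =
          ∑ i, ∑ j, (if j ≠ i then |R i j| * (x i ^ 2 / 2) else 0) := by
        rw [Finset.sum_comm]
        apply Finset.sum_congr rfl; intro i _
        apply Finset.sum_congr rfl; intro j _
        rw [hsym i j]
        simp only [ne_comm]
      rw [e2, ← Finset.sum_add_distrib]
      apply Finset.sum_congr rfl; intro i _
      rw [← Finset.sum_add_distrib, Finset.sum_mul, ← Finset.add_sum_erase Finset.univ _ (Finset.mem_univ i)]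
      simp only [ne_eq, not_true_eq_false, if_false, add_zero, zero_add]
      apply Finset.sum_congr rfl
      intro j hj
      rw [if_pos (Finset.ne_of_mem_erase hj)]
      ring
    rw [h3, ← Finset.sum_sub_distrib]
    apply Finset.sum_nonneg
    intro i _
    have := h i
    nlinarith [sq_nonneg (x i)]

/-! ### Integer certificates -/

/-- The check that `M` is symmetric and `M - Bᵀ B` diagonally dominant, for integer matrices. -/
def psdCheck (M B : Matrix n n ℤ) : Bool :=
  decide (Mᵀ = M) &&
  decide (∀ i, ∑ j ∈ Finset.univ.erase i, |(M - Bᵀ * B) i j| ≤ (M - Bᵀ * B) i i)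

theorem posSemidef_of_check {M B : Matrix n n ℤ} (h : psdCheck M B = true) :
    (M.map (Int.cast : ℤ → ℝ)).PosSemidef := by
  unfold psdCheck at h
  rw [Bool.and_eq_true, decide_eq_true_iff, decide_eq_true_iff] at h
  obtain ⟨hs, hd⟩ := h
  set R : Matrix n n ℤ := M - Bᵀ * B with hR
  have e : M.map (Int.cast : ℤ → ℝ) = (B.map (Int.cast : ℤ → ℝ))ᴴ * (B.map (Int.cast : ℤ → ℝ)) +
      R.map (Int.cast : ℤ → ℝ) := by
    have h1 : M = Bᵀ * B + R := by rw [hR]; abel
    conv_lhs => rw [h1]
    rw [conjTranspose_eq_transpose_of_trivial]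
    ext i j
    simp [Matrix.mul_apply]
  rw [e]
  apply Matrix.PosSemidef.add (Matrix.posSemidef_conjTranspose_mul_self _)
  apply posSemidef_of_diagDominant
  · ext i j
    simp only [Matrix.transpose_apply, Matrix.map_apply]
    have : R j i = R i j := by
      rw [hR]
      simp only [Matrix.sub_apply, Matrix.mul_apply, Matrix.transpose_apply]
      have hs' : M j i = M i j := by
        conv_lhs => rw [← hs]
        rfl
      rw [hs']
      congr 1
      apply Finset.sum_congr rfl; intro l _
      ring
    rw [this]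
  · intro i
    have := hd i
    simp only [Matrix.map_apply]
    have h2 : ((∑ j ∈ Finset.univ.erase i, |R i j| : ℤ) : ℝ) ≤ ((R i i : ℤ) : ℝ) := by
      exact_mod_cast this
    push_cast at h2
    exact h2

/-- scaled upper bound -/
theorem scaled_upper {A : Matrix n n ℝ} (hA : A.IsHermitian) {a P N BP BN : Matrix n n ℤ} {s : ℤ}
    (hs : 0 < s) (ha : A = a.map (Int.cast : ℤ → ℝ)) (hP : psdCheck P BP = true)
    (hN : psdCheck N BN = true) (h : P - N = s • a) :
    (s : ℝ) * absEig hA ≤ ((trace P + trace N : ℤ) : ℝ) := by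
  have hs' : (0:ℝ) < s := by exact_mod_cast hs
  have h1 := posSemidef_of_check hP
  have h2 := posSemidef_of_check hN
  have h3 := absEig_le (P := (1 / (s:ℝ)) • P.map (Int.cast : ℤ → ℝ))
    (N := (1 / (s:ℝ)) • N.map (Int.cast : ℤ → ℝ)) hA ?_
    (h1.smul (by positivity)) (h2.smul (by positivity))
  · rw [Matrix.trace_smul, Matrix.trace_smul] at h3
    have e1 : trace (P.map (Int.cast : ℤ → ℝ)) = ((trace P : ℤ) : ℝ) := by
      simp [Matrix.trace]
    have e2 : trace (N.map (Int.cast : ℤ → ℝ)) = ((trace N : ℤ) : ℝ) := by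
      simp [Matrix.trace]
    rw [e1, e2, smul_eq_mul, smul_eq_mul] at h3
    have h4 := mul_le_mul_of_nonneg_left h3 hs'.le
    have h5 : (s:ℝ) * (1 / (s:ℝ) * ((trace P : ℤ) : ℝ) + 1 / (s:ℝ) * ((trace N : ℤ) : ℝ)) =
        ((trace P + trace N : ℤ) : ℝ) := by
      push_cast; field_simp
    rw [h5] at h4
    exact h4
  · rw [ha, ← smul_sub]
    ext i j
    have h6 : P i j - N i j = s * a i j := by
      have := congrFun (congrFun h i) j
      simpa using this
    have h7 : ((P i j : ℤ) : ℝ) - ((N i j : ℤ) : ℝ) = s * ((a i j : ℤ) : ℝ) := by exact_mod_cast h6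
    simp only [Matrix.map_apply, Matrix.smul_apply, Matrix.sub_apply, smul_eq_mul]
    rw [h7]; field_simp

/-- scaled lower bound -/
theorem scaled_lower {A : Matrix n n ℝ} (hA : A.IsHermitian) {a X B1 B2 : Matrix n n ℤ} {s : ℤ}
    (hs : 0 < s) (ha : A = a.map (Int.cast : ℤ → ℝ))
    (h1 : psdCheck (s • (1 : Matrix n n ℤ) - X) B1 = true)
    (h2 : psdCheck (s • (1 : Matrix n n ℤ) + X) B2 = true) :
    ((trace (a * X) : ℤ) : ℝ) ≤ (s : ℝ) * absEig hA := by
  subst ha
  have hs' : (0:ℝ) < s := by exact_mod_cast hs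
  have p1 := (posSemidef_of_check h1).smul (a := 1 / (s:ℝ)) (by positivity)
  have p2 := (posSemidef_of_check h2).smul (a := 1 / (s:ℝ)) (by positivity)
  have h3 := le_absEig (X := (1 / (s:ℝ)) • X.map (Int.cast : ℤ → ℝ)) hA ?_ ?_
  · rw [Matrix.mul_smul, Matrix.trace_smul, smul_eq_mul] at h3
    have e1 : trace (a.map (Int.cast : ℤ → ℝ) * X.map (Int.cast : ℤ → ℝ)) =
        ((trace (a * X) : ℤ) : ℝ) := by
      simp [Matrix.trace, Matrix.mul_apply]
    rw [e1] at h3
    have h4 := mul_le_mul_of_nonneg_left h3 hs'.le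
    have h5 : (s:ℝ) * (1 / (s:ℝ) * ((trace (a * X) : ℤ) : ℝ)) = ((trace (a * X) : ℤ) : ℝ) := by
      field_simp
    rw [h5] at h4
    exact h4
  · convert p1 using 1
    ext i j
    simp only [Matrix.sub_apply, Matrix.smul_apply, Matrix.map_apply, smul_eq_mul, Matrix.one_apply]
    push_cast
    split_ifs <;> field_simp <;> simp
  · convert p2 using 1
    ext i j
    simp only [Matrix.add_apply, Matrix.smul_apply, Matrix.map_apply, smul_eq_mul, Matrix.one_apply]
    push_cast
    split_ifs <;> field_simp <;> simp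

end Pool.Agent.Q14.Energy
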