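import Mathlib

set_option autoImplicit false

/-! # Counting lattice points in a disc by a staircase -/

namespace Pool.Agent.Q14.MC

open Finset

/-- One step of the staircase. -/
def rowF (T S β : ℕ) : ℕ → ℕ
  | 0 => 0
  | l + 1 => bif Nat.blt ((β + S * l) * (β + S * l)) T then l + 1 else rowF T S β l

/-- The staircase. -/
def walkF (S α β P F : ℕ) : ℕ → ℕ → ℕ → ℕ
  | 0, _, acc => acc
  | f + 1, l, acc =>
    walkF S α β P F f (rowF (P - (α + S * (F - 1 - f)) * (α + S * (F - 1 - f))) S β l)
      (acc + rowF (P - (α + S * (F - 1 - f)) * (α + S * (F - 1 - f))) S β l)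

/-- Number of points in a quadrant. -/
def quad (S P F α β : ℕ) : ℕ := walkF S α β P F F F 0

/-- Number of points in the four quadrants. -/
def cnt (S P F u u' v v' : ℕ) : ℕ :=
  quad S P F u v + quad S P F u v' + quad S P F u' v + quad S P F u' v'

/-- Number of `l < n` with `(β + S l)² < T`. -/
def rowS (T S β n : ℕ) : ℕ := ∑ l ∈ range n, if (β + S * l) * (β + S * l) < T then 1 else 0

theorem rowS_all (T S β n : ℕ) (h : ∀ l < n, (β + S * l) * (β + S * l) < T) :
    rowS T S β n = n := by
  unfold rowS
  rw [Finset.sum_congr rfl (g := fun _ => 1)]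
  · simp
  · intro l hl
    rw [if_pos (h l (mem_range.1 hl))]

theorem rowF_eq (T S β : ℕ) : ∀ l, rowF T S β l = rowS T S β l
  | 0 => rfl
  | l + 1 => by
    rw [rowF]
    by_cases h : (β + S * l) * (β + S * l) < T
    · have h' : Nat.blt ((β + S * l) * (β + S * l)) T = true := by
        rw [Nat.blt_eq]; exact h
      rw [h', cond_true, rowS_all]
      intro i hi
      refine lt_of_le_of_lt ?_ h
      have : β + S * i ≤ β + S * l := Nat.add_le_add_left (Nat.mul_le_mul_left _ (by omega)) _
      exact Nat.mul_le_mul this this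
    · have h' : Nat.blt ((β + S * l) * (β + S * l)) T = false := by
        rw [Bool.eq_false_iff, ne_eq, Nat.blt_eq]; exact h
      rw [h', cond_false, rowF_eq T S β l]
      unfold rowS
      rw [sum_range_succ, if_neg h, add_zero]

theorem rowS_le (T S β n : ℕ) : rowS T S β n ≤ n := by
  unfold rowS
  calc _ ≤ ∑ l ∈ range n, 1 := Finset.sum_le_sum fun l _ => by split_ifs <;> simp
    _ = n := by simp

/-- If the row bound for `T'` is `l'` then for every `T ≤ T'` only the first `l'` entries
matter. -/
theorem rowS_stop (T T' S β n : ℕ) (hT : T ≤ T') :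
    rowS T S β n = rowS T S β (rowS T' S β n) := by
  induction n with
  | zero => simp [rowS]
  | succ n ih =>
    by_cases h : (β + S * n) * (β + S * n) < T'
    · have : rowS T' S β (n + 1) = n + 1 := by
        apply rowS_all
        intro i hi
        refine lt_of_le_of_lt ?_ h
        have : β + S * i ≤ β + S * n := Nat.add_le_add_left (Nat.mul_le_mul_left _ (by omega)) _
        exact Nat.mul_le_mul this this
      rw [this]
    · have h1 : rowS T' S β (n + 1) = rowS T' S β n := by
        unfold rowS
        rw [sum_range_succ, if_neg h, add_zero]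
      have h2 : rowS T S β (n + 1) = rowS T S β n := by
        unfold rowS
        rw [sum_range_succ, if_neg (fun hh => h (lt_of_lt_of_le hh hT)), add_zero]
      rw [h1, h2, ih]

theorem walkF_eq (S α β P F : ℕ) : ∀ f l acc, f ≤ F →
    (∀ T ≤ P - (α + S * (F - f)) * (α + S * (F - f)), rowS T S β F = rowS T S β l) →
    walkF S α β P F f l acc = acc + ∑ i ∈ range f,
      rowS (P - (α + S * (F - f + i)) * (α + S * (F - f + i))) S β F
  | 0, l, acc, _, _ => by simp [walkF]
  | f + 1, l, acc, hf, hl => by
    have e1 : F - 1 - f = F - (f + 1) := by omega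
    have e2 : rowF (P - (α + S * (F - 1 - f)) * (α + S * (F - 1 - f))) S β l
        = rowS (P - (α + S * (F - (f + 1))) * (α + S * (F - (f + 1)))) S β F := by
      rw [rowF_eq, e1, ← hl _ le_rfl]
    rw [walkF, e2, walkF_eq S α β P F f _ _ (by omega)]
    · rw [add_assoc]
      congr 1
      rw [sum_range_succ']
      rw [add_comm]
      congr 1
      apply sum_congr rfl
      intro i _
      have : F - f + i = F - (f + 1) + (i + 1) := by omega
      rw [this]
    · intro T hT
      apply rowS_stop
      refine le_trans hT ?_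
      apply Nat.sub_le_sub_left
      have : α + S * (F - (f + 1)) ≤ α + S * (F - f) :=
        Nat.add_le_add_left (Nat.mul_le_mul_left _ (by omega)) _
      exact Nat.mul_le_mul this this

theorem quad_eq (S P F α β : ℕ) : quad S P F α β =
    ∑ k ∈ range F, ∑ l ∈ range F,
      if (α + S * k) * (α + S * k) + (β + S * l) * (β + S * l) < P then 1 else 0 := by
  unfold quad
  rw [walkF_eq S α β P F F F 0 le_rfl (fun _ _ => rfl), zero_add]
  apply sum_congr rfl
  intro i _
  unfold rowS
  apply sum_congr rfl
  intro l _
  have : F - F + i = i := by omega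
  rw [this]
  by_cases h : (α + S * i) * (α + S * i) + (β + S * l) * (β + S * l) < P
  · rw [if_pos h, if_pos (by omega)]
  · rw [if_neg h, if_neg (by omega)]

/-- The scaled distance bound. -/
def g (S u u' : ℕ) : ℤ → ℕ
  | Int.ofNat k => u + S * k
  | Int.negSucc k => u' + S * k

/-- The box. -/
noncomputable def box (F : ℕ) : Finset (ℤ × ℤ) := Finset.Ico (-(F : ℤ)) F ×ˢ Finset.Ico (-(F : ℤ)) F

/-- The inner points of a cell. -/
noncomputable def inner (S P F u u' v v' : ℕ) : Finset (ℤ × ℤ) :=
  (box F).filter fun p => g S u u' p.1 * g S u u' p.1 + g S v v' p.2 * g S v v' p.2 < P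

theorem sum_Ico_int (F : ℕ) (h : ℤ → ℕ) :
    ∑ x ∈ Finset.Ico (-(F : ℤ)) F, h x = ∑ k ∈ range F, (h (Int.ofNat k) + h (Int.negSucc k)) := by
  induction F with
  | zero => simp
  | succ F ih =>
    have e : Finset.Ico (-((F + 1 : ℕ) : ℤ)) ((F + 1 : ℕ) : ℤ)
        = insert (Int.negSucc F) (insert (Int.ofNat F) (Finset.Ico (-(F : ℤ)) F)) := by
      ext x
      simp only [Finset.mem_Ico, Finset.mem_insert, Int.ofNat_eq_natCast, Int.negSucc_eq]
      push_cast
      omega
    rw [e, Finset.sum_insert, Finset.sum_insert, ih, Finset.sum_range_succ]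
    · ring
    · simp
    · simp only [Finset.mem_Ico, Finset.mem_insert, Int.ofNat_eq_natCast, Int.negSucc_eq]
      omega

theorem card_inner (S P F u u' v v' : ℕ) :
    (inner S P F u u' v v').card = cnt S P F u u' v v' := by
  unfold inner box
  rw [Finset.card_filter, Finset.sum_product, sum_Ico_int]
  simp only [sum_Ico_int, g]
  unfold cnt
  simp only [quad_eq]
  rw [← Finset.sum_add_distrib, ← Finset.sum_add_distrib, ← Finset.sum_add_distrib]
  apply Finset.sum_congr rfl
  intro k _
  rw [← Finset.sum_add_distrib, ← Finset.sum_add_distrib, ← Finset.sum_add_distrib,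
    ← Finset.sum_add_distrib]
  apply Finset.sum_congr rfl
  intro l _
  rw [← add_assoc]
  congr!

end Pool.Agent.Q14.MC
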