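import Mathlib

set_option autoImplicit false

/-! # Lattice points enclosed by circles: definitions

A circle is given by its centre `(x, y)` and its radius `r > 0`.  It encloses the lattice points of
its open disc. -/

namespace Pool.Agent.Q14.MC

/-- The lattice points enclosed by the circle with centre `(x, y)` and radius `r`: those of the
open disc. -/
def enclosed (x y r : ℝ) : Set (ℤ × ℤ) :=
  {p | ((p.1 : ℝ) - x) ^ 2 + ((p.2 : ℝ) - y) ^ 2 < r ^ 2}

/-- The lattice points on the circle with centre `(x, y)` and radius `r`. -/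
def onCircle (x y r : ℝ) : Set (ℤ × ℤ) :=
  {p | ((p.1 : ℝ) - x) ^ 2 + ((p.2 : ℝ) - y) ^ 2 = r ^ 2}

/-- The circle with centre `(x, y)` and radius `r` (positive) encloses exactly `n` lattice
points. -/
def Encloses (n : ℕ) (x y r : ℝ) : Prop :=
  0 < r ∧ (enclosed x y r).encard = (n : ℕ∞)

/-- The circle with centre `(x, y)` and radius `r` is an MC-circle of `n`: it encloses exactly `n`
lattice points, and no circle enclosing exactly `n` lattice points has a larger radius. -/
def IsMCCircle (n : ℕ) (x y r : ℝ) : Prop :=
  Encloses n x y r ∧ ∀ x' y' r' : ℝ, Encloses n x' y' r' → r' ≤ r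

/-- `n` is an MC number: some MC-circle of `n` exists. -/
def IsMC (n : ℕ) : Prop := ∃ x y r : ℝ, IsMCCircle n x y r

/-- `n` is a strong MC number: `n` is MC and `n + 1` is not. -/
def IsStrongMC (n : ℕ) : Prop := IsMC n ∧ ¬ IsMC (n + 1)

end Pool.Agent.Q14.MC
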