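import Mathlib
import Pool.Agent.Q14.MCDefs
import Pool.Agent.Q14.MCCount

set_option autoImplicit false

/-! # Lower bounds for the number of enclosed points, cell by cell -/

namespace Pool.Agent.Q14.MC

open Finset

/-- The enclosed points in scaled coordinates, the centre being `(-A/S, -B/S)` and the squared
radius `P/S²`. -/
def E (S P : ℕ) (A B : ℝ) : Set (ℤ × ℤ) :=
  {p | ((S : ℝ) * p.1 + A) ^ 2 + ((S : ℝ) * p.2 + B) ^ 2 < P}

theorem enclosed_eq {S P : ℕ} (hS : 0 < S) {R : ℝ} (hR : (S : ℝ) ^ 2 * R ^ 2 = P) (a b : ℝ) :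
    enclosed (-a) (-b) R = E S P (S * a) (S * b) := by
  have hS' : (0 : ℝ) < (S : ℝ) ^ 2 := by positivity
  ext p
  simp only [enclosed, E, Set.mem_setOf_eq]
  rw [← hR]
  have e : ((S : ℝ) * p.1 + S * a) ^ 2 + ((S : ℝ) * p.2 + S * b) ^ 2
      = (S : ℝ) ^ 2 * (((p.1 : ℝ) - (-a)) ^ 2 + ((p.2 : ℝ) - (-b)) ^ 2) := by ring
  rw [e]
  exact (mul_lt_mul_iff_right₀ hS').symm

theorem g_bound (S u0 u1 : ℕ) (h1 : u0 ≤ S) (A : ℝ) (hA0 : (u0 : ℝ) ≤ A)
    (hA1 : A ≤ u1) (hS : u1 ≤ S) (x : ℤ) :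
    ((S : ℝ) * x + A) ^ 2 ≤ (g S u1 (S - u0) x * g S u1 (S - u0) x : ℕ) := by
  push_cast
  rw [← sq]
  apply sq_le_sq'
  · cases x with
    | ofNat k =>
      simp only [g, Int.ofNat_eq_natCast, Int.cast_natCast]
      push_cast
      have : (0 : ℝ) ≤ (S : ℝ) * k := by positivity
      have h0 : (0 : ℝ) ≤ u0 := by positivity
      have h3 : (0 : ℝ) ≤ u1 := by positivity
      linarith
    | negSucc k =>
      simp only [g]
      rw [Int.cast_negSucc]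
      push_cast [Nat.cast_sub h1]
      have : (0 : ℝ) ≤ (S : ℝ) * k := by positivity
      linarith
  · cases x with
    | ofNat k =>
      simp only [g, Int.ofNat_eq_natCast, Int.cast_natCast]
      push_cast
      linarith
    | negSucc k =>
      simp only [g]
      rw [Int.cast_negSucc]
      push_cast [Nat.cast_sub h1]
      have : (0 : ℝ) ≤ (S : ℝ) * k := by positivity
      have h0 : (u0 : ℝ) ≤ S := by exact_mod_cast h1
      have h3 : (u1 : ℝ) ≤ S := by exact_mod_cast hS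
      nlinarith

theorem inner_sub (S P F u0 u1 v0 v1 : ℕ) (hu : u1 ≤ S) (hv : v1 ≤ S) (A B : ℝ)
    (hA0 : (u0 : ℝ) ≤ A) (hA1 : A ≤ u1) (hB0 : (v0 : ℝ) ≤ B) (hB1 : B ≤ v1) :
    (↑(inner S P F u1 (S - u0) v1 (S - v0)) : Set (ℤ × ℤ)) ⊆ E S P A B := by
  intro p hp
  simp only [inner, Finset.coe_filter, Set.mem_setOf_eq] at hp
  simp only [E, Set.mem_setOf_eq]
  have hu0 : u0 ≤ S := by
    have : (u0 : ℝ) ≤ u1 := le_trans hA0 hA1
    have : u0 ≤ u1 := by exact_mod_cast this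
    omega
  have hv0 : v0 ≤ S := by
    have : (v0 : ℝ) ≤ v1 := le_trans hB0 hB1
    have : v0 ≤ v1 := by exact_mod_cast this
    omega
  have h1 := g_bound S u0 u1 hu0 A hA0 hA1 hu p.1
  have h2 := g_bound S v0 v1 hv0 B hB0 hB1 hv p.2
  have h3 : ((g S u1 (S - u0) p.1 * g S u1 (S - u0) p.1 : ℕ) : ℝ)
      + (g S v1 (S - v0) p.2 * g S v1 (S - v0) p.2 : ℕ) < P := by
    exact_mod_cast hp.2
  linarith

theorem cnt_le_encard (S P F u0 u1 v0 v1 : ℕ) (hu : u1 ≤ S) (hv : v1 ≤ S) (A B : ℝ)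
    (hA0 : (u0 : ℝ) ≤ A) (hA1 : A ≤ u1) (hB0 : (v0 : ℝ) ≤ B) (hB1 : B ≤ v1) :
    (cnt S P F u1 (S - u0) v1 (S - v0) : ℕ∞) ≤ (E S P A B).encard := by
  rw [← card_inner, ← Set.encard_coe_eq_coe_finsetCard]
  exact Set.encard_le_encard (inner_sub S P F u0 u1 v0 v1 hu hv A B hA0 hA1 hB0 hB1)

/-- A subdivision tree. -/
inductive Tree : Type
  | leaf : Tree
  | sx : ℕ → Tree → Tree → Tree
  | sy : ℕ → Tree → Tree → Tree

/-- The test at a leaf. -/
def leafOK (S P F T X0 Y0 η u0 u1 v0 v1 : ℕ) : Bool :=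
  (Nat.ble u1 v0 && Nat.blt (2 * u1) S) ||
  ((Nat.ble X0 (u0 + η) && Nat.ble u1 (X0 + η) && Nat.ble Y0 (v0 + η) && Nat.ble v1 (Y0 + η)) ||
  (Nat.ble u1 S && Nat.ble v1 S && Nat.ble T (cnt S P F u1 (S - u0) v1 (S - v0))))

/-- The test of a tree. -/
def treeOK (S P F T X0 Y0 η : ℕ) : Tree → ℕ → ℕ → ℕ → ℕ → Bool
  | Tree.leaf, u0, u1, v0, v1 => leafOK S P F T X0 Y0 η u0 u1 v0 v1
  | Tree.sx m l r, u0, u1, v0, v1 =>
    treeOK S P F T X0 Y0 η l u0 m v0 v1 && treeOK S P F T X0 Y0 η r m u1 v0 v1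
  | Tree.sy m l r, u0, u1, v0, v1 =>
    treeOK S P F T X0 Y0 η l u0 u1 v0 m && treeOK S P F T X0 Y0 η r u0 u1 m v1

theorem treeOK_sound (S P F T X0 Y0 η : ℕ) (t : Tree) : ∀ u0 u1 v0 v1 : ℕ,
    treeOK S P F T X0 Y0 η t u0 u1 v0 v1 = true → ∀ A B : ℝ, (u0 : ℝ) ≤ A →
    (A < u1 ∨ (A ≤ u1 ∧ S ≤ 2 * u1)) → (v0 : ℝ) ≤ B → (B < v1 ∨ (B ≤ v1 ∧ S ≤ 2 * v1)) → B ≤ A →
    (((X0 : ℝ) ≤ A + η ∧ A ≤ X0 + η ∧ (Y0 : ℝ) ≤ B + η ∧ B ≤ Y0 + η) ∨
      (T : ℕ∞) ≤ (E S P A B).encard) := by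
  induction t with
  | leaf =>
    intro u0 u1 v0 v1 h A B hA0 hA1 hB0 hB1 hBA
    simp only [treeOK, leafOK, Bool.or_eq_true, Bool.and_eq_true, Nat.ble_eq, Nat.blt_eq] at h
    have hA1' : A ≤ u1 := by
      rcases hA1 with h | h
      · exact h.le
      · exact h.1
    have hB1' : B ≤ v1 := by
      rcases hB1 with h | h
      · exact h.le
      · exact h.1
    rcases h with h | h | h
    · exfalso
      rcases hA1 with h' | h'
      · have : (u1 : ℝ) ≤ v0 := by exact_mod_cast h.1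
        linarith
      · omega
    · left
      obtain ⟨⟨⟨h1, h2⟩, h3⟩, h4⟩ := h
      have h1' : (X0 : ℝ) ≤ u0 + η := by exact_mod_cast h1
      have h2' : (u1 : ℝ) ≤ X0 + η := by exact_mod_cast h2
      have h3' : (Y0 : ℝ) ≤ v0 + η := by exact_mod_cast h3
      have h4' : (v1 : ℝ) ≤ Y0 + η := by exact_mod_cast h4
      refine ⟨by linarith, by linarith, by linarith, by linarith⟩
    · right
      obtain ⟨⟨h1, h2⟩, h3⟩ := h
      refine le_trans ?_ (cnt_le_encard S P F u0 u1 v0 v1 h1 h2 A B hA0 hA1' hB0 hB1')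
      exact_mod_cast h3
  | sx m l r ihl ihr =>
    intro u0 u1 v0 v1 h A B hA0 hA1 hB0 hB1 hBA
    simp only [treeOK, Bool.and_eq_true] at h
    by_cases hm : A < m
    · exact ihl u0 m v0 v1 h.1 A B hA0 (Or.inl hm) hB0 hB1 hBA
    · exact ihr m u1 v0 v1 h.2 A B (not_lt.1 hm) hA1 hB0 hB1 hBA
  | sy m l r ihl ihr =>
    intro u0 u1 v0 v1 h A B hA0 hA1 hB0 hB1 hBA
    simp only [treeOK, Bool.and_eq_true] at h
    by_cases hm : B < m
    · exact ihl u0 u1 v0 m h.1 A B hA0 hA1 hB0 (Or.inl hm) hBA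
    · exact ihr u0 u1 m v1 h.2 A B hA0 hA1 (not_lt.1 hm) hB1 hBA

/-- The exact count at a centre with natural coordinates. -/
theorem E_eq_inner (S P F X0 Y0 : ℕ) (hX : X0 ≤ S) (hY : Y0 ≤ S) (hF : P ≤ (S * F) * (S * F)) :
    E S P X0 Y0 = ↑(inner S P F X0 (S - X0) Y0 (S - Y0)) := by
  apply Set.Subset.antisymm
  · intro p hp
    simp only [E, Set.mem_setOf_eq] at hp
    have hp' : ((S : ℤ) * p.1 + X0) ^ 2 + ((S : ℤ) * p.2 + Y0) ^ 2 < P := by exact_mod_cast hp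
    have key : ∀ (Z : ℕ) (hZ : Z ≤ S) (x : ℤ), ((S : ℤ) * x + Z) ^ 2 < P →
        x ∈ Finset.Ico (-(F : ℤ)) F := by
      intro Z hZ x hx
      have hF' : (P : ℤ) ≤ (S * F) ^ 2 := by
        have : (P : ℤ) ≤ ((S * F) * (S * F) : ℕ) := by exact_mod_cast hF
        push_cast at this
        linarith
      have h1 : ((S : ℤ) * x + Z) ^ 2 < (S * F) ^ 2 := lt_of_lt_of_le hx hF'
      have h2 := abs_lt_of_sq_lt_sq' h1 (by positivity)
      have hSpos : (0 : ℤ) < S := by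
        by_contra hcon
        have : (S : ℤ) = 0 := by omega
        rw [this] at h2
        simp at h2
        omega
      rw [Finset.mem_Ico]
      have hZ' : (Z : ℤ) ≤ S := by exact_mod_cast hZ
      have hZ0 : (0 : ℤ) ≤ Z := by positivity
      constructor
      · by_contra hcon
        have : x ≤ -(F : ℤ) - 1 := by omega
        nlinarith [h2.1]
      · by_contra hcon
        have : (F : ℤ) ≤ x := by omega
        nlinarith [h2.2]
    have gs : ∀ (Z : ℕ) (hZ : Z ≤ S) (x : ℤ),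
        ((g S Z (S - Z) x * g S Z (S - Z) x : ℕ) : ℤ) = ((S : ℤ) * x + Z) ^ 2 := by
      intro Z hZ x
      cases x with
      | ofNat k => simp only [g, Int.ofNat_eq_natCast]; push_cast; ring
      | negSucc k =>
        simp only [g, Int.negSucc_eq]
        push_cast [Nat.cast_sub hZ]
        ring
    simp only [inner, box, Finset.coe_filter, Set.mem_setOf_eq, Finset.mem_product]
    refine ⟨⟨key X0 hX p.1 ?_, key Y0 hY p.2 ?_⟩, ?_⟩
    · nlinarith [sq_nonneg ((S : ℤ) * p.2 + Y0)]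
    · nlinarith [sq_nonneg ((S : ℤ) * p.1 + X0)]
    · have h1 := gs X0 hX p.1
      have h2 := gs Y0 hY p.2
      have : ((g S X0 (S - X0) p.1 * g S X0 (S - X0) p.1 +
        g S Y0 (S - Y0) p.2 * g S Y0 (S - Y0) p.2 : ℕ) : ℤ) < P := by
        rw [Nat.cast_add, h1, h2]
        exact hp'
      exact_mod_cast this
  · exact inner_sub S P F X0 X0 Y0 Y0 hX hY X0 Y0 le_rfl le_rfl le_rfl le_rfl

theorem E_encard (S P F X0 Y0 : ℕ) (hX : X0 ≤ S) (hY : Y0 ≤ S) (hF : P ≤ (S * F) * (S * F)) :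
    (E S P X0 Y0).encard = (cnt S P F X0 (S - X0) Y0 (S - Y0) : ℕ∞) := by
  rw [E_eq_inner S P F X0 Y0 hX hY hF, Set.encard_coe_eq_coe_finsetCard, card_inner]

end Pool.Agent.Q14.MC
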