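import Mathlib
import Pool.Agent.Q14.MCCell

set_option autoImplicit false

/-! # The neighbourhood of the extremal centre -/

namespace Pool.Agent.Q14.MC

open Finset

/-- `p` is a boundary point. -/
def onB (S P X0 Y0 : ℕ) (p : ℤ × ℤ) : Prop :=
  ((S : ℤ) * p.1 + X0) ^ 2 + ((S : ℤ) * p.2 + Y0) ^ 2 = P

/-- The boundary point `p` is good in the direction `w`. -/
def goodDir (S X0 Y0 η : ℕ) (w p : ℤ × ℤ) : Bool :=
  decide ((η : ℤ) * ((w.1.natAbs : ℤ) + w.2.natAbs) +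
    2 * (((S : ℤ) * p.1 + X0) * w.1 + ((S : ℤ) * p.2 + Y0) * w.2) < 0)

/-- Test of consecutive directions. -/
def sectOK (S X0 Y0 η J : ℕ) (L : List (ℤ × ℤ)) : ℤ × ℤ → List (ℤ × ℤ) → Bool
  | _, [] => true
  | w, w' :: ws =>
    decide (0 < w.1 * w'.2 - w.2 * w'.1) &&
    (Nat.ble J (L.filter fun p => goodDir S X0 Y0 η w p && goodDir S X0 Y0 η w' p).length &&
    sectOK S X0 Y0 η J L w' ws)

theorem sector (w w' : ℤ × ℤ) (hc : 0 < w.1 * w'.2 - w.2 * w'.1) (δ1 δ2 : ℝ)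
    (h1 : 0 ≤ w.1 * δ2 - w.2 * δ1) (h2 : w'.1 * δ2 - w'.2 * δ1 ≤ 0) (hδ : δ1 ≠ 0 ∨ δ2 ≠ 0)
    (S X0 Y0 η : ℕ) (h3 : |δ1| ≤ η) (h4 : |δ2| ≤ η) (p : ℤ × ℤ)
    (g1 : goodDir S X0 Y0 η w p = true) (g2 : goodDir S X0 Y0 η w' p = true) :
    2 * ((((S : ℝ) * p.1 + X0)) * δ1 + ((S : ℝ) * p.2 + Y0) * δ2) + δ1 ^ 2 + δ2 ^ 2 < 0 := by
  simp only [goodDir, decide_eq_true_eq] at g1 g2
  have g1' : (η : ℝ) * (|(w.1 : ℝ)| + |(w.2 : ℝ)|) +
    2 * (((S : ℝ) * p.1 + X0) * w.1 + ((S : ℝ) * p.2 + Y0) * w.2) < 0 := by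
    have : (((η : ℤ) * ((w.1.natAbs : ℤ) + w.2.natAbs) +
      2 * (((S : ℤ) * p.1 + X0) * w.1 + ((S : ℤ) * p.2 + Y0) * w.2) : ℤ) : ℝ) < 0 := by
      exact_mod_cast g1
    push_cast [Int.natCast_natAbs] at this
    exact this
  have g2' : (η : ℝ) * (|(w'.1 : ℝ)| + |(w'.2 : ℝ)|) +
    2 * (((S : ℝ) * p.1 + X0) * w'.1 + ((S : ℝ) * p.2 + Y0) * w'.2) < 0 := by
    have : (((η : ℤ) * ((w'.1.natAbs : ℤ) + w'.2.natAbs) +
      2 * (((S : ℤ) * p.1 + X0) * w'.1 + ((S : ℤ) * p.2 + Y0) * w'.2) : ℤ) : ℝ) < 0 := by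
      exact_mod_cast g2
    push_cast [Int.natCast_natAbs] at this
    exact this
  have hc' : (0 : ℝ) < w.1 * w'.2 - w.2 * w'.1 := by exact_mod_cast hc
  set c : ℝ := w.1 * w'.2 - w.2 * w'.1 with hcdef
  set a : ℝ := w'.2 * δ1 - w'.1 * δ2 with hadef
  set b : ℝ := w.1 * δ2 - w.2 * δ1 with hbdef
  have ha : 0 ≤ a := by linarith
  have hd1 : c * δ1 = a * w.1 + b * w'.1 := by rw [hcdef, hadef, hbdef]; ring
  have hd2 : c * δ2 = a * w.2 + b * w'.2 := by rw [hcdef, hadef, hbdef]; ring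
  have hη : (0 : ℝ) ≤ η := by positivity
  have hab : 0 < a ∨ 0 < b := by
    by_contra hcon
    push Not at hcon
    have ha0 : a = 0 := le_antisymm hcon.1 ha
    have hb0 : b = 0 := le_antisymm hcon.2 h1
    rw [ha0, hb0] at hd1 hd2
    simp only [zero_mul, add_zero, mul_eq_zero] at hd1 hd2
    rcases hδ with h | h
    · rcases hd1 with h' | h'
      · linarith
      · exact h h'
    · rcases hd2 with h' | h'
      · linarith
      · exact h h'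
  set q1 : ℝ := (S : ℝ) * p.1 + X0
  set q2 : ℝ := (S : ℝ) * p.2 + Y0
  have k1 : c * |δ1| ≤ a * |(w.1 : ℝ)| + b * |(w'.1 : ℝ)| := by
    have : c * |δ1| = |a * w.1 + b * w'.1| := by rw [← hd1, abs_mul, abs_of_pos hc']
    rw [this]
    refine (abs_add_le _ _).trans ?_
    rw [abs_mul, abs_mul, abs_of_nonneg ha, abs_of_nonneg h1]
  have k2 : c * |δ2| ≤ a * |(w.2 : ℝ)| + b * |(w'.2 : ℝ)| := by
    have : c * |δ2| = |a * w.2 + b * w'.2| := by rw [← hd2, abs_mul, abs_of_pos hc']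
    rw [this]
    refine (abs_add_le _ _).trans ?_
    rw [abs_mul, abs_mul, abs_of_nonneg ha, abs_of_nonneg h1]
  have k3 : δ1 ^ 2 ≤ η * |δ1| := by
    rw [← sq_abs, sq]
    exact mul_le_mul_of_nonneg_right h3 (abs_nonneg _)
  have k4 : δ2 ^ 2 ≤ η * |δ2| := by
    rw [← sq_abs, sq]
    exact mul_le_mul_of_nonneg_right h4 (abs_nonneg _)
  have k5 : a * (2 * (q1 * w.1 + q2 * w.2)) + b * (2 * (q1 * w'.1 + q2 * w'.2))
      + η * (a * (|(w.1 : ℝ)| + |(w.2 : ℝ)|) + b * (|(w'.1 : ℝ)| + |(w'.2 : ℝ)|)) < 0 := by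
    have e : a * (2 * (q1 * w.1 + q2 * w.2)) + b * (2 * (q1 * w'.1 + q2 * w'.2))
      + η * (a * (|(w.1 : ℝ)| + |(w.2 : ℝ)|) + b * (|(w'.1 : ℝ)| + |(w'.2 : ℝ)|))
      = a * ((η : ℝ) * (|(w.1 : ℝ)| + |(w.2 : ℝ)|) + 2 * (q1 * w.1 + q2 * w.2))
        + b * ((η : ℝ) * (|(w'.1 : ℝ)| + |(w'.2 : ℝ)|) + 2 * (q1 * w'.1 + q2 * w'.2)) := by ring
    rw [e]
    rcases hab with h | h
    · have t1 := mul_neg_of_pos_of_neg h g1'
      have t2 := mul_nonpos_of_nonneg_of_nonpos h1 g2'.le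
      linarith
    · have t1 := mul_nonpos_of_nonneg_of_nonpos ha g1'.le
      have t2 := mul_neg_of_pos_of_neg h g2'
      linarith
  have k6 : a * (2 * (q1 * w.1 + q2 * w.2)) + b * (2 * (q1 * w'.1 + q2 * w'.2))
      = c * (2 * (q1 * δ1 + q2 * δ2)) := by
    have : c * (2 * (q1 * δ1 + q2 * δ2)) = 2 * (q1 * (c * δ1) + q2 * (c * δ2)) := by ring
    rw [this, hd1, hd2]
    ring
  have k7 : c * (2 * (q1 * δ1 + q2 * δ2) + δ1 ^ 2 + δ2 ^ 2) < 0 := by
    have m1 : c * δ1 ^ 2 ≤ η * (c * |δ1|) := by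
      calc c * δ1 ^ 2 ≤ c * (η * |δ1|) := mul_le_mul_of_nonneg_left k3 hc'.le
        _ = η * (c * |δ1|) := by ring
    have m2 : c * δ2 ^ 2 ≤ η * (c * |δ2|) := by
      calc c * δ2 ^ 2 ≤ c * (η * |δ2|) := mul_le_mul_of_nonneg_left k4 hc'.le
        _ = η * (c * |δ2|) := by ring
    have m3 := mul_le_mul_of_nonneg_left k1 hη
    have m4 := mul_le_mul_of_nonneg_left k2 hη
    nlinarith
  by_contra hcon
  have := mul_nonneg hc'.le (not_lt.1 hcon)
  linarith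

theorem sectOK_sound (S X0 Y0 η J : ℕ) (L : List (ℤ × ℤ)) (δ1 δ2 : ℝ)
    (hδ : δ1 ≠ 0 ∨ δ2 ≠ 0) (h3 : |δ1| ≤ η) (h4 : |δ2| ≤ η) :
    ∀ (ws : List (ℤ × ℤ)) (w : ℤ × ℤ), sectOK S X0 Y0 η J L w ws = true →
    0 ≤ w.1 * δ2 - w.2 * δ1 → (hne : ws ≠ []) →
    ((ws.getLast hne).1 : ℝ) * δ2 - (ws.getLast hne).2 * δ1 ≤ 0 →
    ∃ L' : List (ℤ × ℤ), L'.Sublist L ∧ J ≤ L'.length ∧ ∀ p ∈ L',
      2 * ((((S : ℝ) * p.1 + X0)) * δ1 + ((S : ℝ) * p.2 + Y0) * δ2) + δ1 ^ 2 + δ2 ^ 2 < 0 := by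
  intro ws
  induction ws with
  | nil => intro w _ _ hne; exact absurd rfl hne
  | cons w' ws ih =>
    intro w h h1 hne hlast
    simp only [sectOK, Bool.and_eq_true, decide_eq_true_eq, Nat.ble_eq] at h
    by_cases hc : (w'.1 : ℝ) * δ2 - w'.2 * δ1 ≤ 0
    · refine ⟨_, List.filter_sublist, h.2.1, ?_⟩
      intro p hp
      rw [List.mem_filter, Bool.and_eq_true] at hp
      exact sector w w' h.1 δ1 δ2 h1 hc hδ S X0 Y0 η h3 h4 p hp.2.1 hp.2.2
    · have hws : ws ≠ [] := by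
        rintro rfl
        simp only [List.getLast_singleton] at hlast
        exact hc hlast
      apply ih w' h.2.2 (not_le.1 hc).le hws
      rwa [List.getLast_cons hws] at hlast

/-- The complete local test. -/
def localOK (S P F X0 Y0 η m J : ℕ) (L up down : List (ℤ × ℤ)) : Bool :=
  Nat.ble (X0 + η) S && Nat.ble (Y0 + η) S &&
  Nat.ble m (cnt S P F (X0 + η) (S - (X0 - η)) (Y0 + η) (S - (Y0 - η))) &&
  decide L.Nodup &&
  L.all (fun p => decide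
    (((S : ℤ) * p.1 + X0) * ((S : ℤ) * p.1 + X0) + ((S : ℤ) * p.2 + Y0) * ((S : ℤ) * p.2 + Y0)
      = P)) &&
  sectOK S X0 Y0 η J L (1, 0) up && decide (up.getLast? = some (-1, 0)) &&
  sectOK S X0 Y0 η J L (-1, 0) down && decide (down.getLast? = some (1, 0))

theorem local_bound (S P F X0 Y0 η m J : ℕ) (L up down : List (ℤ × ℤ))
    (hok : localOK S P F X0 Y0 η m J L up down = true) (A B : ℝ) (hA : 0 ≤ A) (hB : 0 ≤ B)
    (h1 : (X0 : ℝ) ≤ A + η) (h2 : A ≤ X0 + η) (h3 : (Y0 : ℝ) ≤ B + η) (h4 : B ≤ Y0 + η)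
    (hne : ¬ (A = X0 ∧ B = Y0)) : ((m + J : ℕ) : ℕ∞) ≤ (E S P A B).encard := by
  simp only [localOK, Bool.and_eq_true, decide_eq_true_eq, Nat.ble_eq, List.all_eq_true] at hok
  obtain ⟨⟨⟨⟨⟨⟨⟨⟨o1, o2⟩, o3⟩, o4⟩, o5⟩, o6⟩, o7⟩, o8⟩, o9⟩ := hok
  set δ1 : ℝ := A - X0 with hδ1
  set δ2 : ℝ := B - Y0 with hδ2
  have hδ : δ1 ≠ 0 ∨ δ2 ≠ 0 := by
    by_contra hcon
    push Not at hcon
    exact hne ⟨by linarith [hcon.1], by linarith [hcon.2]⟩
  have ha1 : |δ1| ≤ η := abs_le.2 ⟨by linarith, by linarith⟩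
  have ha2 : |δ2| ≤ η := abs_le.2 ⟨by linarith, by linarith⟩
  obtain ⟨L', hsub, hlen, hL'⟩ : ∃ L' : List (ℤ × ℤ), L'.Sublist L ∧ J ≤ L'.length ∧ ∀ p ∈ L',
      2 * ((((S : ℝ) * p.1 + X0)) * δ1 + ((S : ℝ) * p.2 + Y0) * δ2) + δ1 ^ 2 + δ2 ^ 2 < 0 := by
    rcases le_total 0 δ2 with h | h
    · have hne' : up ≠ [] := by rintro rfl; simp at o7
      apply sectOK_sound S X0 Y0 η J L δ1 δ2 hδ ha1 ha2 up (1, 0) o6 _ hne'
      · have e : up.getLast hne' = (-1, 0) := by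
          rw [List.getLast?_eq_getLast_of_ne_nil hne'] at o7
          exact Option.some.inj o7
        rw [e]
        push_cast
        linarith
      · push_cast
        linarith
    · have hne' : down ≠ [] := by rintro rfl; simp at o9
      apply sectOK_sound S X0 Y0 η J L δ1 δ2 hδ ha1 ha2 down (-1, 0) o8 _ hne'
      · have e : down.getLast hne' = (1, 0) := by
          rw [List.getLast?_eq_getLast_of_ne_nil hne'] at o9
          exact Option.some.inj o9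
        rw [e]
        push_cast
        linarith
      · push_cast
        linarith
  -- lower bounds of the cell
  have hu0 : ((X0 - η : ℕ) : ℝ) ≤ A := by
    rcases le_total η X0 with h | h
    · push_cast [Nat.cast_sub h]; linarith
    · rw [Nat.sub_eq_zero_of_le h]; simpa using hA
  have hv0 : ((Y0 - η : ℕ) : ℝ) ≤ B := by
    rcases le_total η Y0 with h | h
    · push_cast [Nat.cast_sub h]; linarith
    · rw [Nat.sub_eq_zero_of_le h]; simpa using hB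
  have hin := inner_sub S P F (X0 - η) (X0 + η) (Y0 - η) (Y0 + η) o1 o2 A B hu0
    (by push_cast; exact h2) hv0 (by push_cast; exact h4)
  have hin0 := inner_sub S P F (X0 - η) (X0 + η) (Y0 - η) (Y0 + η) o1 o2 X0 Y0
    (by exact_mod_cast Nat.sub_le X0 η) (by push_cast; linarith [Nat.cast_nonneg (α := ℝ) η])
    (by exact_mod_cast Nat.sub_le Y0 η) (by push_cast; linarith [Nat.cast_nonneg (α := ℝ) η])
  set I := inner S P F (X0 + η) (S - (X0 - η)) (Y0 + η) (S - (Y0 - η)) with hI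
  have hBd : ∀ p ∈ L', ((S : ℝ) * p.1 + X0) ^ 2 + ((S : ℝ) * p.2 + Y0) ^ 2 = P := by
    intro p hp
    have := o5 p (hsub.subset hp)
    have h' : ((((S : ℤ) * p.1 + X0) * ((S : ℤ) * p.1 + X0) +
      ((S : ℤ) * p.2 + Y0) * ((S : ℤ) * p.2 + Y0) : ℤ) : ℝ) = ((P : ℤ) : ℝ) := by
      rw [this]
    push_cast at h'
    linarith
  have hdisj : Disjoint I L'.toFinset := by
    rw [Finset.disjoint_left]
    intro p hp hpL
    rw [List.mem_toFinset] at hpL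
    have h5 := hin0 (Finset.mem_coe.2 hp)
    simp only [E, Set.mem_setOf_eq] at h5
    have h6 := hBd p hpL
    linarith
  have hsubset : (↑(I ∪ L'.toFinset) : Set (ℤ × ℤ)) ⊆ E S P A B := by
    intro p hp
    rw [Finset.mem_coe, Finset.mem_union] at hp
    rcases hp with hp | hp
    · exact hin (Finset.mem_coe.2 hp)
    · rw [List.mem_toFinset] at hp
      have h5 := hL' p hp
      have h6 := hBd p hp
      simp only [E, Set.mem_setOf_eq]
      have eA : A = X0 + δ1 := by rw [hδ1]; ring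
      have eB : B = Y0 + δ2 := by rw [hδ2]; ring
      rw [eA, eB]
      nlinarith
  calc ((m + J : ℕ) : ℕ∞) ≤ ((I ∪ L'.toFinset).card : ℕ∞) := by
        have hcard : (I ∪ L'.toFinset).card = I.card + L'.toFinset.card :=
          Finset.card_union_of_disjoint hdisj
        have h7 : L'.toFinset.card = L'.length := List.toFinset_card_of_nodup (o4.sublist hsub)
        have h8 : m ≤ I.card := by rw [hI, card_inner]; exact o3
        rw [hcard, h7]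
        exact_mod_cast Nat.add_le_add h8 hlen
    _ = (↑(I ∪ L'.toFinset) : Set (ℤ × ℤ)).encard := (Set.encard_coe_eq_coe_finsetCard _).symm
    _ ≤ (E S P A B).encard := Set.encard_le_encard hsubset

end Pool.Agent.Q14.MC
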