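import Mathlib
import Pool.Agent.Q14.MCLocal

set_option autoImplicit false

/-! # The certificate theorem -/

namespace Pool.Agent.Q14.MC

open Finset

/-! ## Symmetries -/

theorem enclosed_shift (x y r : ℝ) (i j : ℤ) :
    (enclosed (x + i) (y + j) r).encard = (enclosed x y r).encard := by
  have e : enclosed (x + i) (y + j) r = (fun p : ℤ × ℤ => (p.1 + i, p.2 + j)) '' enclosed x y r := by
    ext p
    simp only [enclosed, Set.mem_setOf_eq, Set.mem_image]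
    constructor
    · intro h
      refine ⟨(p.1 - i, p.2 - j), ?_, by simp⟩
      push_cast
      have : ((p.1 : ℝ) - i - x) ^ 2 + ((p.2 : ℝ) - j - y) ^ 2
        = ((p.1 : ℝ) - (x + i)) ^ 2 + ((p.2 : ℝ) - (y + j)) ^ 2 := by ring
      rw [this]
      exact h
    · rintro ⟨q, hq, rfl⟩
      push_cast
      have : ((q.1 : ℝ) + i - (x + i)) ^ 2 + ((q.2 : ℝ) + j - (y + j)) ^ 2
        = ((q.1 : ℝ) - x) ^ 2 + ((q.2 : ℝ) - y) ^ 2 := by ring
      rw [this]
      exact hq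
  rw [e]
  apply Function.Injective.encard_image
  rintro ⟨a, b⟩ ⟨c, d⟩ h
  simp only [Prod.mk.injEq] at h ⊢
  omega

theorem enclosed_neg_left (x y r : ℝ) :
    (enclosed (-x) y r).encard = (enclosed x y r).encard := by
  have e : enclosed (-x) y r = (fun p : ℤ × ℤ => (-p.1, p.2)) '' enclosed x y r := by
    ext p
    simp only [enclosed, Set.mem_setOf_eq, Set.mem_image]
    constructor
    · intro h
      refine ⟨(-p.1, p.2), ?_, by simp⟩
      push_cast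
      have : (-(p.1 : ℝ) - x) ^ 2 = ((p.1 : ℝ) - -x) ^ 2 := by ring
      rw [this]
      exact h
    · rintro ⟨q, hq, rfl⟩
      push_cast
      have : (-(q.1 : ℝ) - -x) ^ 2 = ((q.1 : ℝ) - x) ^ 2 := by ring
      rw [this]
      exact hq
  rw [e]
  apply Function.Injective.encard_image
  rintro ⟨a, b⟩ ⟨c, d⟩ h
  simp only [Prod.mk.injEq] at h ⊢
  omega

theorem enclosed_swap (x y r : ℝ) :
    (enclosed y x r).encard = (enclosed x y r).encard := by
  have e : enclosed y x r = (fun p : ℤ × ℤ => (p.2, p.1)) '' enclosed x y r := by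
    ext p
    simp only [enclosed, Set.mem_setOf_eq, Set.mem_image]
    constructor
    · intro h
      refine ⟨(p.2, p.1), ?_, by simp⟩
      rw [add_comm]
      exact h
    · rintro ⟨q, hq, rfl⟩
      rw [add_comm]
      exact hq
  rw [e]
  apply Function.Injective.encard_image
  rintro ⟨a, b⟩ ⟨c, d⟩ h
  simp only [Prod.mk.injEq] at h ⊢
  omega

theorem enclosed_neg_right (x y r : ℝ) :
    (enclosed x (-y) r).encard = (enclosed x y r).encard := by
  rw [enclosed_swap (-y) x, enclosed_neg_left, enclosed_swap]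

theorem enclosed_neg_abs (x y r : ℝ) :
    (enclosed (-|x|) (-|y|) r).encard = (enclosed x y r).encard := by
  rw [enclosed_neg_left, enclosed_neg_right]
  rcases abs_choice x with h | h <;> rcases abs_choice y with h' | h' <;> rw [h, h']
  · rw [enclosed_neg_right]
  · rw [enclosed_neg_left]
  · rw [enclosed_neg_left, enclosed_neg_right]

/-- Every centre is equivalent to one in the fundamental triangle. -/
theorem exists_fund (x y : ℝ) : ∃ a b : ℝ, 0 ≤ b ∧ b ≤ a ∧ a ≤ 1 / 2 ∧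
    ∀ r : ℝ, (enclosed x y r).encard = (enclosed (-a) (-b) r).encard := by
  have hx : |x - round x| ≤ 1 / 2 := abs_sub_round x
  have hy : |y - round y| ≤ 1 / 2 := abs_sub_round y
  have key : ∀ r : ℝ, (enclosed x y r).encard
      = (enclosed (-|x - round x|) (-|y - round y|) r).encard := by
    intro r
    have hs := enclosed_shift (x - round x) (y - round y) r (round x) (round y)
    rw [sub_add_cancel, sub_add_cancel] at hs
    rw [enclosed_neg_abs, hs]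
  rcases le_total |y - round y| |x - round x| with h | h
  · exact ⟨_, _, abs_nonneg _, h, hx, key⟩
  · refine ⟨_, _, abs_nonneg _, h, hy, ?_⟩
    intro r
    rw [key, enclosed_swap]

/-! ## The certificate -/

/-- A certificate. -/
structure Cert where
  S : ℕ
  P : ℕ
  F : ℕ
  X0 : ℕ
  Y0 : ℕ
  η : ℕ
  m : ℕ
  b : ℕ
  J : ℕ
  L : List (ℤ × ℤ)
  up : List (ℤ × ℤ)
  down : List (ℤ × ℤ)
  H : ℕ

/-- The number of base squares is `n`; the test of all base squares. -/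
def baseOK (c : Cert) (t : Tree) : Bool :=
  treeOK c.S c.P c.F (c.m + c.J) c.X0 c.Y0 c.η t 0 c.H 0 c.H

/-- The test of the remaining conditions. -/
def restOK (c : Cert) : Bool :=
  Nat.blt 0 c.S && Nat.blt 0 c.P && Nat.beq (2 * c.H) c.S &&
  Nat.ble c.X0 c.H && Nat.ble c.Y0 c.H &&
  Nat.ble (c.P + 1) ((c.S * c.F) * (c.S * c.F)) &&
  Nat.ble c.J c.b &&
  Nat.beq (cnt c.S c.P c.F c.X0 (c.S - c.X0) c.Y0 (c.S - c.Y0)) c.m &&
  Nat.beq (cnt c.S (c.P + 1) c.F c.X0 (c.S - c.X0) c.Y0 (c.S - c.Y0)) (c.m + c.b)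

variable {c : Cert}

theorem key_triangle (hr : restOK c = true) (t : Tree) (ht : baseOK c t = true)
    (hl : localOK c.S c.P c.F c.X0 c.Y0 c.η c.m c.J c.L c.up c.down = true)
    (A B : ℝ) (hB : 0 ≤ B) (hBA : B ≤ A) (hA : A ≤ c.H) :
    (A = c.X0 ∧ B = c.Y0) ∨ ((c.m + c.J : ℕ) : ℕ∞) ≤ (E c.S c.P A B).encard := by
  by_cases hne : A = c.X0 ∧ B = c.Y0
  · exact Or.inl hne
  right
  simp only [restOK, Bool.and_eq_true, Nat.ble_eq, Nat.blt_eq, Nat.beq_eq] at hr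
  have h2H : 2 * c.H = c.S := hr.1.1.1.1.1.1.2
  have h := treeOK_sound c.S c.P c.F (c.m + c.J) c.X0 c.Y0 c.η t 0 c.H 0 c.H ht A B
    (by push_cast; linarith) (Or.inr ⟨hA, by omega⟩) (by push_cast; exact hB)
    (Or.inr ⟨by linarith, by omega⟩) hBA
  rcases h with h | h
  · exact local_bound c.S c.P c.F c.X0 c.Y0 c.η c.m c.J c.L c.up c.down hl A B (by linarith) hB
      h.1 h.2.1 h.2.2.1 h.2.2.2 hne
  · exact h

/-- The certified facts. -/
structure Good (c : Cert) : Prop where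
  rest : restOK c = true
  tree : ∃ t, baseOK c t = true
  loc : localOK c.S c.P c.F c.X0 c.Y0 c.η c.m c.J c.L c.up c.down = true

/-- The centre. -/
noncomputable def Cert.x (c : Cert) : ℝ := -((c.X0 : ℝ) / c.S)
/-- The centre. -/
noncomputable def Cert.y (c : Cert) : ℝ := -((c.Y0 : ℝ) / c.S)
/-- The radius. -/
noncomputable def Cert.R (c : Cert) : ℝ := Real.sqrt (c.P : ℝ) / c.S

theorem Good.facts (h : Good c) : 0 < c.S ∧ 0 < c.P ∧ 2 * c.H = c.S ∧ c.X0 ≤ c.H ∧ c.Y0 ≤ c.H ∧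
    c.P + 1 ≤ (c.S * c.F) * (c.S * c.F) ∧ c.J ≤ c.b ∧
    cnt c.S c.P c.F c.X0 (c.S - c.X0) c.Y0 (c.S - c.Y0) = c.m ∧
    cnt c.S (c.P + 1) c.F c.X0 (c.S - c.X0) c.Y0 (c.S - c.Y0) = c.m + c.b := by
  have hr := h.rest
  simp only [restOK, Bool.and_eq_true, Nat.ble_eq, Nat.blt_eq, Nat.beq_eq] at hr
  obtain ⟨⟨⟨⟨⟨⟨⟨⟨h1, h2⟩, h3⟩, h4⟩, h5⟩, h6⟩, h7⟩, h8⟩, h9⟩ := hr
  exact ⟨h1, h2, h3, h4, h5, h6, h7, h8, h9⟩

theorem Good.R_pos (h : Good c) : 0 < c.R := by
  obtain ⟨h1, h2, -⟩ := h.facts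
  unfold Cert.R
  have : (0 : ℝ) < c.P := by exact_mod_cast h2
  have : (0 : ℝ) < c.S := by exact_mod_cast h1
  positivity

theorem Good.R_sq (h : Good c) : (c.S : ℝ) ^ 2 * c.R ^ 2 = c.P := by
  obtain ⟨h1, h2, -⟩ := h.facts
  unfold Cert.R
  have : (0 : ℝ) < c.S := by exact_mod_cast h1
  rw [div_pow, Real.sq_sqrt (by positivity)]
  field_simp

theorem enclosed_mono (x y : ℝ) {r r' : ℝ} (hr : 0 ≤ r) (h : r ≤ r') :
    enclosed x y r ⊆ enclosed x y r' := by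
  intro p hp
  simp only [enclosed, Set.mem_setOf_eq] at hp ⊢
  exact lt_of_lt_of_le hp (pow_le_pow_left₀ hr h 2)

/-- The count at the centre. -/
theorem Good.count_centre (h : Good c) : (enclosed c.x c.y c.R).encard = (c.m : ℕ∞) := by
  obtain ⟨h1, h2, h3, h4, h5, h6, h7, h8, h9⟩ := h.facts
  have hS : (c.S : ℝ) ≠ 0 := by
    have : (0 : ℝ) < c.S := by exact_mod_cast h1
    exact this.ne'
  unfold Cert.x Cert.y
  rw [enclosed_eq h1 h.R_sq, mul_div_cancel₀ _ hS, mul_div_cancel₀ _ hS,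
    E_encard c.S c.P c.F c.X0 c.Y0 (by omega) (by omega) (by omega), h8]

theorem mem_E_succ (S P X0 Y0 : ℕ) (p : ℤ × ℤ) : p ∈ E S (P + 1) X0 Y0 ↔
    ((S : ℤ) * p.1 + X0) ^ 2 + ((S : ℤ) * p.2 + Y0) ^ 2 ≤ P := by
  simp only [E, Set.mem_setOf_eq]
  have : (((S : ℝ) * p.1 + X0) ^ 2 + ((S : ℝ) * p.2 + Y0) ^ 2 < ((P + 1 : ℕ) : ℝ)) ↔
      ((S : ℤ) * p.1 + X0) ^ 2 + ((S : ℤ) * p.2 + Y0) ^ 2 < ((P + 1 : ℕ) : ℤ) := by
    exact_mod_cast Iff.rfl
  rw [this]
  push_cast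
  exact Int.lt_add_one_iff

theorem mem_E_int (S P X0 Y0 : ℕ) (p : ℤ × ℤ) : p ∈ E S P X0 Y0 ↔
    ((S : ℤ) * p.1 + X0) ^ 2 + ((S : ℤ) * p.2 + Y0) ^ 2 < P := by
  simp only [E, Set.mem_setOf_eq]
  exact_mod_cast Iff.rfl

/-- The count at the centre with a larger radius. -/
theorem Good.count_centre_larger (h : Good c) {r : ℝ} (hr : c.R < r) :
    ((c.m + c.b : ℕ) : ℕ∞) ≤ (enclosed c.x c.y r).encard := by
  obtain ⟨h1, h2, h3, h4, h5, h6, h7, h8, h9⟩ := h.facts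
  have hSpos : (0 : ℝ) < c.S := by exact_mod_cast h1
  rw [← h9, ← E_encard c.S (c.P + 1) c.F c.X0 c.Y0 (by omega) (by omega) (by omega)]
  apply Set.encard_le_encard
  intro p hp
  rw [mem_E_succ] at hp
  have hp' : ((c.S : ℝ) * p.1 + c.X0) ^ 2 + ((c.S : ℝ) * p.2 + c.Y0) ^ 2 ≤ c.P := by
    exact_mod_cast hp
  simp only [enclosed, Cert.x, Cert.y, Set.mem_setOf_eq]
  have e : ((c.S : ℝ) * p.1 + c.X0) ^ 2 + ((c.S : ℝ) * p.2 + c.Y0) ^ 2 = (c.S : ℝ) ^ 2 *
      (((p.1 : ℝ) - -((c.X0 : ℝ) / c.S)) ^ 2 + ((p.2 : ℝ) - -((c.Y0 : ℝ) / c.S)) ^ 2) := by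
    field_simp
    ring
  rw [e, ← h.R_sq] at hp'
  have h3 : (((p.1 : ℝ) - -((c.X0 : ℝ) / c.S)) ^ 2 + ((p.2 : ℝ) - -((c.Y0 : ℝ) / c.S)) ^ 2)
      ≤ c.R ^ 2 := le_of_mul_le_mul_left hp' (by positivity)
  have h4 : c.R ^ 2 < r ^ 2 := pow_lt_pow_left₀ hr h.R_pos.le (by norm_num)
  exact lt_of_le_of_lt h3 h4

/-- The key property: a circle of radius at least `R` encloses at least `m + J` lattice points,
or it encloses exactly `m` and has radius `R`. -/
theorem Good.key (h : Good c) (x y r : ℝ) (hr : c.R ≤ r) :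
    ((enclosed x y r).encard = (c.m : ℕ∞) ∧ r = c.R) ∨
      ((c.m + c.J : ℕ) : ℕ∞) ≤ (enclosed x y r).encard := by
  obtain ⟨h1, h2, h3, h4, h5, h6, h7, h8, h9⟩ := h.facts
  obtain ⟨t, ht⟩ := h.tree
  have hSpos : (0 : ℝ) < c.S := by exact_mod_cast h1
  obtain ⟨a, b, hb, hba, ha, hab⟩ := exists_fund x y
  have hH : (c.H : ℝ) = c.S * (1 / 2) := by
    have : ((2 * c.H : ℕ) : ℝ) = c.S := by exact_mod_cast h3
    push_cast at this
    linarith
  rcases key_triangle h.rest t ht h.loc (c.S * a) (c.S * b) (by positivity)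
    (mul_le_mul_of_nonneg_left hba hSpos.le)
    (by rw [hH]; exact mul_le_mul_of_nonneg_left ha hSpos.le) with hk | hk
  · have ea : -a = c.x := by
      unfold Cert.x
      rw [← hk.1]
      field_simp
    have eb : -b = c.y := by
      unfold Cert.y
      rw [← hk.2]
      field_simp
    rw [hab, ea, eb]
    rcases hr.eq_or_lt with h' | h'
    · left
      rw [← h']
      exact ⟨h.count_centre, rfl⟩
    · right
      refine le_trans ?_ (h.count_centre_larger h')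
      exact_mod_cast Nat.add_le_add_left h7 _
  · right
    rw [hab]
    refine le_trans hk ?_
    rw [← enclosed_eq h1 h.R_sq]
    exact Set.encard_le_encard (enclosed_mono _ _ h.R_pos.le hr)

/-- The centre circle is an MC-circle of `m`. -/
theorem Good.isMCCircle (h : Good c) (hJ : 0 < c.J) : IsMCCircle c.m c.x c.y c.R := by
  refine ⟨⟨h.R_pos, h.count_centre⟩, ?_⟩
  intro x' y' r' hn
  by_contra hcon
  rcases h.key x' y' r' (not_le.1 hcon).le with hk | hk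
  · exact hcon hk.2.le
  · rw [hn.2] at hk
    have : c.m + c.J ≤ c.m := by exact_mod_cast hk
    omega

/-- Test of a direction: exactly `j` boundary points `q` have `q · w > θ`. -/
def dirOK (c : Cert) (w : ℤ × ℤ) (θ : ℤ) (j : ℕ) : Bool :=
  Nat.beq c.L.length c.b && decide (0 < θ) &&
  Nat.beq (c.L.filter fun p => decide
    (θ < ((c.S : ℤ) * p.1 + c.X0) * w.1 + ((c.S : ℤ) * p.2 + c.Y0) * w.2)).length j

/-- The boundary points of the circle are exactly the points of the list. -/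
theorem Good.boundary (h : Good c) (hb : c.L.length = c.b) (p : ℤ × ℤ) :
    ((c.S : ℤ) * p.1 + c.X0) ^ 2 + ((c.S : ℤ) * p.2 + c.Y0) ^ 2 = c.P ↔ p ∈ c.L := by
  obtain ⟨h1, h2, h3, h4, h5, h6, h7, h8, h9⟩ := h.facts
  have hloc := h.loc
  simp only [localOK, Bool.and_eq_true, decide_eq_true_eq, Nat.ble_eq, List.all_eq_true] at hloc
  obtain ⟨⟨⟨⟨⟨⟨⟨⟨-, -⟩, -⟩, o4⟩, o5⟩, -⟩, -⟩, -⟩, -⟩ := hloc
  have hL : ∀ p ∈ c.L, ((c.S : ℤ) * p.1 + c.X0) ^ 2 + ((c.S : ℤ) * p.2 + c.Y0) ^ 2 = c.P := by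
    intro p hp
    have := o5 p hp
    rw [sq, sq]
    exact this
  constructor
  · intro hp
    -- the finsets
    have e1 := E_eq_inner c.S c.P c.F c.X0 c.Y0 (by omega) (by omega) (by omega)
    have e2 := E_eq_inner c.S (c.P + 1) c.F c.X0 c.Y0 (by omega) (by omega) (by omega)
    have c1 := card_inner c.S c.P c.F c.X0 (c.S - c.X0) c.Y0 (c.S - c.Y0)
    have c2 := card_inner c.S (c.P + 1) c.F c.X0 (c.S - c.X0) c.Y0 (c.S - c.Y0)
    set I := inner c.S c.P c.F c.X0 (c.S - c.X0) c.Y0 (c.S - c.Y0)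
    set I' := inner c.S (c.P + 1) c.F c.X0 (c.S - c.X0) c.Y0 (c.S - c.Y0)
    rw [h8] at c1
    rw [h9] at c2
    have hsub : I ∪ c.L.toFinset ⊆ I' := by
      intro q hq
      rw [← Finset.mem_coe, ← e2, mem_E_succ]
      rw [Finset.mem_union] at hq
      rcases hq with hq | hq
      · rw [← Finset.mem_coe, ← e1, mem_E_int] at hq
        exact hq.le
      · rw [List.mem_toFinset] at hq
        exact (hL q hq).le
    have hdisj : Disjoint I c.L.toFinset := by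
      rw [Finset.disjoint_left]
      intro q hq hq'
      rw [← Finset.mem_coe, ← e1, mem_E_int] at hq
      rw [List.mem_toFinset] at hq'
      have := hL q hq'
      omega
    have heq : I ∪ c.L.toFinset = I' := by
      apply Finset.eq_of_subset_of_card_le hsub
      rw [Finset.card_union_of_disjoint hdisj, c1, c2, List.toFinset_card_of_nodup o4, hb]
    have hpI' : p ∈ I' := by
      rw [← Finset.mem_coe, ← e2, mem_E_succ]
      exact hp.le
    rw [← heq, Finset.mem_union] at hpI'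
    rcases hpI' with hq | hq
    · rw [← Finset.mem_coe, ← e1, mem_E_int] at hq
      omega
    · exact List.mem_toFinset.1 hq
  · exact hL p

/-- The lattice points on the certified circle. -/
theorem Good.onCircle_eq (h : Good c) (hb : c.L.length = c.b) :
    onCircle c.x c.y c.R = {p | p ∈ c.L} := by
  obtain ⟨h1, -⟩ := h.facts
  have hSpos : (0 : ℝ) < c.S := by exact_mod_cast h1
  ext p
  simp only [onCircle, Set.mem_setOf_eq, Cert.x, Cert.y]
  rw [← h.boundary hb p]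
  have e : ((c.S : ℝ) * p.1 + c.X0) ^ 2 + ((c.S : ℝ) * p.2 + c.Y0) ^ 2 = (c.S : ℝ) ^ 2 *
      (((p.1 : ℝ) - -((c.X0 : ℝ) / c.S)) ^ 2 + ((p.2 : ℝ) - -((c.Y0 : ℝ) / c.S)) ^ 2) := by
    field_simp
    ring
  have e2 : (((c.S : ℤ) * p.1 + c.X0) ^ 2 + ((c.S : ℤ) * p.2 + c.Y0) ^ 2 = c.P) ↔
      ((c.S : ℝ) * p.1 + c.X0) ^ 2 + ((c.S : ℝ) * p.2 + c.Y0) ^ 2 = c.P := by
    exact_mod_cast Iff.rfl
  rw [e2, e, ← h.R_sq]
  constructor
  · intro hh; rw [hh]
  · intro hh; exact mul_left_cancel₀ (by positivity) hh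

/-- The number of lattice points on the certified circle. -/
theorem Good.onCircle_encard (h : Good c) (hb : c.L.length = c.b) :
    (onCircle c.x c.y c.R).encard = (c.b : ℕ∞) := by
  have hloc := h.loc
  simp only [localOK, Bool.and_eq_true, decide_eq_true_eq, Nat.ble_eq, List.all_eq_true] at hloc
  obtain ⟨⟨⟨⟨⟨⟨⟨⟨-, -⟩, -⟩, o4⟩, -⟩, -⟩, -⟩, -⟩, -⟩ := hloc
  rw [h.onCircle_eq hb]
  have : {p | p ∈ c.L} = (↑c.L.toFinset : Set (ℤ × ℤ)) := by
    ext p; simp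
  rw [this, Set.encard_coe_eq_coe_finsetCard, List.toFinset_card_of_nodup o4, hb]

/-- Circles enclosing exactly `m + j` lattice points, with radius close to `R` from below. -/
theorem Good.approx (h : Good c) (w : ℤ × ℤ) (θ : ℤ) (j : ℕ) (hd : dirOK c w θ j = true)
    (r : ℝ) (hr : r < c.R) : ∃ x y r' : ℝ, r < r' ∧ Encloses (c.m + j) x y r' := by
  obtain ⟨h1, h2, h3, h4, h5, h6, h7, h8, h9⟩ := h.facts
  simp only [dirOK, Bool.and_eq_true, decide_eq_true_eq, Nat.beq_eq] at hd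
  obtain ⟨⟨d1, d2⟩, d3⟩ := hd
  have hSpos : (0 : ℝ) < c.S := by exact_mod_cast h1
  have hPpos : (0 : ℝ) < c.P := by exact_mod_cast h2
  have hP1 : (1 : ℝ) ≤ c.P := by exact_mod_cast h2
  have hθ : (0 : ℝ) < θ := by exact_mod_cast d2
  have hθ1 : (1 : ℝ) ≤ θ := by exact_mod_cast d2
  have hbd := h.boundary d1
  have hloc := h.loc
  simp only [localOK, Bool.and_eq_true, decide_eq_true_eq, Nat.ble_eq, List.all_eq_true] at hloc
  obtain ⟨⟨⟨⟨⟨⟨⟨⟨-, -⟩, -⟩, o4⟩, -⟩, -⟩, -⟩, -⟩, -⟩ := hloc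
  -- we may assume `0 ≤ r`
  set ρ : ℝ := max r 0 with hρ
  have hρ0 : 0 ≤ ρ := le_max_right _ _
  have hρR : ρ < c.R := max_lt hr h.R_pos
  have hρP : (c.S : ℝ) ^ 2 * ρ ^ 2 < c.P := by
    rw [← h.R_sq]
    exact mul_lt_mul_of_pos_left (pow_lt_pow_left₀ hρR hρ0 (by norm_num)) (by positivity)
  set W : ℝ := (w.1 : ℝ) ^ 2 + (w.2 : ℝ) ^ 2 with hW
  have hW0 : 0 ≤ W := by positivity
  set M : ℝ := c.P + 1 + W + 2 * θ with hM
  have hMpos : 0 < M := by positivity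
  set gap : ℝ := c.P - (c.S : ℝ) ^ 2 * ρ ^ 2 with hgap
  have hgap0 : 0 < gap := by rw [hgap]; linarith
  obtain ⟨t, ht0, htM, htg⟩ : ∃ t : ℝ, 0 < t ∧ t * M < 1 ∧ 2 * t * θ < gap := by
    refine ⟨min (1 / (2 * M)) (gap / (4 * θ)), by positivity, ?_, ?_⟩
    · calc min (1 / (2 * M)) (gap / (4 * θ)) * M ≤ (1 / (2 * M)) * M :=
            mul_le_mul_of_nonneg_right (min_le_left _ _) hMpos.le
        _ = 1 / 2 := by field_simp
        _ < 1 := by norm_num
    · calc 2 * min (1 / (2 * M)) (gap / (4 * θ)) * θ ≤ 2 * (gap / (4 * θ)) * θ := by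
            apply mul_le_mul_of_nonneg_right _ hθ.le
            apply mul_le_mul_of_nonneg_left (min_le_right _ _) (by norm_num)
        _ = gap / 2 := by field_simp; norm_num
        _ < gap := by linarith
  set T : ℝ := c.P - 2 * t * θ + t ^ 2 * W with hT
  have hTρ : (c.S : ℝ) ^ 2 * ρ ^ 2 < T := by
    have : 0 ≤ t ^ 2 * W := by positivity
    rw [hT]
    rw [hgap] at htg
    linarith
  have hT0 : 0 < T := lt_of_le_of_lt (by positivity) hTρ
  refine ⟨c.x + t * w.1 / c.S, c.y + t * w.2 / c.S, Real.sqrt T / c.S, ?_, by positivity, ?_⟩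
  · have h1' : ρ < Real.sqrt T / c.S := by
      rw [lt_div_iff₀ hSpos]
      apply Real.lt_sqrt_of_sq_lt
      calc (ρ * c.S) ^ 2 = (c.S : ℝ) ^ 2 * ρ ^ 2 := by ring
        _ < T := hTρ
    exact lt_of_le_of_lt (le_max_left _ _) h1'
  -- membership
  have hmem : ∀ p : ℤ × ℤ, p ∈ enclosed (c.x + t * w.1 / c.S) (c.y + t * w.2 / c.S)
      (Real.sqrt T / c.S) ↔ ((c.S : ℝ) * p.1 + c.X0) ^ 2 + ((c.S : ℝ) * p.2 + c.Y0) ^ 2 - c.P
        < 2 * t * ((((c.S : ℝ) * p.1 + c.X0) * w.1 + ((c.S : ℝ) * p.2 + c.Y0) * w.2) - θ) := by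
    intro p
    simp only [enclosed, Set.mem_setOf_eq, Cert.x, Cert.y]
    rw [div_pow, Real.sq_sqrt hT0.le, lt_div_iff₀ (by positivity)]
    have e : (((p.1 : ℝ) - (-((c.X0 : ℝ) / c.S) + t * w.1 / c.S)) ^ 2 +
        ((p.2 : ℝ) - (-((c.Y0 : ℝ) / c.S) + t * w.2 / c.S)) ^ 2) * (c.S : ℝ) ^ 2
        = ((c.S : ℝ) * p.1 + c.X0 - t * w.1) ^ 2 + ((c.S : ℝ) * p.2 + c.Y0 - t * w.2) ^ 2 := by
      field_simp
      ring
    have e' : ((c.S : ℝ) * p.1 + c.X0 - t * w.1) ^ 2 + ((c.S : ℝ) * p.2 + c.Y0 - t * w.2) ^ 2 - T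
        = (((c.S : ℝ) * p.1 + c.X0) ^ 2 + ((c.S : ℝ) * p.2 + c.Y0) ^ 2 - c.P) -
          2 * t * ((((c.S : ℝ) * p.1 + c.X0) * w.1 + ((c.S : ℝ) * p.2 + c.Y0) * w.2) - θ) := by
      rw [hT, hW]
      ring
    rw [e, ← sub_neg, e', sub_neg]
  -- bound on the right-hand side
  have hrhs : ∀ q1 q2 : ℝ, |2 * t * ((q1 * w.1 + q2 * w.2) - θ)|
      ≤ t * (q1 ^ 2 + q2 ^ 2 + W + 2 * θ) := by
    intro q1 q2
    have hh : |2 * ((q1 * w.1 + q2 * w.2) - θ)| ≤ q1 ^ 2 + q2 ^ 2 + W + 2 * θ := by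
      rw [hW, abs_le]
      constructor
      · nlinarith [sq_nonneg (q1 + w.1), sq_nonneg (q2 + w.2)]
      · nlinarith [sq_nonneg (q1 - w.1), sq_nonneg (q2 - w.2)]
    calc |2 * t * ((q1 * w.1 + q2 * w.2) - θ)| = t * |2 * ((q1 * w.1 + q2 * w.2) - θ)| := by
          rw [← abs_of_pos ht0, ← abs_mul, abs_of_pos ht0]
          congr 1
          ring
      _ ≤ _ := mul_le_mul_of_nonneg_left hh ht0.le
  have e1 := E_eq_inner c.S c.P c.F c.X0 c.Y0 (by omega) (by omega) (by omega)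
  have c1 := card_inner c.S c.P c.F c.X0 (c.S - c.X0) c.Y0 (c.S - c.Y0)
  set I := inner c.S c.P c.F c.X0 (c.S - c.X0) c.Y0 (c.S - c.Y0)
  rw [h8] at c1
  set L' := c.L.filter fun p => decide
    (θ < ((c.S : ℤ) * p.1 + c.X0) * w.1 + ((c.S : ℤ) * p.2 + c.Y0) * w.2) with hL'
  have hL'mem : ∀ p, p ∈ L' ↔ (((c.S : ℤ) * p.1 + c.X0) ^ 2 + ((c.S : ℤ) * p.2 + c.Y0) ^ 2 = c.P ∧
      θ < ((c.S : ℤ) * p.1 + c.X0) * w.1 + ((c.S : ℤ) * p.2 + c.Y0) * w.2) := by
    intro p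
    rw [hL', List.mem_filter, decide_eq_true_eq, hbd]
  have hset : enclosed (c.x + t * w.1 / c.S) (c.y + t * w.2 / c.S) (Real.sqrt T / c.S)
      = ↑(I ∪ L'.toFinset) := by
    ext p
    rw [hmem, Finset.mem_coe, Finset.mem_union, List.mem_toFinset, hL'mem, ← Finset.mem_coe,
      ← e1, mem_E_int]
    set q1 : ℤ := (c.S : ℤ) * p.1 + c.X0 with hq1
    set q2 : ℤ := (c.S : ℤ) * p.2 + c.Y0 with hq2
    have hq1' : (c.S : ℝ) * p.1 + c.X0 = (q1 : ℝ) := by rw [hq1]; push_cast; ring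
    have hq2' : (c.S : ℝ) * p.2 + c.Y0 = (q2 : ℝ) := by rw [hq2]; push_cast; ring
    rw [hq1', hq2']
    have hb' := hrhs q1 q2
    rw [abs_le] at hb'
    rcases lt_trichotomy (q1 ^ 2 + q2 ^ 2) (c.P : ℤ) with hlt | heq | hgt
    · constructor
      · intro _; exact Or.inl hlt
      · intro _
        have h5 : q1 ^ 2 + q2 ^ 2 ≤ (c.P : ℤ) - 1 := by omega
        have h5' : (q1 : ℝ) ^ 2 + (q2 : ℝ) ^ 2 ≤ (c.P : ℝ) - 1 := by exact_mod_cast h5
        have h6 : t * ((q1 : ℝ) ^ 2 + (q2 : ℝ) ^ 2 + W + 2 * θ) ≤ t * M :=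
          mul_le_mul_of_nonneg_left (by rw [hM]; linarith) ht0.le
        linarith [hb'.1]
    · have h5 : (q1 : ℝ) ^ 2 + (q2 : ℝ) ^ 2 = (c.P : ℝ) := by exact_mod_cast heq
      rw [h5, sub_self]
      constructor
      · intro h6
        right
        refine ⟨heq, ?_⟩
        have h7 : 0 < ((q1 : ℝ) * w.1 + q2 * w.2) - θ := by
          by_contra hcon
          have := mul_nonpos_of_nonneg_of_nonpos (by positivity : (0 : ℝ) ≤ 2 * t) (not_lt.1 hcon)
          linarith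
        have h8 : (θ : ℝ) < (q1 : ℝ) * w.1 + q2 * w.2 := by linarith
        exact_mod_cast h8
      · rintro (h6 | h6)
        · omega
        · have h7 : (θ : ℝ) < (q1 : ℝ) * w.1 + q2 * w.2 := by exact_mod_cast h6.2
          have : 0 < ((q1 : ℝ) * w.1 + q2 * w.2) - θ := by linarith
          positivity
    · constructor
      · intro h6
        exfalso
        have h5 : (c.P : ℤ) + 1 ≤ q1 ^ 2 + q2 ^ 2 := by omega
        have h5' : (c.P : ℝ) + 1 ≤ (q1 : ℝ) ^ 2 + (q2 : ℝ) ^ 2 := by exact_mod_cast h5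
        set s : ℝ := (q1 : ℝ) ^ 2 + (q2 : ℝ) ^ 2 - c.P with hs
        have hs1 : 1 ≤ s := by rw [hs]; linarith
        have h7 : t * ((q1 : ℝ) ^ 2 + (q2 : ℝ) ^ 2 + W + 2 * θ) ≤ s * (t * M) := by
          have e3 : (q1 : ℝ) ^ 2 + (q2 : ℝ) ^ 2 = s + c.P := by rw [hs]; ring
          rw [e3, hM]
          have h8 : s + c.P + W + 2 * θ ≤ s * (c.P + 1 + W + 2 * θ) := by nlinarith
          calc t * (s + c.P + W + 2 * θ) ≤ t * (s * (c.P + 1 + W + 2 * θ)) :=
                mul_le_mul_of_nonneg_left h8 ht0.le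
            _ = s * (t * (c.P + 1 + W + 2 * θ)) := by ring
        have h9 : s * (t * M) < s * 1 := mul_lt_mul_of_pos_left htM (by linarith)
        linarith [hb'.2]
      · rintro (h6 | h6)
        · omega
        · omega
  rw [hset, Set.encard_coe_eq_coe_finsetCard, Finset.card_union_of_disjoint, c1,
    List.toFinset_card_of_nodup (o4.sublist List.filter_sublist), d3]
  rw [Finset.disjoint_left]
  intro p hp hp'
  rw [List.mem_toFinset, hL'mem] at hp'
  rw [← Finset.mem_coe, ← e1, mem_E_int] at hp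
  omega

/-- `m + j` is not an MC number. -/
theorem Good.not_isMC (h : Good c) (w : ℤ × ℤ) (θ : ℤ) (j : ℕ) (hd : dirOK c w θ j = true)
    (hj0 : 0 < j) (hj : j < c.J) : ¬ IsMC (c.m + j) := by
  rintro ⟨x, y, r, hn, hmax⟩
  have hrR : r < c.R := by
    by_contra hcon
    rcases h.key x y r (not_lt.1 hcon) with hk | hk
    · rw [hn.2] at hk
      have : c.m + j = c.m := by exact_mod_cast hk.1
      omega
    · rw [hn.2] at hk
      have : c.m + c.J ≤ c.m + j := by exact_mod_cast hk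
      omega
  obtain ⟨x', y', r', hr', hn'⟩ := h.approx w θ j hd r hrR
  have := hmax x' y' r' hn'
  linarith

end Pool.Agent.Q14.MC
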