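import Mathlib
import Pool.Agent.Q14.MCMain

set_option autoImplicit false

/-! # Certificate for N11202 -/

namespace Pool.Agent.Q14.MC.N11202

open Pool.Agent.Q14.MC

/-- The certificate. -/
def cert : Cert where
  S := 32768
  P := 3833392529408
  F := 61
  X0 := 8192
  Y0 := 8192
  η := 4
  m := 11202
  b := 5
  J := 2
  L :=
    [(-60, 0), (-23, 55), (0, -60), (42, 42), (55, -23)]
  up :=
    [(5, 2), (1, 9), (-1, 0)]
  down :=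
    [(-3, -7), (8, -9), (1, 0)]
  H := 16384

/-- Abbreviation. -/
abbrev Z : Tree := Tree.leaf
/-- Abbreviation. -/
abbrev U (m : ℕ) (l r : Tree) : Tree := Tree.sx m l r
/-- Abbreviation. -/
abbrev V (m : ℕ) (l r : Tree) : Tree := Tree.sy m l r

/-- The subdivision. -/
def tree : Tree :=
    (U 8192 (V 8192 (U 4096 (V 4096 (U 2048 (V 2048 Z Z) (V 2048 (U 3072 Z Z) (U 3072 Z Z))) Z)
    (V 4096 (U 6144 (V 2048 (U 5120 (V 1024 Z Z) Z) (U 5120 Z (V 3072 Z Z))) (V 2048 (U 7168 (V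
    1024 Z Z) (V 1024 Z (U 7680 Z Z))) (U 7168 (V 3072 Z Z) (V 3072 Z (U 7680 Z Z))))) (U 6144
    (V 6144 (U 5120 Z Z) Z) (V 6144 (U 7168 Z (V 5120 Z Z)) (U 7168 (V 7168 Z Z) (V 7168 Z (U
    7680 (V 7680 Z Z) (V 7680 Z (U 7936 Z (V 7936 Z (U 8064 Z (V 8064 Z (U 8128 Z (V 8128 Z (U
    8160 Z (V 8160 Z (U 8176 Z (V 8176 Z (U 8184 Z (V 8184 Z (U 8188 Z (V 8188 Z
    Z)))))))))))))))))))))) Z) (V 8192 (U 12288 (V 4096 (U 10240 (V 2048 (U 9216 (V 1024 Z Z)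
    (V 1024 (U 9728 Z Z) Z)) (U 9216 (V 3072 (U 8704 Z Z) Z) (V 3072 Z Z))) (V 2048 (U 11264 (V
    1024 Z Z) (V 1024 Z Z)) (U 11264 (V 3072 Z Z) (V 3072 Z (U 11776 Z (V 3584 Z (U 12032 Z (V
    3840 Z Z)))))))) (U 10240 (V 6144 (U 9216 Z (V 5120 Z Z)) (U 9216 (V 7168 (U 8704 Z Z) (U
    8704 (V 7680 (U 8448 Z Z) (U 8448 (V 7936 Z (U 8320 (V 8064 Z (U 8256 (V 8128 Z (U 8224 (V
    8160 Z (U 8208 (V 8176 Z (U 8200 (V 8184 Z (U 8196 (V 8188 Z Z) Z)) Z)) Z)) Z)) Z)) Z)) Z))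
    (V 7680 Z Z))) (V 7168 Z (U 9728 (V 7680 Z Z) Z)))) (V 6144 (U 11264 (V 5120 Z (U 10752 Z
    Z)) (V 5120 (U 11776 Z (V 4608 (U 12032 Z Z) Z)) (U 11776 (V 5632 Z Z) Z))) (U 11264 (V
    7168 Z Z) (V 7168 Z Z))))) (V 4096 (U 14336 (V 2048 (U 13312 Z (V 1024 Z Z)) (U 13312 (V
    3072 (U 12800 Z Z) (U 12800 (V 3584 (U 12544 Z Z) (U 12544 (V 3840 Z (U 12416 Z Z)) Z)) Z))
    Z)) (V 2048 (U 15360 (V 1024 (U 14848 Z (V 512 Z Z)) Z) (V 1024 Z Z)) (U 15360 Z Z))) (U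
    14336 (V 6144 (U 13312 (V 5120 (U 12800 (V 4608 Z Z) Z) Z) (V 5120 Z Z)) (U 13312 Z Z)) (V
    6144 (U 15360 Z Z) Z)))) (U 12288 (V 12288 (U 10240 (V 10240 (U 9216 (V 9216 (U 8704 (V
    8704 (U 8448 (V 8448 (U 8320 (V 8320 (U 8256 (V 8256 (U 8224 (V 8224 (U 8208 (V 8208 (U
    8200 (V 8200 (U 8196 (V 8196 Z Z) (V 8196 (U 8198 (V 8194 (U 8197 (V 8193 Z Z) Z) Z) (V
    8194 Z Z)) Z)) Z) (V 8200 (U 8204 (V 8196 (U 8202 (V 8194 Z Z) Z) Z) (V 8196 Z Z)) Z)) Z)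
    (V 8208 (U 8216 (V 8200 (U 8212 (V 8196 Z Z) Z) Z) (V 8200 Z Z)) Z)) Z) (V 8224 (U 8240 (V
    8208 (U 8232 (V 8200 Z Z) Z) Z) (V 8208 Z Z)) Z)) Z) (V 8256 (U 8288 (V 8224 (U 8272 (V
    8208 Z Z) Z) Z) (V 8224 Z Z)) Z)) Z) (V 8320 (U 8384 (V 8256 (U 8352 (V 8224 Z Z) Z) Z) Z)
    Z)) Z) Z) Z) (V 8704 Z Z)) Z) (V 9216 (U 9728 Z Z) Z)) Z) (V 10240 (U 11264 Z Z) Z)) Z) (V
    12288 (U 14336 (V 10240 (U 13312 Z Z) Z) (V 10240 Z Z)) (U 14336 (V 14336 Z Z) (V 14336 Z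
    (U 15360 Z (V 15360 Z Z))))))))

set_option maxRecDepth 100000 in
theorem rest_ok : restOK cert = true := by decide +kernel

set_option maxRecDepth 100000 in
theorem tree_ok : baseOK cert tree = true := by decide +kernel

set_option maxRecDepth 100000 in
theorem loc_ok : localOK cert.S cert.P cert.F cert.X0 cert.Y0 cert.η cert.m cert.J cert.L cert.up
    cert.down = true := by decide +kernel

theorem good : Good cert := ⟨rest_ok, ⟨tree, tree_ok⟩, loc_ok⟩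

theorem not_mc_1 : ¬ IsMC 11203 :=
  good.not_isMC (1, 0) 1384448 1 (by decide +kernel) (by decide) (by decide)


end Pool.Agent.Q14.MC.N11202
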