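import Mathlib
import Pool.Agent.Q14.MCMain

set_option autoImplicit false

/-! # Certificate for N1124 -/

namespace Pool.Agent.Q14.MC.N1124

open Pool.Agent.Q14.MC

/-- The certificate. -/
def cert : Cert where
  S := 512
  P := 95027200
  F := 21
  X0 := 256
  Y0 := 256
  η := 2
  m := 1124
  b := 24
  J := 6
  L :=
    [(-19, -5), (-19, 4), (-18, -8), (-18, 7), (-17, -10), (-17, 9), (-10, -17), (-10, 16),
      (-8, -18), (-8, 17), (-5, -19), (-5, 18), (4, -19), (4, 18), (7, -18), (7, 17), (9, -17),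
      (9, 16), (16, -10), (16, 9), (17, -8), (17, 7), (18, -5), (18, 4)]
  up :=
    [(-2, 9), (-1, 0)]
  down :=
    [(2, -9), (1, 0)]
  H := 256

/-- Abbreviation. -/
abbrev Z : Tree := Tree.leaf
/-- Abbreviation. -/
abbrev U (m : ℕ) (l r : Tree) : Tree := Tree.sx m l r
/-- Abbreviation. -/
abbrev V (m : ℕ) (l r : Tree) : Tree := Tree.sy m l r

/-- The subdivision. -/
def tree : Tree :=
    (U 128 (V 128 (U 64 (V 64 (U 32 (V 32 (U 16 Z (V 16 Z (U 24 Z (V 24 Z Z)))) Z) (V 32 (U 48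
    (V 16 Z (U 40 Z Z)) Z) (U 48 Z Z))) Z) (V 64 (U 96 (V 32 Z Z) (V 32 (U 112 Z Z) Z)) Z)) Z)
    (V 128 (U 192 (V 64 (U 160 Z Z) Z) (V 64 Z Z)) (U 192 (V 192 Z Z) (V 192 Z (U 224 Z (V 224
    Z (U 240 Z (V 240 Z (U 248 Z (V 248 Z (U 252 Z (V 252 Z (U 254 Z (V 254 Z Z))))))))))))))

set_option maxRecDepth 100000 in
theorem rest_ok : restOK cert = true := by decide +kernel

set_option maxRecDepth 100000 in
theorem tree_ok : baseOK cert tree = true := by decide +kernel

set_option maxRecDepth 100000 in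
theorem loc_ok : localOK cert.S cert.P cert.F cert.X0 cert.Y0 cert.η cert.m cert.J cert.L cert.up
    cert.down = true := by decide +kernel

theorem good : Good cert := ⟨rest_ok, ⟨tree, tree_ok⟩, loc_ok⟩

theorem not_mc_1 : ¬ IsMC 1125 :=
  good.not_isMC (3, 2) 34560 1 (by decide +kernel) (by decide) (by decide)

theorem not_mc_2 : ¬ IsMC 1126 :=
  good.not_isMC (1, 0) 8960 2 (by decide +kernel) (by decide) (by decide)

theorem not_mc_3 : ¬ IsMC 1127 :=
  good.not_isMC (2, 1) 18176 3 (by decide +kernel) (by decide) (by decide)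

theorem not_mc_4 : ¬ IsMC 1128 :=
  good.not_isMC (1, 0) 8448 4 (by decide +kernel) (by decide) (by decide)

theorem not_mc_5 : ¬ IsMC 1129 :=
  good.not_isMC (3, 2) 25856 5 (by decide +kernel) (by decide) (by decide)


end Pool.Agent.Q14.MC.N1124
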