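import Mathlib
import Pool.Agent.Q14.MCMain

set_option autoImplicit false

/-! # Certificate for N2286 -/

namespace Pool.Agent.Q14.MC.N2286

open Pool.Agent.Q14.MC

/-- The certificate. -/
def cert : Cert where
  S := 16384
  P := 196293427200
  F := 29
  X0 := 8192
  Y0 := 0
  η := 4
  m := 2286
  b := 12
  J := 4
  L :=
    [(-26, -9), (-26, 9), (-23, -15), (-23, 15), (-2, -27), (-2, 27), (1, -27), (1, 27),
      (22, -15), (22, 15), (25, -9), (25, 9)]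
  up :=
    [(3, 8), (-5, 8), (-1, 0)]
  down :=
    [(-3, -8), (5, -8), (1, 0)]
  H := 8192

/-- Abbreviation. -/
abbrev Z : Tree := Tree.leaf
/-- Abbreviation. -/
abbrev U (m : ℕ) (l r : Tree) : Tree := Tree.sx m l r
/-- Abbreviation. -/
abbrev V (m : ℕ) (l r : Tree) : Tree := Tree.sy m l r

/-- The subdivision. -/
def tree : Tree :=
    (U 4096 (V 4096 (U 2048 (V 2048 (U 1024 (V 1024 Z Z) (V 1024 Z (U 1536 Z (V 1536 Z Z)))) Z)
    (V 2048 (U 3072 (V 1024 (U 2560 (V 512 Z (U 2304 Z Z)) (V 512 Z (U 2816 Z Z))) (U 2560 (V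
    1536 (U 2304 Z Z) Z) Z)) (V 1024 (U 3584 (V 512 (U 3328 Z Z) (U 3328 Z (V 768 Z Z))) (V 512
    (U 3840 (V 256 Z (U 3712 Z Z)) (V 256 (U 3968 (V 128 Z Z) (V 128 Z (U 4032 Z (V 192 Z Z))))
    (U 3968 (V 384 Z Z) (V 384 Z Z)))) (U 3840 (V 768 Z Z) (V 768 Z Z)))) (U 3584 (V 1536 Z Z)
    Z))) (U 3072 (V 3072 (U 2560 (V 2560 Z Z) Z) Z) (V 3072 Z Z)))) Z) (V 4096 (U 6144 (V 2048
    (U 5120 (V 1024 (U 4608 (V 512 (U 4352 (V 256 (U 4224 (V 128 Z (U 4160 (V 192 Z (U 4128 Z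
    (V 224 (U 4144 Z (V 208 (U 4152 Z (V 200 Z Z)) Z)) Z))) (V 192 Z (U 4192 (V 224 (U 4176 (V
    208 (U 4168 (V 200 Z (U 4164 (V 204 Z Z) Z)) Z) (U 4168 Z Z)) Z) Z) Z)))) Z) (U 4224 (V 384
    (U 4160 Z Z) Z) Z)) Z) (U 4352 (V 768 Z Z) (V 768 (U 4480 (V 640 Z Z) Z) Z))) (V 512 Z Z))
    (U 4608 (V 1536 (U 4352 Z Z) Z) Z)) (V 1024 (U 5632 (V 512 Z Z) (V 512 Z Z)) (U 5632 Z (V
    1536 Z Z)))) (U 5120 Z (V 3072 Z Z))) (V 2048 (U 7168 (V 1024 (U 6656 (V 512 Z Z) (V 512 Z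
    Z)) Z) (V 1024 (U 7680 (V 512 Z Z) (V 512 (U 7936 Z (V 256 (U 8064 Z (V 128 (U 8128 Z (V 64
    (U 8160 Z (V 32 (U 8176 Z (V 16 (U 8184 Z (V 8 (U 8188 Z (V 4 Z Z)) Z)) Z)) Z)) Z)) Z)) Z))
    Z)) Z)) (U 7168 (V 3072 Z Z) Z))) (U 6144 (V 6144 (U 5120 Z (V 5120 Z Z)) Z) (V 6144 (U
    7168 (V 5120 Z Z) Z) (U 7168 Z (V 7168 Z Z))))))

set_option maxRecDepth 100000 in
theorem rest_ok : restOK cert = true := by decide +kernel

set_option maxRecDepth 100000 in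
theorem tree_ok : baseOK cert tree = true := by decide +kernel

set_option maxRecDepth 100000 in
theorem loc_ok : localOK cert.S cert.P cert.F cert.X0 cert.Y0 cert.η cert.m cert.J cert.L cert.up
    cert.down = true := by decide +kernel

theorem good : Good cert := ⟨rest_ok, ⟨tree, tree_ok⟩, loc_ok⟩

theorem not_mc_1 : ¬ IsMC 2287 :=
  good.not_isMC (1, 1) 565248 1 (by decide +kernel) (by decide) (by decide)

theorem not_mc_2 : ¬ IsMC 2288 :=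
  good.not_isMC (1, 0) 368640 2 (by decide +kernel) (by decide) (by decide)

theorem not_mc_3 : ¬ IsMC 2289 :=
  good.not_isMC (1, 1) 417792 3 (by decide +kernel) (by decide) (by decide)


end Pool.Agent.Q14.MC.N2286
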