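import Mathlib
import Pool.Agent.Q14.MCMain

set_option autoImplicit false

/-! # Certificates with two inequivalent centres -/

namespace Pool.Agent.Q14.MC

open Finset

/-- The test at a leaf, with two exceptional centres. -/
def leafOK2 (S P F T X0 Y0 η X1 Y1 u0 u1 v0 v1 : ℕ) : Bool :=
  (Nat.ble X1 (u0 + η) && Nat.ble u1 (X1 + η) && Nat.ble Y1 (v0 + η) && Nat.ble v1 (Y1 + η)) ||
  leafOK S P F T X0 Y0 η u0 u1 v0 v1

/-- The test of a tree, with two exceptional centres. -/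
def treeOK2 (S P F T X0 Y0 η X1 Y1 : ℕ) : Tree → ℕ → ℕ → ℕ → ℕ → Bool
  | Tree.leaf, u0, u1, v0, v1 => leafOK2 S P F T X0 Y0 η X1 Y1 u0 u1 v0 v1
  | Tree.sx m l r, u0, u1, v0, v1 =>
    treeOK2 S P F T X0 Y0 η X1 Y1 l u0 m v0 v1 && treeOK2 S P F T X0 Y0 η X1 Y1 r m u1 v0 v1
  | Tree.sy m l r, u0, u1, v0, v1 =>
    treeOK2 S P F T X0 Y0 η X1 Y1 l u0 u1 v0 m && treeOK2 S P F T X0 Y0 η X1 Y1 r u0 u1 m v1

theorem treeOK2_sound (S P F T X0 Y0 η X1 Y1 : ℕ) (t : Tree) : ∀ u0 u1 v0 v1 : ℕ,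
    treeOK2 S P F T X0 Y0 η X1 Y1 t u0 u1 v0 v1 = true → ∀ A B : ℝ, (u0 : ℝ) ≤ A →
    (A < u1 ∨ (A ≤ u1 ∧ S ≤ 2 * u1)) → (v0 : ℝ) ≤ B → (B < v1 ∨ (B ≤ v1 ∧ S ≤ 2 * v1)) → B ≤ A →
    (((X0 : ℝ) ≤ A + η ∧ A ≤ X0 + η ∧ (Y0 : ℝ) ≤ B + η ∧ B ≤ Y0 + η) ∨
      ((X1 : ℝ) ≤ A + η ∧ A ≤ X1 + η ∧ (Y1 : ℝ) ≤ B + η ∧ B ≤ Y1 + η) ∨
      (T : ℕ∞) ≤ (E S P A B).encard) := by
  induction t with
  | leaf =>
    intro u0 u1 v0 v1 h A B hA0 hA1 hB0 hB1 hBA
    rw [treeOK2, leafOK2, Bool.or_eq_true] at h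
    rcases h with h | h
    · right; left
      have hA1' : A ≤ u1 := by
        rcases hA1 with h | h
        · exact h.le
        · exact h.1
      have hB1' : B ≤ v1 := by
        rcases hB1 with h | h
        · exact h.le
        · exact h.1
      simp only [Bool.and_eq_true, Nat.ble_eq] at h
      obtain ⟨⟨⟨h1, h2⟩, h3⟩, h4⟩ := h
      have h1' : (X1 : ℝ) ≤ u0 + η := by exact_mod_cast h1
      have h2' : (u1 : ℝ) ≤ X1 + η := by exact_mod_cast h2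
      have h3' : (Y1 : ℝ) ≤ v0 + η := by exact_mod_cast h3
      have h4' : (v1 : ℝ) ≤ Y1 + η := by exact_mod_cast h4
      refine ⟨by linarith, by linarith, by linarith, by linarith⟩
    · rcases treeOK_sound S P F T X0 Y0 η Tree.leaf u0 u1 v0 v1 h A B hA0 hA1 hB0 hB1 hBA with
        h' | h'
      · exact Or.inl h'
      · exact Or.inr (Or.inr h')
  | sx m l r ihl ihr =>
    intro u0 u1 v0 v1 h A B hA0 hA1 hB0 hB1 hBA
    simp only [treeOK2, Bool.and_eq_true] at h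
    by_cases hm : A < m
    · exact ihl u0 m v0 v1 h.1 A B hA0 (Or.inl hm) hB0 hB1 hBA
    · exact ihr m u1 v0 v1 h.2 A B (not_lt.1 hm) hA1 hB0 hB1 hBA
  | sy m l r ihl ihr =>
    intro u0 u1 v0 v1 h A B hA0 hA1 hB0 hB1 hBA
    simp only [treeOK2, Bool.and_eq_true] at h
    by_cases hm : B < m
    · exact ihl u0 u1 v0 m h.1 A B hA0 hA1 hB0 (Or.inl hm) hBA
    · exact ihr u0 u1 m v1 h.2 A B hA0 hA1 (not_lt.1 hm) hB1 hBA

/-- `c'` has the same scale, radius, count and parameters as `c`. -/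
def sameOK (c c' : Cert) : Bool :=
  Nat.beq c'.S c.S && Nat.beq c'.P c.P && Nat.beq c'.F c.F && Nat.beq c'.m c.m &&
  Nat.beq c'.H c.H && Nat.beq c'.η c.η && Nat.beq c'.J c.J && Nat.blt 0 c.J

/-- The certified facts for two centres. -/
structure Good2 (c c' : Cert) : Prop where
  rest : restOK c = true
  rest' : restOK c' = true
  same : sameOK c c' = true
  tree : ∃ t, treeOK2 c.S c.P c.F (c.m + c.J) c.X0 c.Y0 c.η c'.X0 c'.Y0 t 0 c.H 0 c.H = true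
  loc : localOK c.S c.P c.F c.X0 c.Y0 c.η c.m c.J c.L c.up c.down = true
  loc' : localOK c'.S c'.P c'.F c'.X0 c'.Y0 c'.η c'.m c'.J c'.L c'.up c'.down = true

variable {c c' : Cert}

theorem rest_facts (hr : restOK c = true) : 0 < c.S ∧ 0 < c.P ∧ 2 * c.H = c.S ∧ c.X0 ≤ c.H ∧
    c.Y0 ≤ c.H ∧ c.P + 1 ≤ (c.S * c.F) * (c.S * c.F) ∧ c.J ≤ c.b ∧
    cnt c.S c.P c.F c.X0 (c.S - c.X0) c.Y0 (c.S - c.Y0) = c.m ∧
    cnt c.S (c.P + 1) c.F c.X0 (c.S - c.X0) c.Y0 (c.S - c.Y0) = c.m + c.b := by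
  simp only [restOK, Bool.and_eq_true, Nat.ble_eq, Nat.blt_eq, Nat.beq_eq] at hr
  obtain ⟨⟨⟨⟨⟨⟨⟨⟨h1, h2⟩, h3⟩, h4⟩, h5⟩, h6⟩, h7⟩, h8⟩, h9⟩ := hr
  exact ⟨h1, h2, h3, h4, h5, h6, h7, h8, h9⟩

theorem rest_R_pos (h : restOK c = true) : 0 < c.R := by
  obtain ⟨h1, h2, -⟩ := rest_facts h
  unfold Cert.R
  have : (0 : ℝ) < c.P := by exact_mod_cast h2
  have : (0 : ℝ) < c.S := by exact_mod_cast h1
  positivity

theorem rest_R_sq (h : restOK c = true) : (c.S : ℝ) ^ 2 * c.R ^ 2 = c.P := by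
  obtain ⟨h1, h2, -⟩ := rest_facts h
  unfold Cert.R
  have : (0 : ℝ) < c.S := by exact_mod_cast h1
  rw [div_pow, Real.sq_sqrt (by positivity)]
  field_simp

theorem rest_count_centre (h : restOK c = true) :
    (enclosed c.x c.y c.R).encard = (c.m : ℕ∞) := by
  obtain ⟨h1, h2, h3, h4, h5, h6, h7, h8, h9⟩ := rest_facts h
  have hS : (c.S : ℝ) ≠ 0 := by
    have : (0 : ℝ) < c.S := by exact_mod_cast h1
    exact this.ne'
  unfold Cert.x Cert.y
  rw [enclosed_eq h1 (rest_R_sq h), mul_div_cancel₀ _ hS, mul_div_cancel₀ _ hS,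
    E_encard c.S c.P c.F c.X0 c.Y0 (by omega) (by omega) (by omega), h8]

theorem rest_count_larger (h : restOK c = true) {r : ℝ} (hr : c.R < r) :
    ((c.m + c.b : ℕ) : ℕ∞) ≤ (enclosed c.x c.y r).encard := by
  obtain ⟨h1, h2, h3, h4, h5, h6, h7, h8, h9⟩ := rest_facts h
  have hSpos : (0 : ℝ) < c.S := by exact_mod_cast h1
  rw [← h9, ← E_encard c.S (c.P + 1) c.F c.X0 c.Y0 (by omega) (by omega) (by omega)]
  apply Set.encard_le_encard
  intro p hp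
  rw [mem_E_succ] at hp
  have hp' : ((c.S : ℝ) * p.1 + c.X0) ^ 2 + ((c.S : ℝ) * p.2 + c.Y0) ^ 2 ≤ c.P := by
    exact_mod_cast hp
  simp only [enclosed, Cert.x, Cert.y, Set.mem_setOf_eq]
  have e : ((c.S : ℝ) * p.1 + c.X0) ^ 2 + ((c.S : ℝ) * p.2 + c.Y0) ^ 2 = (c.S : ℝ) ^ 2 *
      (((p.1 : ℝ) - -((c.X0 : ℝ) / c.S)) ^ 2 + ((p.2 : ℝ) - -((c.Y0 : ℝ) / c.S)) ^ 2) := by
    field_simp
    ring
  rw [e, ← rest_R_sq h] at hp'
  have h3 : (((p.1 : ℝ) - -((c.X0 : ℝ) / c.S)) ^ 2 + ((p.2 : ℝ) - -((c.Y0 : ℝ) / c.S)) ^ 2)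
      ≤ c.R ^ 2 := le_of_mul_le_mul_left hp' (by positivity)
  have h4 : c.R ^ 2 < r ^ 2 := pow_lt_pow_left₀ hr (rest_R_pos h).le (by norm_num)
  exact lt_of_le_of_lt h3 h4

/-- A circle of radius larger than `R` encloses more than `m` lattice points. -/
theorem Good2.key (h : Good2 c c') (x y r : ℝ) (hr : c.R < r) :
    ((c.m + 1 : ℕ) : ℕ∞) ≤ (enclosed x y r).encard := by
  obtain ⟨h1, h2, h3, h4, h5, h6, h7, h8, h9⟩ := rest_facts h.rest
  obtain ⟨k1, k2, k3, k4, k5, k6, k7, k8, k9⟩ := rest_facts h.rest'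
  have hs := h.same
  simp only [sameOK, Bool.and_eq_true, Nat.beq_eq, Nat.blt_eq] at hs
  obtain ⟨⟨⟨⟨⟨⟨⟨s1, s2⟩, s3⟩, s4⟩, s5⟩, s6⟩, s7⟩, s8⟩ := hs
  obtain ⟨t, ht⟩ := h.tree
  have hSpos : (0 : ℝ) < c.S := by exact_mod_cast h1
  obtain ⟨a, b, hb, hba, ha, hab⟩ := exists_fund x y
  have hH : (c.H : ℝ) = c.S * (1 / 2) := by
    have : ((2 * c.H : ℕ) : ℝ) = c.S := by exact_mod_cast h3
    push_cast at this
    linarith
  have hA : c.S * a ≤ c.H := by rw [hH]; exact mul_le_mul_of_nonneg_left ha hSpos.le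
  have hBA : c.S * b ≤ c.S * a := mul_le_mul_of_nonneg_left hba hSpos.le
  have hB : 0 ≤ c.S * b := by positivity
  have hsnd := treeOK2_sound c.S c.P c.F (c.m + c.J) c.X0 c.Y0 c.η c'.X0 c'.Y0 t 0 c.H 0 c.H ht
    (c.S * a) (c.S * b) (by push_cast; linarith) (Or.inr ⟨hA, by omega⟩) (by push_cast; exact hB)
    (Or.inr ⟨by linarith, by omega⟩) hBA
  have hfin : ((c.m + c.J : ℕ) : ℕ∞) ≤ (E c.S c.P (c.S * a) (c.S * b)).encard →
      ((c.m + 1 : ℕ) : ℕ∞) ≤ (enclosed x y r).encard := by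
    intro hk
    rw [hab]
    refine le_trans (le_trans ?_ hk) ?_
    · exact_mod_cast Nat.add_le_add_left s8 _
    rw [← enclosed_eq h1 (rest_R_sq h.rest)]
    exact Set.encard_le_encard (enclosed_mono _ _ (rest_R_pos h.rest).le hr.le)
  rcases hsnd with hk | hk | hk
  · by_cases hne : c.S * a = c.X0 ∧ c.S * b = c.Y0
    · have ea : -a = c.x := by
        unfold Cert.x
        rw [← hne.1]
        field_simp
      have eb : -b = c.y := by
        unfold Cert.y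
        rw [← hne.2]
        field_simp
      rw [hab, ea, eb]
      refine le_trans ?_ (rest_count_larger h.rest hr)
      exact_mod_cast Nat.add_le_add_left (s8.trans_le h7) _
    · exact hfin (local_bound c.S c.P c.F c.X0 c.Y0 c.η c.m c.J c.L c.up c.down h.loc _ _
        (by linarith) hB hk.1 hk.2.1 hk.2.2.1 hk.2.2.2 hne)
  · by_cases hne : c.S * a = c'.X0 ∧ c.S * b = c'.Y0
    · have ea : -a = c'.x := by
        unfold Cert.x
        rw [← hne.1, s1]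
        field_simp
      have eb : -b = c'.y := by
        unfold Cert.y
        rw [← hne.2, s1]
        field_simp
      have hr' : c'.R < r := by
        have : c'.R = c.R := by unfold Cert.R; rw [s1, s2]
        rw [this]; exact hr
      rw [hab, ea, eb]
      refine le_trans ?_ (rest_count_larger h.rest' hr')
      rw [s4]
      have : 0 < c'.b := by omega
      exact_mod_cast Nat.add_le_add_left this _
    · have hl := h.loc'
      rw [s1, s2, s3, s4, s6, s7] at hl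
      exact hfin (local_bound c.S c.P c.F c'.X0 c'.Y0 c.η c.m c.J c'.L c'.up c'.down hl _ _
        (by linarith) hB hk.1 hk.2.1 hk.2.2.1 hk.2.2.2 hne)
  · exact hfin hk

/-- The first circle is an MC-circle of `m`. -/
theorem Good2.left (h : Good2 c c') : IsMCCircle c.m c.x c.y c.R := by
  refine ⟨⟨rest_R_pos h.rest, rest_count_centre h.rest⟩, ?_⟩
  intro x' y' r' hn
  by_contra hcon
  have hk := h.key x' y' r' (not_le.1 hcon)
  rw [hn.2] at hk
  have : c.m + 1 ≤ c.m := by exact_mod_cast hk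
  omega

/-- The second circle is an MC-circle of `m`. -/
theorem Good2.right (h : Good2 c c') : IsMCCircle c.m c'.x c'.y c.R := by
  have hs := h.same
  simp only [sameOK, Bool.and_eq_true, Nat.beq_eq, Nat.blt_eq] at hs
  obtain ⟨⟨⟨⟨⟨⟨⟨s1, s2⟩, s3⟩, s4⟩, s5⟩, s6⟩, s7⟩, s8⟩ := hs
  have hR : c'.R = c.R := by unfold Cert.R; rw [s1, s2]
  refine ⟨⟨rest_R_pos h.rest, ?_⟩, h.left.2⟩
  rw [← hR, ← s4]
  exact rest_count_centre h.rest'

end Pool.Agent.Q14.MC
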