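import Mathlib
import Pool.Agent.Q14.MCTwo

set_option autoImplicit false

/-! # Certificate for 322: two inequivalent MC-circles -/

namespace Pool.Agent.Q14.MC.N322

open Pool.Agent.Q14.MC

/-- The certificate of one of the two circles. -/
def cert1 : Cert where
  S := 272
  P := 7696000
  F := 12
  X0 := 72
  Y0 := 72
  η := 2
  m := 322
  b := 4
  J := 1
  L :=
    [(-9, 5), (4, 9), (5, -9), (9, 4)]
  up :=
    [(5, 8), (-1, 0)]
  down :=
    [(2, -1), (1, 0)]
  H := 136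

/-- The certificate of one of the two circles. -/
def cert2 : Cert where
  S := 272
  P := 7696000
  F := 12
  X0 := 136
  Y0 := 24
  η := 2
  m := 322
  b := 4
  J := 1
  L :=
    [(-8, -7), (-2, 10), (1, 10), (7, -7)]
  up :=
    [(-8, 9), (-1, 0)]
  down :=
    [(6, -1), (1, 0)]
  H := 136

/-- Abbreviation. -/
abbrev Z : Tree := Tree.leaf
/-- Abbreviation. -/
abbrev U (m : ℕ) (l r : Tree) : Tree := Tree.sx m l r
/-- Abbreviation. -/
abbrev V (m : ℕ) (l r : Tree) : Tree := Tree.sy m l r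

/-- The subdivision. -/
def tree : Tree :=
    (U 64 (V 64 (U 32 (V 32 Z Z) (V 32 Z (U 48 Z (V 48 Z (U 56 (V 56 Z Z) Z))))) Z) (V 64 (U 96
    (V 32 (U 80 Z Z) (U 80 (V 48 Z (U 72 Z Z)) (V 48 Z Z))) (V 32 (U 112 (V 16 Z (U 104 Z (V 24
    Z Z))) (V 16 Z (U 128 (U 120 (V 24 Z (U 116 Z (V 28 Z Z))) Z) (V 24 (U 132 Z (V 20 Z (U 134
    Z (V 22 Z Z)))) (U 132 Z (V 28 (U 134 Z (V 26 Z Z)) Z)))))) (U 112 (V 48 Z Z) (V 48 (U 128
    Z (V 40 Z Z)) (U 128 (U 120 Z Z) Z))))) (U 96 (V 96 (U 80 (V 80 (U 72 (V 72 (U 68 Z (V 68 Z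
    (U 70 Z (V 70 Z Z)))) Z) (V 72 (U 76 (V 68 Z (U 74 (V 70 Z Z) Z)) Z) (U 76 (V 76 (U 74 (V
    74 Z Z) (V 74 Z (U 75 Z Z))) Z) (V 76 Z (U 78 Z Z))))) Z) (V 80 Z (U 88 (V 88 (U 84 Z Z) Z)
    Z))) Z) (V 96 (U 112 Z Z) (U 112 Z Z)))))

set_option maxRecDepth 100000 in
theorem rest1 : restOK cert1 = true := by decide +kernel

set_option maxRecDepth 100000 in
theorem rest2 : restOK cert2 = true := by decide +kernel

theorem same : sameOK cert1 cert2 = true := by decide +kernel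

set_option maxRecDepth 100000 in
theorem tree_ok : treeOK2 cert1.S cert1.P cert1.F (cert1.m + cert1.J) cert1.X0 cert1.Y0 cert1.η
    cert2.X0 cert2.Y0 tree 0 cert1.H 0 cert1.H = true := by decide +kernel

set_option maxRecDepth 100000 in
theorem loc1 : localOK cert1.S cert1.P cert1.F cert1.X0 cert1.Y0 cert1.η cert1.m cert1.J cert1.L
    cert1.up cert1.down = true := by decide +kernel

set_option maxRecDepth 100000 in
theorem loc2 : localOK cert2.S cert2.P cert2.F cert2.X0 cert2.Y0 cert2.η cert2.m cert2.J cert2.L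
    cert2.up cert2.down = true := by decide +kernel

theorem good : Good2 cert1 cert2 := ⟨rest1, rest2, same, ⟨tree, tree_ok⟩, loc1, loc2⟩

end Pool.Agent.Q14.MC.N322
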