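import Mathlib
import Pool.Agent.Q14.MCMain

set_option autoImplicit false

/-! # Certificate for N3852 -/

namespace Pool.Agent.Q14.MC.N3852

open Pool.Agent.Q14.MC

/-- The certificate. -/
def cert : Cert where
  S := 16384
  P := 330846699520
  F := 37
  X0 := 8192
  Y0 := 8192
  η := 4
  m := 3852
  b := 32
  J := 2
  L :=
    [(-35, -7), (-35, 6), (-34, -11), (-34, 10), (-32, -16), (-32, 15), (-29, -21), (-29, 20),
      (-21, -29), (-21, 28), (-16, -32), (-16, 31), (-11, -34), (-11, 33), (-7, -35), (-7, 34),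
      (6, -35), (6, 34), (10, -34), (10, 33), (15, -32), (15, 31), (20, -29), (20, 28),
      (28, -21), (28, 20), (31, -16), (31, 15), (33, -11), (33, 10), (34, -7), (34, 6)]
  up :=
    [(-3, 1), (-1, 0)]
  down :=
    [(3, -1), (1, 0)]
  H := 8192

/-- Abbreviation. -/
abbrev Z : Tree := Tree.leaf
/-- Abbreviation. -/
abbrev U (m : ℕ) (l r : Tree) : Tree := Tree.sx m l r
/-- Abbreviation. -/
abbrev V (m : ℕ) (l r : Tree) : Tree := Tree.sy m l r

/-- The subdivision. -/
def tree : Tree :=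
    (U 4096 (V 4096 (U 2048 (V 2048 Z Z) (V 2048 (U 3072 Z (V 1024 Z Z)) (U 3072 Z Z))) Z) (V
    4096 (U 6144 (V 2048 (U 5120 (V 1024 Z Z) Z) (U 5120 Z Z)) (V 2048 (U 7168 Z Z) Z)) (U 6144
    (V 6144 Z Z) (V 6144 Z (U 7168 Z (V 7168 Z (U 7680 Z (V 7680 Z (U 7936 Z (V 7936 Z (U 8064
    Z (V 8064 Z (U 8128 Z (V 8128 Z (U 8160 Z (V 8160 Z (U 8176 Z (V 8176 Z (U 8184 Z (V 8184 Z
    (U 8188 Z (V 8188 Z Z))))))))))))))))))))))

set_option maxRecDepth 100000 in
theorem rest_ok : restOK cert = true := by decide +kernel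

set_option maxRecDepth 100000 in
theorem tree_ok : baseOK cert tree = true := by decide +kernel

set_option maxRecDepth 100000 in
theorem loc_ok : localOK cert.S cert.P cert.F cert.X0 cert.Y0 cert.η cert.m cert.J cert.L cert.up
    cert.down = true := by decide +kernel

theorem good : Good cert := ⟨rest_ok, ⟨tree, tree_ok⟩, loc_ok⟩

theorem not_mc_1 : ¬ IsMC 3853 :=
  good.not_isMC (2, 1) 1269760 1 (by decide +kernel) (by decide) (by decide)


end Pool.Agent.Q14.MC.N3852
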