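import Mathlib
import Pool.Agent.Q14.MCMain

set_option autoImplicit false

/-! # Certificate for N7998 -/

namespace Pool.Agent.Q14.MC.N7998

open Pool.Agent.Q14.MC

/-- The certificate. -/
def cert : Cert where
  S := 32768
  P := 2739383828480
  F := 52
  X0 := 16384
  Y0 := 0
  η := 4
  m := 7998
  b := 16
  J := 3
  L :=
    [(-51, -1), (-51, 1), (-30, -41), (-30, 41), (-27, -43), (-27, 43), (-19, -47), (-19, 47),
      (18, -47), (18, 47), (26, -43), (26, 43), (29, -41), (29, 41), (50, -1), (50, 1)]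
  up :=
    [(-4, 3), (-1, 0)]
  down :=
    [(4, -3), (1, 0)]
  H := 16384

/-- Abbreviation. -/
abbrev Z : Tree := Tree.leaf
/-- Abbreviation. -/
abbrev U (m : ℕ) (l r : Tree) : Tree := Tree.sx m l r
/-- Abbreviation. -/
abbrev V (m : ℕ) (l r : Tree) : Tree := Tree.sy m l r

/-- The subdivision. -/
def tree : Tree :=
    (U 8192 (V 8192 (U 4096 (V 4096 Z Z) (V 4096 (U 6144 Z Z) (U 6144 (V 6144 Z Z) (V 6144 Z
    Z)))) Z) (V 8192 (U 12288 (V 4096 (U 10240 (V 2048 Z Z) (V 2048 Z Z)) (U 10240 (V 6144 Z Z)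
    (V 6144 Z (U 11264 Z Z)))) (V 4096 (U 14336 (V 2048 (U 13312 Z (V 1024 Z (U 13824 Z Z))) (U
    13312 Z (V 3072 Z Z))) (V 2048 (U 15360 (V 1024 (U 14848 Z (V 512 Z Z)) (U 14848 Z (V 1536
    Z Z))) (V 1024 (U 15872 (V 512 (U 15616 (V 256 Z (U 15488 Z (V 384 Z Z))) (V 256 Z (U 15744
    (V 384 Z Z) Z))) (U 15616 (V 768 (U 15488 Z (V 640 (U 15552 (V 576 Z Z) (V 576 Z Z)) Z)) Z)
    Z)) (V 512 (U 16128 (V 256 (U 16000 Z (V 128 Z (U 16064 (V 192 Z Z) Z))) Z) (V 256 (U 16256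
    Z (V 128 (U 16320 Z (V 64 (U 16352 Z (V 32 (U 16368 Z (V 16 (U 16376 Z (V 8 (U 16380 Z (V 4
    Z Z)) Z)) Z)) Z)) Z)) Z)) Z)) Z)) (U 15872 Z Z))) (U 15360 Z (V 3072 (U 15872 Z (V 2560 Z
    Z)) Z)))) (U 14336 (V 6144 Z (U 13312 Z Z)) (V 6144 (U 15360 Z (V 5120 Z (U 15872 Z (V 5632
    Z Z)))) (U 15360 (V 7168 (U 14848 Z Z) (U 14848 Z Z)) (V 7168 (U 15872 Z (V 6656 Z (U 16128
    Z Z))) (U 15872 Z Z))))))) (U 12288 (V 12288 (U 10240 (V 10240 Z Z) (V 10240 Z (U 11264 Z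
    Z))) Z) (V 12288 (U 14336 (V 10240 Z Z) (V 10240 (U 15360 (V 9216 Z Z) (V 9216 (U 15872 Z
    Z) Z)) Z)) (U 14336 (V 14336 (U 13312 Z Z) Z) (V 14336 (U 15360 Z Z) Z))))))

set_option maxRecDepth 100000 in
theorem rest_ok : restOK cert = true := by decide +kernel

set_option maxRecDepth 100000 in
theorem tree_ok : baseOK cert tree = true := by decide +kernel

set_option maxRecDepth 100000 in
theorem loc_ok : localOK cert.S cert.P cert.F cert.X0 cert.Y0 cert.η cert.m cert.J cert.L cert.up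
    cert.down = true := by decide +kernel

theorem good : Good cert := ⟨rest_ok, ⟨tree, tree_ok⟩, loc_ok⟩

theorem not_mc_1 : ¬ IsMC 7999 :=
  good.not_isMC (1, 1) 2277376 1 (by decide +kernel) (by decide) (by decide)

theorem not_mc_2 : ¬ IsMC 8000 :=
  good.not_isMC (1, 0) 966656 2 (by decide +kernel) (by decide) (by decide)


end Pool.Agent.Q14.MC.N7998
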