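import Mathlib

/-!
NF-complexes, the NF-number, and the complexes in the orbit of a dumbbell graph.
-/

namespace Pool.Agent.Q14.NF

open Finset

variable {V W : Type*}

/-- Facets of a family of finite sets: its inclusion-maximal members. -/
def IsFacet (D : Set (Finset V)) (G : Finset V) : Prop :=
  G ∈ D ∧ ∀ H ∈ D, G ⊆ H → H = G

/-- The NF-complex: all subsets of the vertex set containing no facet. -/
def nfc (D : Set (Finset V)) : Set (Finset V) := {F | ∀ G, IsFacet D G → ¬ G ⊆ F}

/-- Isomorphism of complexes. -/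
def Iso (D : Set (Finset V)) (E : Set (Finset W)) : Prop :=
  ∃ π : V ≃ W, ∀ F : Finset V, F ∈ D ↔ F.map π.toEmbedding ∈ E

/-- The NF-number of a complex. -/
noncomputable def nfNumber (D : Set (Finset V)) : ℕ :=
  sInf {q : ℕ | 0 < q ∧ Iso (nfc^[q] D) D}

/-- A simple graph as a complex: the subsets of its edges. -/
def graphComplex (G : SimpleGraph V) : Set (Finset V) :=
  {F | ∃ u v : V, G.Adj u v ∧ ∀ w ∈ F, w = u ∨ w = v}

/-- the two sides of the vertex set with the marked vertices `x ∈ A`, `y ∈ B` -/
structure Setup [Fintype V] (A B : Finset V) (x y : V) : Prop where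
  hx : x ∈ A
  hy : y ∈ B
  dis : ∀ v, v ∈ A → v ∈ B → False
  cov : ∀ v, v ∈ A ∨ v ∈ B
  hA : 2 ≤ A.card
  hB : 2 ≤ B.card

section

variable [Fintype V] [DecidableEq V] {A B : Finset V} {x y : V}

def bad (A B : Finset V) (x y : V) (F : Finset V) : Prop := (x ∈ F ∧ y ∈ F) ∨ A ⊆ F ∨ B ⊆ F

def pur (A B : Finset V) (F : Finset V) : Prop := F ⊆ A ∨ F ⊆ B

/-- the complexes in the middle of the orbit -/
def T (A B : Finset V) (x y : V) (r : ℕ) : Set (Finset V) :=
  {F | F.card < r ∨ (F.card = r ∧ ¬ bad A B x y F) ∨ (F.card = r + 1 ∧ pur A B F)}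

theorem Setup.card (s : Setup A B x y) : A.card + B.card = Fintype.card V := by
  rw [← Finset.card_union_of_disjoint, ← Finset.card_univ]
  · congr 1
    ext v
    simp only [Finset.mem_union, Finset.mem_univ, iff_true]
    exact s.cov v
  · rw [Finset.disjoint_left]
    exact fun v h1 h2 => s.dis v h1 h2

theorem Setup.symm (s : Setup A B x y) : Setup B A y x :=
  ⟨s.hy, s.hx, fun v h1 h2 => s.dis v h2 h1, fun v => (s.cov v).symm, s.hB, s.hA⟩

theorem Setup.xy (s : Setup A B x y) : x ≠ y := by
  rintro rfl; exact s.dis x s.hx s.hy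

theorem bad_symm {F : Finset V} : bad A B x y F ↔ bad B A y x F := by
  unfold bad; tauto

theorem pur_symm {F : Finset V} : pur A B F ↔ pur B A F := by
  unfold pur; tauto

theorem T_symm (r : ℕ) : T A B x y r = T B A y x r := by
  unfold T; ext F; simp only [Set.mem_ofPred_eq]
  rw [bad_symm (A := A) (B := B), pur_symm (A := A) (B := B)]

theorem Setup.not_pur (s : Setup A B x y) {F : Finset V} (h : ¬ pur A B F) :
    (∃ a ∈ F, a ∈ A) ∧ ∃ b ∈ F, b ∈ B := by
  unfold pur at h
  push Not at h
  obtain ⟨h1, h2⟩ := h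
  obtain ⟨b, hb, hb'⟩ := Finset.not_subset.mp h1
  obtain ⟨a, ha, ha'⟩ := Finset.not_subset.mp h2
  exact ⟨⟨a, ha, (s.cov a).resolve_right ha'⟩, ⟨b, hb, (s.cov b).resolve_left hb'⟩⟩

theorem Setup.not_pur' (s : Setup A B x y) {F : Finset V} {a b : V} (ha : a ∈ F) (ha' : a ∈ A)
    (hb : b ∈ F) (hb' : b ∈ B) : ¬ pur A B F := by
  rintro (h | h)
  · exact s.dis b (h hb) hb'
  · exact s.dis a ha' (h ha)

/-- another element of `A` -/
theorem Setup.other (s : Setup A B x y) (a : V) : ∃ a' ∈ A, a' ≠ a := by
  by_contra hc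
  push Not at hc
  have : A ⊆ {a} := fun z hz => by rw [Finset.mem_singleton]; exact hc z hz
  have := Finset.card_le_card this
  rw [Finset.card_singleton] at this
  have := s.hA
  omega

theorem facet_pur (r : ℕ) {G : Finset V} (h1 : G.card = r + 1) (h2 : pur A B G) :
    IsFacet (T A B x y r) G := by
  refine ⟨Or.inr (Or.inr ⟨h1, h2⟩), fun H hH hs => ?_⟩
  have hc := Finset.card_le_card hs
  rcases hH with h | ⟨h, _⟩ | ⟨h, _⟩
  · omega
  · omega
  · exact (Finset.eq_of_subset_of_card_le hs (by omega)).symm

theorem facet_mid (r : ℕ) {G : Finset V} (h1 : G.card = r) (h2 : ¬ bad A B x y G)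
    (h3 : ¬ pur A B G) : IsFacet (T A B x y r) G := by
  refine ⟨Or.inr (Or.inl ⟨h1, h2⟩), fun H hH hs => ?_⟩
  have hc := Finset.card_le_card hs
  rcases hH with h | ⟨h, _⟩ | ⟨h, h'⟩
  · omega
  · exact (Finset.eq_of_subset_of_card_le hs (by omega)).symm
  · exact absurd (h'.imp (fun h => hs.trans h) (fun h => hs.trans h)) h3

theorem facet_bad (s : Setup A B x y) (r : ℕ) {G : Finset V} (h1 : G.card + 1 = r)
    (h2 : bad A B x y G) : IsFacet (T A B x y r) G := by
  refine ⟨Or.inl (by omega), fun H hH hs => ?_⟩
  have hc := Finset.card_le_card hs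
  rcases hH with h | ⟨h, h'⟩ | ⟨h, h'⟩
  · exact (Finset.eq_of_subset_of_card_le hs (by omega)).symm
  · exfalso; apply h'
    rcases h2 with h2 | h2 | h2
    · exact Or.inl ⟨hs h2.1, hs h2.2⟩
    · exact Or.inr (Or.inl (h2.trans hs))
    · exact Or.inr (Or.inr (h2.trans hs))
  · exfalso
    rcases h2 with h2 | h2 | h2
    · exact s.not_pur' (hs h2.1) s.hx (hs h2.2) s.hy h'
    · rcases h' with h' | h'
      · have := Finset.card_le_card (h'.trans h2)
        omega
      · exact s.dis x s.hx (h' (hs (h2 s.hx)))
    · rcases h' with h' | h'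
      · exact s.dis y (h' (hs (h2 s.hy))) s.hy
      · have := Finset.card_le_card (h'.trans h2)
        omega

/-- a non-bad set missing at least two elements of `A` can be enlarged -/
theorem Setup.extend (s : Setup A B x y) {G : Finset V} (hb : ¬ bad A B x y G)
    (h2 : 2 ≤ (A \ G).card) : ∃ z, z ∉ G ∧ ¬ bad A B x y (insert z G) := by
  unfold bad at hb
  push Not at hb
  obtain ⟨b1, b2, b3⟩ := hb
  obtain ⟨a, ha, hax⟩ : ∃ a ∈ A \ G, a ≠ x := by
    by_contra hc
    push Not at hc
    have : A \ G ⊆ {x} := fun z hz => by rw [Finset.mem_singleton]; exact hc z hz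
    have := Finset.card_le_card this
    rw [Finset.card_singleton] at this
    omega
  rw [Finset.mem_sdiff] at ha
  refine ⟨a, ha.2, ?_⟩
  rintro (⟨h, h'⟩ | h | h)
  · rcases Finset.mem_insert.mp h with h | h
    · exact hax h.symm
    · rcases Finset.mem_insert.mp h' with h' | h'
      · exact s.dis a ha.1 (h' ▸ s.hy)
      · exact b1 h h'
  · have : A \ G ⊆ {a} := by
      intro z hz
      rw [Finset.mem_sdiff] at hz
      rw [Finset.mem_singleton]
      rcases Finset.mem_insert.mp (h hz.1) with h | h
      · exact h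
      · exact absurd h hz.2
    have := Finset.card_le_card this
    rw [Finset.card_singleton] at this
    omega
  · apply b3
    intro z hz
    rcases Finset.mem_insert.mp (h hz) with h | h
    · exact absurd (h ▸ hz) (fun h => s.dis a ha.1 h)
    · exact h

theorem facet_cases (s : Setup A B x y) {r : ℕ} (hr : 1 ≤ r) (hN : r + 2 ≤ Fintype.card V)
    {G : Finset V} (hG : IsFacet (T A B x y r) G) :
    (G.card = r + 1 ∧ pur A B G) ∨ (G.card = r ∧ ¬ bad A B x y G ∧ ¬ pur A B G) ∨
      (G.card + 1 = r ∧ bad A B x y G) := by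
  obtain ⟨hG, hmax⟩ := hG
  have hins : ∀ z, z ∉ G → insert z G ∈ T A B x y r → False := by
    intro z hz h
    have := hmax _ h (Finset.subset_insert z G)
    exact hz (this ▸ Finset.mem_insert_self z G)
  rcases hG with h | ⟨h, h'⟩ | ⟨h, h'⟩
  · -- small sets
    rcases Nat.lt_or_ge (G.card + 1) r with h1 | h1
    · exfalso
      obtain ⟨z, hz⟩ : ∃ z, z ∉ G := by
        by_contra hc
        push Not at hc
        have : G = Finset.univ := Finset.eq_univ_iff_forall.mpr hc
        rw [this, Finset.card_univ] at h
        omega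
      apply hins z hz
      left
      rw [Finset.card_insert_of_notMem hz]; omega
    · right; right
      refine ⟨by omega, ?_⟩
      by_contra hb
      have hz : ∃ z, z ∉ G ∧ ¬ bad A B x y (insert z G) := by
        have hc1 : A.card ≤ (A \ G).card + (A ∩ G).card := by
          rw [Finset.card_sdiff_add_card_inter]
        have hc2 : B.card ≤ (B \ G).card + (B ∩ G).card := by
          rw [Finset.card_sdiff_add_card_inter]
        have hc3 : (A ∩ G).card + (B ∩ G).card ≤ G.card := by
          rw [← Finset.card_union_of_disjoint]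
          · apply Finset.card_le_card
            intro z hz
            rcases Finset.mem_union.mp hz with h | h
            · exact Finset.mem_of_mem_inter_right h
            · exact Finset.mem_of_mem_inter_right h
          · rw [Finset.disjoint_left]
            intro z h1 h2
            exact s.dis z (Finset.mem_of_mem_inter_left h1) (Finset.mem_of_mem_inter_left h2)
        have hc4 := s.card
        rcases Nat.lt_or_ge (A \ G).card 2 with hlt | hge
        · rw [bad_symm] at hb
          obtain ⟨z, hz, hz'⟩ := s.symm.extend hb (by omega)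
          exact ⟨z, hz, by rw [bad_symm]; exact hz'⟩
        · exact s.extend hb hge
      obtain ⟨z, hz, hz'⟩ := hz
      apply hins z hz
      right; left
      refine ⟨?_, hz'⟩
      rw [Finset.card_insert_of_notMem hz]; omega
  · right; left
    refine ⟨h, h', fun hp => ?_⟩
    rcases hp with hp | hp
    · -- `G ⊆ A`, not all of `A`
      have hne : ¬ A ⊆ G := fun hc => h' (Or.inr (Or.inl hc))
      obtain ⟨a, ha, ha'⟩ := Finset.not_subset.mp hne
      apply hins a ha'
      right; right
      refine ⟨by rw [Finset.card_insert_of_notMem ha', h], Or.inl ?_⟩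
      intro z hz
      rcases Finset.mem_insert.mp hz with h | h
      · exact h ▸ ha
      · exact hp h
    · have hne : ¬ B ⊆ G := fun hc => h' (Or.inr (Or.inr hc))
      obtain ⟨a, ha, ha'⟩ := Finset.not_subset.mp hne
      apply hins a ha'
      right; right
      refine ⟨by rw [Finset.card_insert_of_notMem ha', h], Or.inr ?_⟩
      intro z hz
      rcases Finset.mem_insert.mp hz with h | h
      · exact h ▸ ha
      · exact hp h
  · exact Or.inl ⟨h, h'⟩

/-- a mixed bad set contains a bad set with one element less -/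
theorem Setup.sub_bad (s : Setup A B x y) {F : Finset V} (h3 : 3 ≤ F.card) (hb : bad A B x y F)
    (hp : ¬ pur A B F) : ∃ G ⊆ F, G.card + 1 = F.card ∧ bad A B x y G := by
  obtain ⟨⟨a, ha, ha'⟩, b, hb1, hb2⟩ := s.not_pur hp
  rcases hb with ⟨h1, h2⟩ | h | h
  · obtain ⟨z, hz, hzx, hzy⟩ : ∃ z ∈ F, z ≠ x ∧ z ≠ y := by
      by_contra hc
      push Not at hc
      have : F ⊆ {x, y} := by
        intro z hz
        rw [Finset.mem_insert, Finset.mem_singleton]
        by_cases h : z = x
        · exact Or.inl h
        · exact Or.inr (hc z hz h)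
      have := Finset.card_le_card this
      have := Finset.card_le_two (a := x) (b := y)
      omega
    refine ⟨F.erase z, Finset.erase_subset _ _, Finset.card_erase_add_one hz, Or.inl ⟨?_, ?_⟩⟩
    · exact Finset.mem_erase.mpr ⟨hzx.symm, h1⟩
    · exact Finset.mem_erase.mpr ⟨hzy.symm, h2⟩
  · refine ⟨F.erase b, Finset.erase_subset _ _, Finset.card_erase_add_one hb1, Or.inr (Or.inl ?_)⟩
    intro z hz
    exact Finset.mem_erase.mpr ⟨fun hc => s.dis z hz (hc ▸ hb2), h hz⟩
  · refine ⟨F.erase a, Finset.erase_subset _ _, Finset.card_erase_add_one ha, Or.inr (Or.inr ?_)⟩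
    intro z hz
    exact Finset.mem_erase.mpr ⟨fun hc => s.dis z (hc ▸ ha') hz, h hz⟩

/-- The general step of the orbit. -/
theorem nfc_T (s : Setup A B x y) {r : ℕ} (hr : 2 ≤ r) (hN : r + 3 ≤ Fintype.card V) :
    nfc (T A B x y (r + 1)) = T A B x y r := by
  ext F
  constructor
  · intro hF
    have hmixed : ∀ F' : Finset V, F' ⊆ F → F'.card = r + 1 → ¬ pur A B F' → False := by
      intro F' hs hc hp
      by_cases hb : bad A B x y F'
      · obtain ⟨G, hG, hG1, hG2⟩ := s.sub_bad (by omega) hb hp
        exact hF G (facet_bad s (r + 1) (by omega) hG2) (hG.trans hs)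
      · exact hF F' (facet_mid (r + 1) hc hb hp) hs
    rcases lt_trichotomy F.card r with h | h | h
    · exact Or.inl h
    · right; left
      refine ⟨h, fun hb => ?_⟩
      exact hF F (facet_bad s (r + 1) (by omega) hb) (Finset.Subset.refl F)
    · rcases Nat.lt_or_ge (r + 1) F.card with h1 | h1
      · exfalso
        by_cases hp : pur A B F
        · obtain ⟨G, hG, hGc⟩ := Finset.exists_subset_card_eq (n := r + 2) (s := F) (by omega)
          exact hF G (facet_pur (r + 1) hGc (hp.imp (fun h => hG.trans h) (fun h => hG.trans h))) hG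
        · obtain ⟨⟨a, ha, ha'⟩, b, hb1, hb2⟩ := s.not_pur hp
          have hab : ({a, b} : Finset V) ⊆ F := by
            intro z hz
            rw [Finset.mem_insert, Finset.mem_singleton] at hz
            rcases hz with rfl | rfl <;> assumption
          have hc2 : ({a, b} : Finset V).card ≤ r + 1 := by
            have := Finset.card_le_two (a := a) (b := b)
            omega
          obtain ⟨G, hG1, hG2, hG3⟩ := Finset.exists_subsuperset_card_eq hab hc2 (by omega)
          exact hmixed G hG2 hG3 (s.not_pur' (hG1 (by simp)) ha' (hG1 (by simp)) hb2)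
      · right; right
        have hc : F.card = r + 1 := by omega
        refine ⟨hc, ?_⟩
        by_contra hp
        exact hmixed F (Finset.Subset.refl F) hc hp
  · intro hF G hG hs
    have hc := Finset.card_le_card hs
    rcases facet_cases s (by omega) (by omega) hG with ⟨h1, h2⟩ | ⟨h1, h2, h3⟩ | ⟨h1, h2⟩
    · rcases hF with h | ⟨h, _⟩ | ⟨h, _⟩ <;> omega
    · rcases hF with h | ⟨h, _⟩ | ⟨h, h'⟩
      · omega
      · omega
      · have := Finset.eq_of_subset_of_card_le hs (by omega)
        exact h3 (this ▸ h')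
    · rcases hF with h | ⟨h, h'⟩ | ⟨h, h'⟩
      · omega
      · have := Finset.eq_of_subset_of_card_le hs (by omega)
        exact h' (this ▸ h2)
      · rcases h2 with h2 | h2 | h2
        · exact s.not_pur' (hs h2.1) s.hx (hs h2.2) s.hy h'
        · rcases h' with h' | h'
          · have := Finset.card_le_card (h'.trans h2)
            omega
          · exact s.dis x s.hx (h' (hs (h2 s.hx)))
        · rcases h' with h' | h'
          · exact s.dis y (h' (hs (h2 s.hy))) s.hy
          · have := Finset.card_le_card (h'.trans h2)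
            omega

end

end Pool.Agent.Q14.NF
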