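import Pool.Agent.Q14.NFOrbit

/-!
The NF-number of the dumbbell graph.
-/

set_option linter.unusedSectionVars false

namespace Pool.Agent.Q14.NF

open Finset

section

variable {V : Type*} [Fintype V] [DecidableEq V] {A B : Finset V} {x y : V}

/-- the orbit: `nfc^[k]` for `5 ≤ k ≤ N + 1` -/
theorem iter_T (s : Setup A B x y) (hN : 5 ≤ Fintype.card V) (j : ℕ) (hj : j + 4 ≤ Fintype.card V) :
    nfc^[j + 5] (C0 A B x y) = T A B x y (Fintype.card V - 2 - j) := by
  induction j with
  | zero =>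
    show nfc (nfc (nfc (nfc (nfc (C0 A B x y))))) = _
    rw [nfc_C0 s, nfc_C1 s, nfc_C2 s, nfc_C3 s, nfc_C4 s (r := Fintype.card V - 2) (by omega)]
    rfl
  | succ j ih =>
    rw [show j + 1 + 5 = (j + 5) + 1 by ring, Function.iterate_succ_apply', ih (by omega)]
    have : Fintype.card V - 2 - j = (Fintype.card V - 2 - (j + 1)) + 1 := by omega
    rw [this, nfc_T s (by omega) (by omega)]

theorem iter_last (s : Setup A B x y) (hN : 5 ≤ Fintype.card V) :
    nfc^[Fintype.card V + 2] (C0 A B x y) = C0 A B x y := by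
  have h := iter_T s hN (Fintype.card V - 4) (by omega)
  have e : Fintype.card V + 2 = (Fintype.card V - 4 + 5) + 1 := by omega
  rw [e, Function.iterate_succ_apply', h]
  have : Fintype.card V - 2 - (Fintype.card V - 4) = 2 := by omega
  rw [this, nfc_T2 s (by omega)]

theorem Iso.card {D E : Set (Finset V)} (h : Iso D E) {F : Finset V} (hF : F ∈ D) :
    ∃ F' ∈ E, F'.card = F.card := by
  obtain ⟨π, h⟩ := h
  exact ⟨_, (h F).mp hF, Finset.card_map _⟩

/-- a complex with a face of size `≥ 3` is not isomorphic to the dumbbell graph -/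
theorem not_iso_of_big {D : Set (Finset V)} {F : Finset V} (hF : F ∈ D) (h3 : 3 ≤ F.card) :
    ¬ Iso D (C0 A B x y) := by
  intro h
  obtain ⟨F', h1, h2⟩ := h.card hF
  rcases h1 with h | ⟨h, _⟩ <;> omega

theorem Setup.big_side (s : Setup A B x y) (hN : 5 ≤ Fintype.card V) :
    3 ≤ A.card ∨ 3 ≤ B.card := by
  have := s.card
  omega

theorem not_iso_C1 (s : Setup A B x y) (hN : 5 ≤ Fintype.card V) :
    ¬ Iso (C1 A B x y) (C0 A B x y) := by
  rintro ⟨π, h⟩
  -- a triangle in the dumbbell graph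
  obtain ⟨u, v, w, huv, huw, hvw, hs⟩ : ∃ u v w : V, u ≠ v ∧ u ≠ w ∧ v ≠ w ∧
      ((u ∈ A ∧ v ∈ A ∧ w ∈ A) ∨ (u ∈ B ∧ v ∈ B ∧ w ∈ B)) := by
    rcases s.big_side hN with h | h
    · obtain ⟨a, b, c, ha, hb, hc, hab, hac, hbc⟩ := Finset.two_lt_card_iff.mp h
      exact ⟨a, b, c, hab, hac, hbc, Or.inl ⟨ha, hb, hc⟩⟩
    · obtain ⟨a, b, c, ha, hb, hc, hab, hac, hbc⟩ := Finset.two_lt_card_iff.mp h
      exact ⟨a, b, c, hab, hac, hbc, Or.inr ⟨ha, hb, hc⟩⟩
  have hpair : ∀ p q : V, p ≠ q → ((p ∈ A ∧ q ∈ A) ∨ (p ∈ B ∧ q ∈ B)) →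
      ({π.symm p, π.symm q} : Finset V) ∈ C1 A B x y := by
    intro p q hpq hsame
    rw [h]
    have : ({π.symm p, π.symm q} : Finset V).map π.toEmbedding = {p, q} := by
      simp [Finset.map_insert]
    rw [this]
    exact Or.inr ⟨Finset.card_pair hpq, Or.inl (pair_pur hsame)⟩
  have h1 := hpair u v huv (by tauto)
  have h2 := hpair u w huw (by tauto)
  have h3 := hpair v w hvw (by tauto)
  have n1 : π.symm u ≠ π.symm v := fun h => huv (π.symm.injective h)
  have n2 : π.symm u ≠ π.symm w := fun h => huw (π.symm.injective h)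
  have n3 : π.symm v ≠ π.symm w := fun h => hvw (π.symm.injective h)
  have k1 := h1.1 (π.symm u) (by simp) (π.symm v) (by simp)
  have k2 := h2.1 (π.symm u) (by simp) (π.symm w) (by simp)
  have k3 := h3.1 (π.symm v) (by simp) (π.symm w) (by simp)
  rcases s.cov (π.symm u) with a1 | a1 <;> rcases s.cov (π.symm v) with a2 | a2 <;>
    rcases s.cov (π.symm w) with a3 | a3
  · exact n1 (k1.1 a1 a2)
  · exact n1 (k1.1 a1 a2)
  · exact n2 (k2.1 a1 a3)
  · exact n3 (k3.2 a2 a3)
  · exact n3 (k3.1 a2 a3)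
  · exact n2 (k2.2 a1 a3)
  · exact n1 (k1.2 a1 a2)
  · exact n1 (k1.2 a1 a2)

theorem card_compl_pair {u v : V} (h : u ≠ v) : (({u, v} : Finset V)ᶜ).card = Fintype.card V - 2 := by
  rw [Finset.card_compl, Finset.card_pair h]

theorem compl_xy_not_bad (s : Setup A B x y) {F : Finset V} (hF : F ⊆ ({x, y} : Finset V)ᶜ) :
    ¬ bad A B x y F := by
  have hx : x ∉ F := fun h => by have := hF h; simp at this
  have hy : y ∉ F := fun h => by have := hF h; simp at this
  rintro (⟨h, _⟩ | h | h)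
  · exact hx h
  · exact hx (h s.hx)
  · exact hy (h s.hy)

theorem not_iso (s : Setup A B x y) (hN : 5 ≤ Fintype.card V) (k : ℕ) (hk : 0 < k)
    (hk' : k < Fintype.card V + 2) : ¬ Iso (nfc^[k] (C0 A B x y)) (C0 A B x y) := by
  rcases Nat.lt_or_ge k 5 with h | h
  · obtain rfl | rfl | rfl | rfl : k = 1 ∨ k = 2 ∨ k = 3 ∨ k = 4 := by omega
    · show ¬ Iso (nfc (C0 A B x y)) _
      rw [nfc_C0 s]
      exact not_iso_C1 s hN
    · show ¬ Iso (nfc (nfc (C0 A B x y))) _
      rw [nfc_C0 s, nfc_C1 s]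
      rcases s.big_side hN with h | h
      · exact not_iso_of_big (F := A) (Or.inl (Finset.Subset.refl A)) h
      · exact not_iso_of_big (F := B) (Or.inr (Or.inl (Finset.Subset.refl B))) h
    · show ¬ Iso (nfc (nfc (nfc (C0 A B x y)))) _
      rw [nfc_C0 s, nfc_C1 s, nfc_C2 s]
      apply not_iso_of_big (F := ({x, y} : Finset V)ᶜ) (compl_xy_not_bad s (Finset.Subset.refl _))
      rw [card_compl_pair s.xy]; omega
    · show ¬ Iso (nfc (nfc (nfc (nfc (C0 A B x y))))) _
      rw [nfc_C0 s, nfc_C1 s, nfc_C2 s, nfc_C3 s]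
      obtain ⟨a, ha, hne⟩ := s.other x
      have hg := good_of_same s hne.symm (Or.inl ⟨s.hx, ha⟩)
      apply not_iso_of_big (good_mem s hg)
      rw [card_compl_pair hne.symm]; omega
  · obtain ⟨j, rfl⟩ : ∃ j, k = j + 5 := ⟨k - 5, by omega⟩
    rw [iter_T s hN j (by omega)]
    obtain ⟨r, hr⟩ : ∃ r, r = Fintype.card V - 2 - j := ⟨_, rfl⟩
    rw [← hr]
    rcases Nat.lt_or_ge r 3 with h3 | h3
    · have hr2 : r = 2 := by omega
      subst hr2
      obtain ⟨F, hF, hFc⟩ : ∃ F : Finset V, pur A B F ∧ F.card = 3 := by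
        rcases s.big_side hN with h | h
        · obtain ⟨F, hF, hFc⟩ := Finset.exists_subset_card_eq h
          exact ⟨F, Or.inl hF, hFc⟩
        · obtain ⟨F, hF, hFc⟩ := Finset.exists_subset_card_eq h
          exact ⟨F, Or.inr hF, hFc⟩
      exact not_iso_of_big (F := F) (Or.inr (Or.inr ⟨hFc, hF⟩)) (by omega)
    · obtain ⟨F, hF, hFc⟩ := Finset.exists_subset_card_eq (n := 3) (s := ({x, y} : Finset V)ᶜ)
        (by rw [card_compl_pair s.xy]; omega)
      have hb := compl_xy_not_bad s hF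
      apply not_iso_of_big (F := F) _ (by omega)
      rcases Nat.lt_or_ge 3 r with h4 | h4
      · exact Or.inl (by omega)
      · exact Or.inr (Or.inl ⟨by omega, hb⟩)

theorem nfNumber_C0 (s : Setup A B x y) (hN : 5 ≤ Fintype.card V) :
    nfNumber (C0 A B x y) = Fintype.card V + 2 := by
  have hmem : Fintype.card V + 2 ∈ {q : ℕ | 0 < q ∧ Iso (nfc^[q] (C0 A B x y)) (C0 A B x y)} := by
    refine ⟨by omega, ?_⟩
    rw [iter_last s hN]
    exact ⟨Equiv.refl V, fun F => by simp⟩
  apply le_antisymm (Nat.sInf_le hmem)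
  apply le_csInf ⟨_, hmem⟩
  rintro q ⟨hq, hiso⟩
  by_contra hc
  exact not_iso s hN q hq (by omega) hiso

end

/-- The relation generating the dumbbell graph: all pairs inside the first side, all pairs inside
the second side and the bridge between the two first vertices. -/
def dumbbellRel (n m : ℕ) : Fin n ⊕ Fin m → Fin n ⊕ Fin m → Prop
  | .inl _, .inl _ => True
  | .inr _, .inr _ => True
  | .inl i, .inr j => (i : ℕ) = 0 ∧ (j : ℕ) = 0
  | .inr _, .inl _ => False

/-- The dumbbell graph `B_{n,m}`: two complete graphs on `n` and `m` vertices joined by an edge. -/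
def dumbbell (n m : ℕ) : SimpleGraph (Fin n ⊕ Fin m) := SimpleGraph.fromRel (dumbbellRel n m)

theorem dumbbell_setup {n m : ℕ} (hn : 2 ≤ n) (hm : 2 ≤ m) :
    Setup (Finset.univ.image (Sum.inl : Fin n → Fin n ⊕ Fin m))
      (Finset.univ.image (Sum.inr : Fin m → Fin n ⊕ Fin m))
      (Sum.inl ⟨0, by omega⟩) (Sum.inr ⟨0, by omega⟩) where
  hx := by simp
  hy := by simp
  dis := by
    intro v h1 h2
    simp only [Finset.mem_image, Finset.mem_univ, true_and] at h1 h2
    obtain ⟨a, rfl⟩ := h1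
    obtain ⟨b, hb⟩ := h2
    cases hb
  cov := by
    intro v
    rcases v with a | b
    · left; simp
    · right; simp
  hA := by
    rw [Finset.card_image_of_injective _ Sum.inl_injective]; simpa using hn
  hB := by
    rw [Finset.card_image_of_injective _ Sum.inr_injective]; simpa using hm

theorem graphComplex_dumbbell {n m : ℕ} (hn : 2 ≤ n) (hm : 2 ≤ m) :
    graphComplex (dumbbell n m) = C0 (Finset.univ.image (Sum.inl : Fin n → Fin n ⊕ Fin m))
      (Finset.univ.image (Sum.inr : Fin m → Fin n ⊕ Fin m))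
      (Sum.inl ⟨0, by omega⟩) (Sum.inr ⟨0, by omega⟩) := by
  have s := dumbbell_setup hn hm
  -- adjacency
  have hadj : ∀ u v, (dumbbell n m).Adj u v ↔ u ≠ v ∧
      (pur (Finset.univ.image (Sum.inl : Fin n → Fin n ⊕ Fin m))
        (Finset.univ.image (Sum.inr : Fin m → Fin n ⊕ Fin m)) {u, v} ∨
        ((Sum.inl ⟨0, by omega⟩ : Fin n ⊕ Fin m) ∈ ({u, v} : Finset (Fin n ⊕ Fin m)) ∧
         (Sum.inr ⟨0, by omega⟩ : Fin n ⊕ Fin m) ∈ ({u, v} : Finset (Fin n ⊕ Fin m)))) := by
    intro u v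
    rcases u with a | a <;> rcases v with b | b
    · simp [dumbbell, dumbbellRel, pur, Finset.insert_subset_iff]
    · simp [dumbbell, dumbbellRel, pur, Finset.insert_subset_iff, Fin.ext_iff, eq_comm]
    · simp [dumbbell, dumbbellRel, pur, Finset.insert_subset_iff, Fin.ext_iff, eq_comm, and_comm]
    · simp [dumbbell, dumbbellRel, pur, Finset.insert_subset_iff]
  ext F
  constructor
  · rintro ⟨u, v, huv, hF⟩
    have hs : F ⊆ {u, v} := by
      intro z hz
      rw [Finset.mem_insert, Finset.mem_singleton]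
      exact hF z hz
    rw [hadj] at huv
    have hc := Finset.card_le_card hs
    rw [Finset.card_pair huv.1] at hc
    rcases Nat.lt_or_ge F.card 2 with h | h
    · exact Or.inl (by omega)
    · have he := Finset.eq_of_subset_of_card_le hs (by rw [Finset.card_pair huv.1]; exact h)
      exact Or.inr ⟨by omega, by rw [he]; exact huv.2⟩
  · intro hF
    obtain ⟨G, hG, hs⟩ : ∃ G, IsFacet (C0 (Finset.univ.image (Sum.inl : Fin n → Fin n ⊕ Fin m))
      (Finset.univ.image (Sum.inr : Fin m → Fin n ⊕ Fin m))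
      (Sum.inl ⟨0, by omega⟩) (Sum.inr ⟨0, by omega⟩)) G ∧ F ⊆ G := by
      by_contra hc
      push Not at hc
      -- if no facet contained `F` then `F` would be a facet itself
      have hfin : ∀ k : ℕ, ∀ G : Finset (Fin n ⊕ Fin m), G ∈ (C0 (Finset.univ.image (Sum.inl : Fin n → Fin n ⊕ Fin m))
        (Finset.univ.image (Sum.inr : Fin m → Fin n ⊕ Fin m))
        (Sum.inl ⟨0, by omega⟩) (Sum.inr ⟨0, by omega⟩)) → F ⊆ G → 2 ≤ G.card + k → False := by
        intro k
        induction k with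
        | zero =>
          intro G hG hs h2
          refine hc G ((facet_C0 s).mpr ?_) hs
          rcases hG with h | h
          · omega
          · exact h
        | succ k ih =>
          intro G hG hs h2
          by_cases hf : IsFacet (C0 (Finset.univ.image (Sum.inl : Fin n → Fin n ⊕ Fin m))
            (Finset.univ.image (Sum.inr : Fin m → Fin n ⊕ Fin m))
            (Sum.inl ⟨0, by omega⟩) (Sum.inr ⟨0, by omega⟩)) G
          · exact hc G hf hs
          · unfold IsFacet at hf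
            push Not at hf
            obtain ⟨H, hH, hGH, hne⟩ := hf hG
            refine ih H hH (hs.trans hGH) ?_
            have := Finset.card_lt_card (Finset.ssubset_iff_subset_ne.mpr ⟨hGH, hne.symm⟩)
            omega
      exact hfin 2 F hF (Finset.Subset.refl F) (by omega)
    obtain ⟨h1, h2⟩ := (facet_C0 s).mp hG
    obtain ⟨u, v, huv, rfl⟩ := Finset.card_eq_two.mp h1
    refine ⟨u, v, (hadj u v).mpr ⟨huv, h2⟩, fun w hw => ?_⟩
    have := hs hw
    rwa [Finset.mem_insert, Finset.mem_singleton] at this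

theorem nfNumber_dumbbell {n m : ℕ} (hn : 2 ≤ n) (hm : 2 ≤ m) (h : (n, m) ≠ (2, 2)) :
    nfNumber (graphComplex (dumbbell n m)) = n + m + 2 := by
  have hN : 5 ≤ Fintype.card (Fin n ⊕ Fin m) := by
    simp only [Fintype.card_sum, Fintype.card_fin]
    by_contra hc
    apply h
    have h1 : n = 2 := by omega
    have h2 : m = 2 := by omega
    rw [h1, h2]
  rw [graphComplex_dumbbell hn hm, nfNumber_C0 (dumbbell_setup hn hm) hN]
  simp

end Pool.Agent.Q14.NF
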