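import Pool.Agent.Q14.NFDefs

/-!
The full orbit of the dumbbell graph under the NF operation.
-/

set_option linter.unusedSectionVars false

namespace Pool.Agent.Q14.NF

open Finset

variable {V : Type*} [Fintype V] [DecidableEq V] {A B : Finset V} {x y : V}

/-- the dumbbell complex -/
def C0 (A B : Finset V) (x y : V) : Set (Finset V) :=
  {F | F.card ≤ 1 ∨ (F.card = 2 ∧ (pur A B F ∨ (x ∈ F ∧ y ∈ F)))}

def C1 (A B : Finset V) (x y : V) : Set (Finset V) :=
  {F | (∀ a ∈ F, ∀ a' ∈ F, (a ∈ A → a' ∈ A → a = a') ∧ (a ∈ B → a' ∈ B → a = a')) ∧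
    ¬ (x ∈ F ∧ y ∈ F)}

def C2 (A B : Finset V) (x y : V) : Set (Finset V) := {F | F ⊆ A ∨ F ⊆ B ∨ F ⊆ {x, y}}

def C3 (A B : Finset V) (x y : V) : Set (Finset V) := {F | ¬ bad A B x y F}

def C4 (A B : Finset V) (x y : V) : Set (Finset V) :=
  {F | ∀ a ∈ A, ∀ b ∈ B, (a = x ∨ b = y) → ¬ (Fᶜ ⊆ {a, b})}

theorem pair_pur {a b : V} (h : (a ∈ A ∧ b ∈ A) ∨ (a ∈ B ∧ b ∈ B)) : pur A B {a, b} := by
  rcases h with ⟨h1, h2⟩ | ⟨h1, h2⟩
  · left; intro z hz
    rw [Finset.mem_insert, Finset.mem_singleton] at hz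
    rcases hz with rfl | rfl <;> assumption
  · right; intro z hz
    rw [Finset.mem_insert, Finset.mem_singleton] at hz
    rcases hz with rfl | rfl <;> assumption

/-- facets of the dumbbell graph: its edges -/
theorem facet_C0 (s : Setup A B x y) {G : Finset V} :
    IsFacet (C0 A B x y) G ↔ G.card = 2 ∧ (pur A B G ∨ (x ∈ G ∧ y ∈ G)) := by
  constructor
  · rintro ⟨hG, hmax⟩
    rcases hG with h | h
    · exfalso
      obtain ⟨v, hv⟩ : ∃ v, G ⊆ {v} := by
        rcases Nat.eq_zero_or_pos G.card with h0 | h0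
        · rw [Finset.card_eq_zero] at h0; exact ⟨x, by rw [h0]; exact Finset.empty_subset _⟩
        · obtain ⟨v, hv⟩ := Finset.card_eq_one.mp (by omega : G.card = 1)
          exact ⟨v, by rw [hv]⟩
      obtain ⟨w, hw, hwv⟩ : ∃ w, w ≠ v ∧ ((v ∈ A ∧ w ∈ A) ∨ (v ∈ B ∧ w ∈ B)) := by
        rcases s.cov v with h1 | h1
        · obtain ⟨w, hw, hne⟩ := s.other v
          exact ⟨w, hne, Or.inl ⟨h1, hw⟩⟩
        · obtain ⟨w, hw, hne⟩ := s.symm.other v
          exact ⟨w, hne, Or.inr ⟨h1, hw⟩⟩
      have hc : ({v, w} : Finset V).card = 2 := Finset.card_pair hw.symm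
      have := hmax {v, w} (Or.inr ⟨hc, Or.inl (pair_pur hwv)⟩)
        (hv.trans (by intro z hz; rw [Finset.mem_singleton] at hz; rw [hz]; simp))
      rw [← this] at h
      omega
    · exact h
  · rintro ⟨h1, h2⟩
    refine ⟨Or.inr ⟨h1, h2⟩, fun H hH hs => ?_⟩
    have hc := Finset.card_le_card hs
    rcases hH with h | ⟨h, _⟩
    · omega
    · exact (Finset.eq_of_subset_of_card_le hs (by omega)).symm

theorem nfc_C0 (s : Setup A B x y) : nfc (C0 A B x y) = C1 A B x y := by
  ext F
  constructor
  · intro hF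
    refine ⟨fun a ha a' ha' => ⟨fun h1 h2 => ?_, fun h1 h2 => ?_⟩, fun h => ?_⟩
    · by_contra hne
      refine hF {a, a'} ((facet_C0 s).mpr ⟨Finset.card_pair hne, Or.inl (pair_pur (Or.inl ⟨h1, h2⟩))⟩) ?_
      intro z hz
      rw [Finset.mem_insert, Finset.mem_singleton] at hz
      rcases hz with rfl | rfl <;> assumption
    · by_contra hne
      refine hF {a, a'} ((facet_C0 s).mpr ⟨Finset.card_pair hne, Or.inl (pair_pur (Or.inr ⟨h1, h2⟩))⟩) ?_
      intro z hz
      rw [Finset.mem_insert, Finset.mem_singleton] at hz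
      rcases hz with rfl | rfl <;> assumption
    · refine hF {x, y} ((facet_C0 s).mpr ⟨Finset.card_pair s.xy, Or.inr (by simp)⟩) ?_
      intro z hz
      rw [Finset.mem_insert, Finset.mem_singleton] at hz
      rcases hz with rfl | rfl
      · exact h.1
      · exact h.2
  · rintro ⟨hF1, hF2⟩ G hG hs
    obtain ⟨h1, h2⟩ := (facet_C0 s).mp hG
    rcases h2 with h2 | h2
    · obtain ⟨a, b, hab, rfl⟩ := Finset.card_eq_two.mp h1
      have ha : a ∈ F := hs (by simp)
      have hb : b ∈ F := hs (by simp)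
      rcases h2 with h2 | h2
      · exact hab ((hF1 a ha b hb).1 (h2 (by simp)) (h2 (by simp)))
      · exact hab ((hF1 a ha b hb).2 (h2 (by simp)) (h2 (by simp)))
    · exact hF2 ⟨hs h2.1, hs h2.2⟩

theorem pair_C1 (s : Setup A B x y) {a b : V} (ha : a ∈ A) (hb : b ∈ B) (hne : ¬ (a = x ∧ b = y)) :
    ({a, b} : Finset V) ∈ C1 A B x y := by
  refine ⟨?_, ?_⟩
  · intro u hu v hv
    rw [Finset.mem_insert, Finset.mem_singleton] at hu hv
    rcases hu with rfl | rfl <;> rcases hv with rfl | rfl
    · exact ⟨fun _ _ => rfl, fun _ _ => rfl⟩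
    · exact ⟨fun _ h => (s.dis _ h hb).elim, fun h _ => (s.dis _ ha h).elim⟩
    · exact ⟨fun h _ => (s.dis _ h hb).elim, fun _ h => (s.dis _ ha h).elim⟩
    · exact ⟨fun _ _ => rfl, fun _ _ => rfl⟩
  · rintro ⟨h1, h2⟩
    rw [Finset.mem_insert, Finset.mem_singleton] at h1 h2
    apply hne
    constructor
    · rcases h1 with h1 | h1
      · exact h1.symm
      · exact (s.dis x s.hx (h1 ▸ hb)).elim
    · rcases h2 with h2 | h2
      · exact (s.dis y (h2 ▸ ha) s.hy).elim
      · exact h2.symm

theorem C1_card (s : Setup A B x y) {H : Finset V} (h : H ∈ C1 A B x y) {a b : V} (ha : a ∈ A)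
    (hb : b ∈ B) (haH : a ∈ H) (hbH : b ∈ H) : H = {a, b} := by
  ext z
  rw [Finset.mem_insert, Finset.mem_singleton]
  constructor
  · intro hz
    rcases s.cov z with h1 | h1
    · exact Or.inl ((h.1 z hz a haH).1 h1 ha)
    · exact Or.inr ((h.1 z hz b hbH).2 h1 hb)
  · rintro (rfl | rfl) <;> assumption

theorem nfc_C1 (s : Setup A B x y) : nfc (C1 A B x y) = C2 A B x y := by
  ext F
  constructor
  · intro hF
    by_cases hp : pur A B F
    · rcases hp with h | h
      · exact Or.inl h
      · exact Or.inr (Or.inl h)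
    · right; right
      have key : ∀ a ∈ F, ∀ b ∈ F, a ∈ A → b ∈ B → a = x ∧ b = y := by
        intro a ha b hb ha' hb'
        by_contra hne
        apply hF {a, b}
        · refine ⟨pair_C1 s ha' hb' hne, fun H hH hs => ?_⟩
          exact C1_card s hH ha' hb' (hs (by simp)) (hs (by simp))
        · intro z hz
          rw [Finset.mem_insert, Finset.mem_singleton] at hz
          rcases hz with rfl | rfl <;> assumption
      obtain ⟨⟨a, ha, ha'⟩, b, hb, hb'⟩ := s.not_pur hp
      intro z hz
      rw [Finset.mem_insert, Finset.mem_singleton]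
      rcases s.cov z with h | h
      · exact Or.inl (key z hz b hb h hb').1
      · exact Or.inr (key a ha z hz ha' h).2
  · intro hF G hG hs
    -- a facet of `C1` contains an element of `A` and one of `B`, not both marked
    obtain ⟨hG, hmax⟩ := hG
    have hmix : ∃ a ∈ G, ∃ b ∈ G, a ∈ A ∧ b ∈ B := by
      by_contra hc
      push Not at hc
      rcases G.eq_empty_or_nonempty with h0 | ⟨v, hv⟩
      · subst h0
        obtain ⟨a, ha, hne⟩ := s.other x
        have := hmax _ (pair_C1 s ha s.hy (fun h => hne h.1)) (Finset.empty_subset _)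
        have h2 : a ∈ ({a, y} : Finset V) := by simp
        rw [this] at h2
        simp at h2
      · rcases s.cov v with h | h
        · have hall : G = {v} := by
            ext z
            rw [Finset.mem_singleton]
            refine ⟨fun hz => ?_, fun hz => hz ▸ hv⟩
            rcases s.cov z with h1 | h1
            · exact (hG.1 z hz v hv).1 h1 h
            · exact absurd h1 (hc v hv z hz h)
          obtain ⟨b, hb, hne⟩ := s.symm.other y
          have := hmax _ (pair_C1 s h hb (fun h => hne h.2)) (by rw [hall]; intro z hz; rw [Finset.mem_singleton] at hz; rw [hz]; simp)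
          have h2 : b ∈ ({v, b} : Finset V) := by simp
          rw [this, hall, Finset.mem_singleton] at h2
          exact s.dis v h (h2 ▸ hb)
        · have hall : G = {v} := by
            ext z
            rw [Finset.mem_singleton]
            refine ⟨fun hz => ?_, fun hz => hz ▸ hv⟩
            rcases s.cov z with h1 | h1
            · exact absurd h (hc z hz v hv h1)
            · exact (hG.1 z hz v hv).2 h1 h
          obtain ⟨b, hb, hne⟩ := s.other x
          have := hmax _ (pair_C1 s hb h (fun h => hne h.1)) (by rw [hall]; intro z hz; rw [Finset.mem_singleton] at hz; rw [hz]; simp)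
          have h2 : b ∈ ({b, v} : Finset V) := by simp
          rw [this, hall, Finset.mem_singleton] at h2
          exact s.dis v (h2 ▸ hb) h
    obtain ⟨a, ha, b, hb, ha', hb'⟩ := hmix
    rcases hF with h | h | h
    · exact s.dis b (h (hs hb)) hb'
    · exact s.dis a ha' (h (hs ha))
    · have h1 := h (hs ha)
      have h2 := h (hs hb)
      rw [Finset.mem_insert, Finset.mem_singleton] at h1 h2
      have e1 : a = x := h1.resolve_right (fun hc => s.dis a ha' (hc ▸ s.hy))
      have e2 : b = y := h2.resolve_left (fun hc => s.dis b (hc ▸ s.hx) hb')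
      exact hG.2 ⟨e1 ▸ ha, e2 ▸ hb⟩

theorem Setup.A_not_sub (s : Setup A B x y) (a : V) {b : V} (hb : b ∈ B) : ¬ A ⊆ {a, b} := by
  intro h
  obtain ⟨a', ha', hne⟩ := s.other a
  have := h ha'
  rw [Finset.mem_insert, Finset.mem_singleton] at this
  rcases this with h1 | h1
  · exact hne h1
  · exact s.dis a' ha' (h1 ▸ hb)

theorem Setup.B_not_sub (s : Setup A B x y) {a : V} (b : V) (ha : a ∈ A) : ¬ B ⊆ {a, b} := by
  rw [Finset.pair_comm]
  exact s.symm.A_not_sub b ha

theorem nfc_C2 (s : Setup A B x y) : nfc (C2 A B x y) = C3 A B x y := by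
  have fA : IsFacet (C2 A B x y) A := by
    refine ⟨Or.inl (Finset.Subset.refl A), fun H hH hs => ?_⟩
    rcases hH with h | h | h
    · exact (Finset.Subset.antisymm hs h).symm
    · exact (s.dis x s.hx (h (hs s.hx))).elim
    · exact (s.A_not_sub x s.hy (hs.trans h)).elim
  have fB : IsFacet (C2 A B x y) B := by
    refine ⟨Or.inr (Or.inl (Finset.Subset.refl B)), fun H hH hs => ?_⟩
    rcases hH with h | h | h
    · exact (s.dis y (h (hs s.hy)) s.hy).elim
    · exact (Finset.Subset.antisymm hs h).symm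
    · exact (s.B_not_sub y s.hx (hs.trans h)).elim
  have fxy : IsFacet (C2 A B x y) {x, y} := by
    refine ⟨Or.inr (Or.inr (Finset.Subset.refl _)), fun H hH hs => ?_⟩
    rcases hH with h | h | h
    · exact (s.dis y (h (hs (by simp))) s.hy).elim
    · exact (s.dis x s.hx (h (hs (by simp)))).elim
    · exact (Finset.Subset.antisymm hs h).symm
  ext F
  constructor
  · intro hF hb
    rcases hb with ⟨h1, h2⟩ | h | h
    · apply hF _ fxy
      intro z hz
      rw [Finset.mem_insert, Finset.mem_singleton] at hz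
      rcases hz with rfl | rfl <;> assumption
    · exact hF _ fA h
    · exact hF _ fB h
  · intro hF G hG hs
    apply hF
    obtain ⟨hG, hmax⟩ := hG
    rcases hG with h | h | h
    · have := hmax A fA.1 h
      exact Or.inr (Or.inl (this ▸ hs))
    · have := hmax B fB.1 h
      exact Or.inr (Or.inr (this ▸ hs))
    · have := hmax _ fxy.1 h
      rw [← this] at hs
      exact Or.inl ⟨hs (by simp), hs (by simp)⟩

theorem facet_C3 (s : Setup A B x y) {G : Finset V} :
    IsFacet (C3 A B x y) G ↔ ∃ a ∈ A, ∃ b ∈ B, (a = x ∨ b = y) ∧ G = ({a, b} : Finset V)ᶜ := by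
  have hmem : ∀ a ∈ A, ∀ b ∈ B, (a = x ∨ b = y) → ({a, b} : Finset V)ᶜ ∈ C3 A B x y := by
    intro a ha b hb hab hbad
    rcases hbad with ⟨h1, h2⟩ | h | h
    · rw [Finset.mem_compl, Finset.mem_insert, Finset.mem_singleton] at h1 h2
      rcases hab with rfl | rfl
      · exact h1 (Or.inl rfl)
      · exact h2 (Or.inr rfl)
    · have := h ha
      simp at this
    · have := h hb
      simp at this
  constructor
  · rintro ⟨hG, hmax⟩
    have hG' : ¬ bad A B x y G := hG
    unfold bad at hG'
    push Not at hG'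
    obtain ⟨h1, h2, h3⟩ := hG'
    obtain ⟨a, ha, ha'⟩ := Finset.not_subset.mp h2
    obtain ⟨b, hb, hb'⟩ := Finset.not_subset.mp h3
    have hsub : ∀ a b : V, a ∉ G → b ∉ G → G ⊆ ({a, b} : Finset V)ᶜ := by
      intro a b ha hb z hz
      rw [Finset.mem_compl, Finset.mem_insert, Finset.mem_singleton]
      rintro (rfl | rfl)
      · exact ha hz
      · exact hb hz
    by_cases hx : x ∈ G
    · have hy := h1 hx
      exact ⟨a, ha, y, s.hy, Or.inr rfl, (hmax _ (hmem a ha y s.hy (Or.inr rfl)) (hsub a y ha' hy)).symm⟩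
    · exact ⟨x, s.hx, b, hb, Or.inl rfl, (hmax _ (hmem x s.hx b hb (Or.inl rfl)) (hsub x b hx hb')).symm⟩
  · rintro ⟨a, ha, b, hb, hab, rfl⟩
    refine ⟨hmem a ha b hb hab, fun H hH hs => ?_⟩
    apply Finset.Subset.antisymm _ hs
    have hH' : ¬ bad A B x y H := hH
    unfold bad at hH'
    push Not at hH'
    obtain ⟨_, h2, h3⟩ := hH'
    have hs' : ∀ z, z ∉ H → z = a ∨ z = b := by
      intro z hz
      by_contra hc
      apply hz
      apply hs
      rw [Finset.mem_compl, Finset.mem_insert, Finset.mem_singleton]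
      exact hc
    obtain ⟨u, hu, hu'⟩ := Finset.not_subset.mp h2
    obtain ⟨v, hv, hv'⟩ := Finset.not_subset.mp h3
    have e1 : u = a := (hs' u hu').resolve_right (fun hc => s.dis u hu (hc ▸ hb))
    have e2 : v = b := (hs' v hv').resolve_left (fun hc => s.dis v (hc ▸ ha) hv)
    intro z hz
    rw [Finset.mem_compl, Finset.mem_insert, Finset.mem_singleton]
    rintro (rfl | rfl)
    · exact hu' (e1 ▸ hz)
    · exact hv' (e2 ▸ hz)

theorem nfc_C3 (s : Setup A B x y) : nfc (C3 A B x y) = C4 A B x y := by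
  ext F
  constructor
  · intro hF a ha b hb hab hs
    refine hF (({a, b} : Finset V)ᶜ) ((facet_C3 s).mpr ⟨a, ha, b, hb, hab, rfl⟩) ?_
    intro z hz
    by_contra hc
    rw [Finset.mem_compl] at hz
    exact hz (hs (Finset.mem_compl.mpr hc))
  · intro hF G hG hs
    obtain ⟨a, ha, b, hb, hab, rfl⟩ := (facet_C3 s).mp hG
    refine hF a ha b hb hab ?_
    intro z hz
    by_contra hc
    rw [Finset.mem_compl] at hz
    exact hz (hs (Finset.mem_compl.mpr hc))

/-- `P` is a pair that is not one of the special pairs -/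
def good (A B : Finset V) (x y : V) (P : Finset V) : Prop :=
  P.card = 2 ∧ ∀ a ∈ A, ∀ b ∈ B, (a = x ∨ b = y) → P ≠ {a, b}

theorem good_of_same (s : Setup A B x y) {u v : V} (h : u ≠ v)
    (h' : (u ∈ A ∧ v ∈ A) ∨ (u ∈ B ∧ v ∈ B)) : good A B x y {u, v} := by
  refine ⟨Finset.card_pair h, fun a ha b hb _ he => ?_⟩
  have h1 : a ∈ ({u, v} : Finset V) := by rw [he]; simp
  have h2 : b ∈ ({u, v} : Finset V) := by rw [he]; simp
  rw [Finset.mem_insert, Finset.mem_singleton] at h1 h2
  rcases h' with ⟨h3, h4⟩ | ⟨h3, h4⟩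
  · rcases h2 with rfl | rfl
    · exact s.dis _ h3 hb
    · exact s.dis _ h4 hb
  · rcases h1 with rfl | rfl
    · exact s.dis _ ha h3
    · exact s.dis _ ha h4

theorem good_mem (_ : Setup A B x y) {P : Finset V} (hP : good A B x y P) :
    Pᶜ ∈ C4 A B x y := by
  intro a ha b hb hab hs
  rw [compl_compl] at hs
  apply hP.2 a ha b hb hab
  apply Finset.eq_of_subset_of_card_le hs
  rw [hP.1]
  exact Finset.card_le_two

/-- a set whose complement has at most one element is not in `C4` -/
theorem not_C4 (s : Setup A B x y) {F : Finset V} (h : Fᶜ.card ≤ 1) : F ∉ C4 A B x y := by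
  intro hF
  obtain ⟨v, hv⟩ : ∃ v, Fᶜ ⊆ {v} := by
    rcases Nat.eq_zero_or_pos Fᶜ.card with h0 | h0
    · rw [Finset.card_eq_zero] at h0; exact ⟨x, by rw [h0]; exact Finset.empty_subset _⟩
    · obtain ⟨v, hv⟩ := Finset.card_eq_one.mp (by omega : Fᶜ.card = 1)
      exact ⟨v, by rw [hv]⟩
  rcases s.cov v with h1 | h1
  · exact hF v h1 y s.hy (Or.inr rfl) (hv.trans (by intro z hz; rw [Finset.mem_singleton] at hz; rw [hz]; simp))
  · exact hF x s.hx v h1 (Or.inl rfl) (hv.trans (by intro z hz; rw [Finset.mem_singleton] at hz; rw [hz]; simp))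

theorem compl_sub_of {F P : Finset V} (h : Pᶜ ⊆ F) : Fᶜ ⊆ P := by
  intro z hz
  by_contra hc
  rw [Finset.mem_compl] at hz
  exact hz (h (Finset.mem_compl.mpr hc))

theorem facet_C4 (s : Setup A B x y) {G : Finset V} :
    IsFacet (C4 A B x y) G ↔ good A B x y Gᶜ := by
  constructor
  · rintro ⟨hG, hmax⟩
    rcases Nat.lt_or_ge 2 Gᶜ.card with h | h
    · exfalso
      -- two elements of the complement on the same side
      obtain ⟨u, hu, v, hv, huv, hsame⟩ : ∃ u ∈ Gᶜ, ∃ v ∈ Gᶜ, u ≠ v ∧
          ((u ∈ A ∧ v ∈ A) ∨ (u ∈ B ∧ v ∈ B)) := by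
        obtain ⟨a, b, c, ha, hb, hc, hab, hac, hbc⟩ := Finset.two_lt_card_iff.mp h
        rcases s.cov a with a1 | a1 <;> rcases s.cov b with b1 | b1 <;> rcases s.cov c with c1 | c1
        · exact ⟨a, ha, b, hb, hab, Or.inl ⟨a1, b1⟩⟩
        · exact ⟨a, ha, b, hb, hab, Or.inl ⟨a1, b1⟩⟩
        · exact ⟨a, ha, c, hc, hac, Or.inl ⟨a1, c1⟩⟩
        · exact ⟨b, hb, c, hc, hbc, Or.inr ⟨b1, c1⟩⟩
        · exact ⟨b, hb, c, hc, hbc, Or.inl ⟨b1, c1⟩⟩
        · exact ⟨a, ha, c, hc, hac, Or.inr ⟨a1, c1⟩⟩
        · exact ⟨a, ha, b, hb, hab, Or.inr ⟨a1, b1⟩⟩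
        · exact ⟨a, ha, b, hb, hab, Or.inr ⟨a1, b1⟩⟩
      have hgood := good_of_same s huv hsame
      have := hmax _ (good_mem s hgood) (by
        intro z hz
        rw [Finset.mem_compl, Finset.mem_insert, Finset.mem_singleton]
        rintro (rfl | rfl)
        · exact (Finset.mem_compl.mp hu) hz
        · exact (Finset.mem_compl.mp hv) hz)
      rw [← this, compl_compl, hgood.1] at h
      omega
    · have h2 : Gᶜ.card = 2 := by
        by_contra hc
        exact not_C4 s (by omega) hG
      refine ⟨h2, fun a ha b hb hab he => ?_⟩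
      exact hG a ha b hb hab (by rw [he])
  · intro hP
    refine ⟨by have := good_mem s hP; rwa [compl_compl] at this, fun H hH hs => ?_⟩
    have hs' : Hᶜ ⊆ Gᶜ := Finset.compl_subset_compl.mpr hs
    have hc : 2 ≤ Hᶜ.card := by
      by_contra hc
      exact not_C4 s (by omega) hH
    have : Hᶜ = Gᶜ := Finset.eq_of_subset_of_card_le hs' (by rw [hP.1]; exact hc)
    exact compl_injective this

theorem nfc_C4 (s : Setup A B x y) {r : ℕ} (hr : r + 2 = Fintype.card V) :
    nfc (C4 A B x y) = T A B x y r := by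
  have hcompl : ∀ F : Finset V, Fᶜ.card + F.card = Fintype.card V := fun F => by
    rw [add_comm]; exact Finset.card_add_card_compl F
  ext F
  have hF' : F ∈ nfc (C4 A B x y) ↔ ∀ P, good A B x y P → ¬ Fᶜ ⊆ P := by
    constructor
    · intro hF P hP hs
      apply hF Pᶜ ((facet_C4 s).mpr (by rw [compl_compl]; exact hP))
      intro z hz
      by_contra hc
      exact (Finset.mem_compl.mp hz) (hs (Finset.mem_compl.mpr hc))
    · intro hF G hG hs
      exact hF Gᶜ ((facet_C4 s).mp hG) (Finset.compl_subset_compl.mpr hs)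
  rw [hF']
  constructor
  · intro hF
    have hc := hcompl F
    have h2 : 2 ≤ Fᶜ.card := by
      by_contra hlt
      obtain ⟨v, hv⟩ : ∃ v, Fᶜ ⊆ {v} := by
        rcases Nat.eq_zero_or_pos Fᶜ.card with h0 | h0
        · rw [Finset.card_eq_zero] at h0; exact ⟨x, by rw [h0]; exact Finset.empty_subset _⟩
        · obtain ⟨v, hv⟩ := Finset.card_eq_one.mp (by omega : Fᶜ.card = 1)
          exact ⟨v, by rw [hv]⟩
      obtain ⟨w, hw, hwv⟩ : ∃ w, v ≠ w ∧ ((v ∈ A ∧ w ∈ A) ∨ (v ∈ B ∧ w ∈ B)) := by
        rcases s.cov v with h1 | h1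
        · obtain ⟨w, hw, hne⟩ := s.other v
          exact ⟨w, hne.symm, Or.inl ⟨h1, hw⟩⟩
        · obtain ⟨w, hw, hne⟩ := s.symm.other v
          exact ⟨w, hne.symm, Or.inr ⟨h1, hw⟩⟩
      apply hF _ (good_of_same s hw hwv)
      exact hv.trans (by intro z hz; rw [Finset.mem_singleton] at hz; rw [hz]; simp)
    rcases Nat.lt_or_ge 2 Fᶜ.card with h | h
    · left; omega
    · right; left
      have h2' : Fᶜ.card = 2 := by omega
      refine ⟨by omega, ?_⟩
      have hng : ¬ good A B x y Fᶜ := fun hg => hF _ hg (Finset.Subset.refl _)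
      unfold good at hng
      push Not at hng
      obtain ⟨a, ha, b, hb, hab, he⟩ := hng h2'
      have haF : a ∉ F := by rw [← Finset.mem_compl, he]; simp
      have hbF : b ∉ F := by rw [← Finset.mem_compl, he]; simp
      rintro (⟨h1, h3⟩ | h1 | h1)
      · rcases hab with rfl | rfl
        · exact haF h1
        · exact hbF h3
      · exact haF (h1 ha)
      · exact hbF (h1 hb)
  · intro hF P hP hs
    have hc := hcompl F
    have hle := Finset.card_le_card hs
    rw [hP.1] at hle
    rcases hF with h | ⟨h, h'⟩ | ⟨h, h'⟩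
    · omega
    · have he : Fᶜ = P := Finset.eq_of_subset_of_card_le hs (by rw [hP.1]; omega)
      unfold bad at h'
      push Not at h'
      obtain ⟨h1, h2, h3⟩ := h'
      obtain ⟨a, ha, ha'⟩ := Finset.not_subset.mp h2
      obtain ⟨b, hb, hb'⟩ := Finset.not_subset.mp h3
      have hpair : ∀ u v : V, u ∉ F → v ∉ F → u ≠ v → P = {u, v} := by
        intro u v hu hv huv
        symm
        apply Finset.eq_of_subset_of_card_le
        · intro z hz
          rw [Finset.mem_insert, Finset.mem_singleton] at hz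
          rw [← he, Finset.mem_compl]
          rcases hz with rfl | rfl <;> assumption
        · rw [hP.1, Finset.card_pair huv]
      by_cases hx : x ∈ F
      · have hy := h1 hx
        exact hP.2 a ha y s.hy (Or.inr rfl) (hpair a y ha' hy (fun h => s.dis a ha (h ▸ s.hy)))
      · exact hP.2 x s.hx b hb (Or.inl rfl) (hpair x b hx hb' (fun h => s.dis b (h ▸ s.hx) hb))
    · -- a pure set is too small
      have hA := s.hA
      have hB := s.hB
      have hcard := s.card
      rcases h' with h' | h'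
      · have := Finset.card_le_card h'
        omega
      · have := Finset.card_le_card h'
        omega

/-- the last step -/
theorem nfc_T2 (s : Setup A B x y) (hN : 4 ≤ Fintype.card V) :
    nfc (T A B x y 2) = C0 A B x y := by
  have hsmall : ∀ u v : V, u ∈ A → v ∈ B → (u ≠ x ∨ v ≠ y) → IsFacet (T A B x y 2) {u, v} := by
    intro u v hu hv huv
    have hne : u ≠ v := fun h => s.dis u hu (h ▸ hv)
    apply facet_mid 2 (Finset.card_pair hne)
    · rintro (⟨h1, h2⟩ | h | h)
      · rw [Finset.mem_insert, Finset.mem_singleton] at h1 h2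
        have e1 : x = u := h1.resolve_right (fun hc => s.dis x s.hx (hc ▸ hv))
        have e2 : y = v := h2.resolve_left (fun hc => s.dis y (hc ▸ hu) s.hy)
        rcases huv with h | h
        · exact h e1.symm
        · exact h e2.symm
      · exact s.A_not_sub u hv h
      · exact s.B_not_sub v hu h
    · exact s.not_pur' (a := u) (b := v) (by simp) hu (by simp) hv
  ext F
  constructor
  · intro hF
    rcases Nat.lt_or_ge F.card 2 with h | h
    · exact Or.inl (by omega)
    · have hmix : ∀ u ∈ F, ∀ v ∈ F, u ∈ A → v ∈ B → u = x ∧ v = y := by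
        intro u hu v hv hu' hv'
        by_contra hc
        apply hF {u, v} (hsmall u v hu' hv' (by tauto))
        intro z hz
        rw [Finset.mem_insert, Finset.mem_singleton] at hz
        rcases hz with rfl | rfl <;> assumption
      by_cases hp : pur A B F
      · rcases Nat.lt_or_ge 2 F.card with h2 | h2
        · exfalso
          obtain ⟨G, hG, hGc⟩ := Finset.exists_subset_card_eq (n := 3) (s := F) (by omega)
          exact hF G (facet_pur 2 hGc (hp.imp (fun h => hG.trans h) (fun h => hG.trans h))) hG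
        · exact Or.inr ⟨by omega, Or.inl hp⟩
      · obtain ⟨⟨a, ha, ha'⟩, b, hb, hb'⟩ := s.not_pur hp
        have h1 := hmix a ha b hb ha' hb'
        have hsub : F ⊆ {x, y} := by
          intro z hz
          rw [Finset.mem_insert, Finset.mem_singleton]
          rcases s.cov z with h | h
          · exact Or.inl (hmix z hz b hb h hb').1
          · exact Or.inr (hmix a ha z hz ha' h).2
        have := Finset.card_le_card hsub
        rw [Finset.card_pair s.xy] at this
        exact Or.inr ⟨by omega, Or.inr ⟨h1.1 ▸ ha, h1.2 ▸ hb⟩⟩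
  · intro hF G hG hs
    have hc := Finset.card_le_card hs
    have hA := s.hA
    have hB := s.hB
    rcases facet_cases s (by omega) (by omega) hG with ⟨h1, h2⟩ | ⟨h1, h2, h3⟩ | ⟨h1, h2⟩
    · rcases hF with h | ⟨h, _⟩ <;> omega
    · rcases hF with h | ⟨h, h'⟩
      · omega
      · have he := Finset.eq_of_subset_of_card_le hs (by omega)
        rcases h' with h' | h'
        · exact h3 (he ▸ h')
        · exact h2 (Or.inl (he ▸ h'))
    · rcases h2 with ⟨h2, h3⟩ | h2 | h2
      · have : ({x, y} : Finset V) ⊆ G := by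
          intro z hz
          rw [Finset.mem_insert, Finset.mem_singleton] at hz
          rcases hz with rfl | rfl <;> assumption
        have := Finset.card_le_card this
        rw [Finset.card_pair s.xy] at this
        omega
      · have := Finset.card_le_card h2
        omega
      · have := Finset.card_le_card h2
        omega

end Pool.Agent.Q14.NF
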