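import Mathlib

/-!
The one-or-all token game: definitions and a certificate checker for `P`-positions.
-/

namespace Pool.Agent.Q14.OOA

/-- What is left of a pile of size `a` after one token is removed (an empty pile is discarded). -/
def lower (a : ℕ) : Multiset ℕ := if a ≤ 1 then 0 else {a - 1}

/-- A position is a finite multiset of positive integers. -/
def IsPosition (p : Multiset ℕ) : Prop := ∀ a ∈ p, 0 < a

/-- The moves of the one-or-all token game. -/
inductive Move : Multiset ℕ → Multiset ℕ → Prop
  /-- the unimove: remove one token from one pile -/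
  | uni (p : Multiset ℕ) (a : ℕ) (h : a ∈ p) : Move p (p.erase a + lower a)
  /-- the allmove: remove one token from every pile -/
  | all (p : Multiset ℕ) (h : p ≠ 0) : Move p (p.bind lower)

mutual
  /-- `P`-positions (the player who is about to move loses): every move leads to an
  `N`-position. -/
  inductive PPos : Multiset ℕ → Prop
    | mk (p : Multiset ℕ) (h : ∀ q, Move p q → NPos q) : PPos p
  /-- `N`-positions: some move leads to a `P`-position. -/
  inductive NPos : Multiset ℕ → Prop
    | mk (p q : Multiset ℕ) (h : Move p q) (h' : PPos q) : NPos p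
end

theorem lower_sum (a : ℕ) (h : 0 < a) : (lower a).sum + 1 = a := by
  unfold lower; split_ifs with h1
  · simp; omega
  · simp; omega

theorem lower_pos (a b : ℕ) (h : b ∈ lower a) : 0 < b := by
  unfold lower at h; split_ifs at h with h1
  · simp at h
  · simp at h; omega

theorem bind_sum : ∀ p : Multiset ℕ, IsPosition p → (p.bind lower).sum + p.card = p.sum := by
  intro p
  induction p using Multiset.induction_on with
  | empty => intro _; simp
  | cons a s ih =>
    intro h
    have h1 := ih (fun b hb => h b (Multiset.mem_cons_of_mem hb))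
    have h2 := lower_sum a (h a (Multiset.mem_cons_self a s))
    rw [Multiset.cons_bind, Multiset.sum_add, Multiset.sum_cons, Multiset.card_cons]
    omega

theorem Move.sum_lt {p q : Multiset ℕ} (hp : IsPosition p) (h : Move p q) : q.sum < p.sum := by
  cases h with
  | uni a h =>
    have h1 := Multiset.sum_erase h
    have h2 := lower_sum a (hp a h)
    rw [Multiset.sum_add]; omega
  | all h =>
    have h1 := bind_sum p hp
    have h2 : 0 < p.card := Multiset.card_pos.mpr h
    omega

theorem Move.isPosition {p q : Multiset ℕ} (hp : IsPosition p) (h : Move p q) : IsPosition q := by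
  cases h with
  | uni a h =>
    intro b hb
    rcases Multiset.mem_add.mp hb with hb | hb
    · exact hp b (Multiset.mem_of_mem_erase hb)
    · exact lower_pos a b hb
  | all h =>
    intro b hb
    obtain ⟨a, _, hb⟩ := Multiset.mem_bind.mp hb
    exact lower_pos a b hb

/-- No position is both a `P`-position and an `N`-position. -/
theorem not_both : ∀ (n : ℕ) (p : Multiset ℕ), p.sum = n → IsPosition p → PPos p → NPos p → False := by
  intro n
  induction n using Nat.strong_induction_on with
  | _ n ih =>
    intro p hn hp h1 h2
    obtain ⟨_, h1⟩ := h1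
    obtain ⟨_, q, hq, h3⟩ := h2
    exact ih q.sum (hn ▸ hq.sum_lt hp) q rfl (hq.isPosition hp) h3 (h1 q hq)

/-- Every position is a `P`-position or an `N`-position. -/
theorem dichotomy : ∀ (n : ℕ) (p : Multiset ℕ), p.sum = n → IsPosition p → PPos p ∨ NPos p := by
  intro n
  induction n using Nat.strong_induction_on with
  | _ n ih =>
    intro p hn hp
    by_cases h : ∃ q, Move p q ∧ PPos q
    · obtain ⟨q, h1, h2⟩ := h
      exact Or.inr (NPos.mk p q h1 h2)
    · left
      refine PPos.mk p (fun q hq => ?_)
      rcases ih q.sum (hn ▸ hq.sum_lt hp) q rfl (hq.isPosition hp) with h1 | h1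
      · exact absurd ⟨q, hq, h1⟩ h
      · exact h1

/-- The `P`-positions are the positions from which no move leads to a `P`-position. -/
theorem pPos_iff {p : Multiset ℕ} (hp : IsPosition p) : PPos p ↔ ∀ q, Move p q → ¬ PPos q := by
  constructor
  · rintro ⟨_, h⟩ q hq h'
    exact not_both _ q rfl (hq.isPosition hp) h' (h q hq)
  · intro h
    refine PPos.mk p (fun q hq => ?_)
    rcases dichotomy _ q rfl (hq.isPosition hp) with h1 | h1
    · exact absurd h1 (h q hq)
    · exact h1

/-! ### Certificates -/

/-- the multiset with `c[0]` piles of size `k`, `c[1]` piles of size `k+1`, ... -/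
def ms : List ℕ → ℕ → Multiset ℕ
  | [], _ => 0
  | x :: xs, k => Multiset.replicate x k + ms xs (k + 1)

theorem count_ms : ∀ (c : List ℕ) (k b : ℕ), (ms c k).count b = if k ≤ b then c.getD (b - k) 0 else 0 := by
  intro c
  induction c with
  | nil => intro k b; simp [ms]
  | cons x xs ih =>
    intro k b
    rw [ms, Multiset.count_add, ih (k + 1) b, Multiset.count_replicate]
    rcases lt_trichotomy k b with h | h | h
    · rw [if_neg (by omega), if_pos (by omega), if_pos (by omega)]
      have : b - k = (b - (k + 1)) + 1 := by omega
      rw [this, List.getD_cons_succ, zero_add]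
    · subst h
      rw [if_pos rfl, if_neg (by omega), if_pos le_rfl]
      simp
    · rw [if_neg (by omega), if_neg (by omega), if_neg (by omega)]

theorem count_lower (a b : ℕ) : (lower a).count b = if (2 ≤ a ∧ b + 1 = a) then 1 else 0 := by
  unfold lower
  split_ifs with h1 h2 h2
  · omega
  · simp
  · rw [Multiset.count_singleton, if_pos (by omega)]
  · rw [Multiset.count_singleton, if_neg (by omega)]

theorem count_bind (p : Multiset ℕ) (b : ℕ) : (p.bind lower).count b = if 0 < b then p.count (b + 1) else 0 := by
  induction p using Multiset.induction_on with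
  | empty => simp
  | cons a s ih =>
    rw [Multiset.cons_bind, Multiset.count_add, ih, count_lower, Multiset.count_cons]
    split_ifs <;> omega

/-- the result of the unimove on a pile of size `i + 1` -/
def optU (c : List ℕ) : ℕ → List ℕ
  | 0 => c.set 0 (c.getD 0 0 - 1)
  | (i + 1) => (c.set (i + 1) (c.getD (i + 1) 0 - 1)).set i (c.getD i 0 + 1)

/-- the result of the allmove -/
def optA (c : List ℕ) : List ℕ := c.tail ++ [0]

/-- all options -/
def opts (c : List ℕ) : List (List ℕ) :=
  (if c.all (· == 0) then [] else [optA c]) ++
    ((List.range c.length).filter (fun i => c.getD i 0 != 0)).map (optU c)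

theorem getD_set (c : List ℕ) (i j v : ℕ) (hi : i < c.length) :
    (c.set i v).getD j 0 = if i = j then v else c.getD j 0 := by
  rw [List.getD_eq_getElem?_getD, List.getElem?_set]
  by_cases h1 : i = j
  · subst h1
    rw [if_pos rfl, if_pos rfl, if_pos hi]; simp
  · rw [if_neg h1, if_neg h1, List.getD_eq_getElem?_getD]

theorem ms_optU (c : List ℕ) (i : ℕ) (hi : i < c.length) (h : c.getD i 0 ≠ 0) :
    (ms c 1).erase (i + 1) + lower (i + 1) = ms (optU c i) 1 := by
  ext b
  rw [Multiset.count_add, count_lower, count_ms]
  have he : ((ms c 1).erase (i+1)).count b = if b = i + 1 then c.getD i 0 - 1 else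
      (if 1 ≤ b then c.getD (b - 1) 0 else 0) := by
    split_ifs with h1 h2
    · rw [h1, Multiset.count_erase_self, count_ms, if_pos (by omega)]
      simp
    · rw [Multiset.count_erase_of_ne h1, count_ms, if_pos h2]
    · rw [Multiset.count_erase_of_ne h1, count_ms, if_neg h2]
  rw [he]
  rcases Nat.eq_zero_or_pos i with h0 | h0
  · subst h0
    simp only [optU]
    rw [getD_set _ _ _ _ hi]
    by_cases hb : b = 1
    · subst hb; simp
    · by_cases hb0 : b = 0
      · subst hb0; simp
      · rw [if_neg (by omega), if_pos (by omega), if_neg (by omega), if_pos (by omega),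
          if_neg (by omega)]
        rfl
  · obtain ⟨i, rfl⟩ : ∃ k, i = k + 1 := ⟨i - 1, by omega⟩
    simp only [optU]
    rw [getD_set _ _ _ _ (by rw [List.length_set]; omega), getD_set _ _ _ _ hi]
    by_cases hb : b = i + 1 + 1
    · subst hb
      rw [if_pos rfl, if_neg (by omega), if_pos (by omega), if_neg (by omega), if_pos (by omega)]
      rfl
    · rw [if_neg hb]
      by_cases hb2 : b = i + 1
      · subst hb2
        rw [if_pos (by omega), if_pos (by omega), if_pos (by omega), if_pos (by omega)]
        rfl
      · rw [if_neg (by omega : ¬ (2 ≤ i + 1 + 1 ∧ b + 1 = i + 1 + 1))]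
        by_cases hb0 : b = 0
        · subst hb0; simp
        · rw [if_pos (by omega), if_pos (by omega), if_neg (by omega), if_neg (by omega)]
          rfl

theorem ms_optA (c : List ℕ) : (ms c 1).bind lower = ms (optA c) 1 := by
  ext b
  rw [count_bind, count_ms, count_ms]
  rcases Nat.eq_zero_or_pos b with h | h
  · subst h; simp
  · rw [if_pos h, if_pos (by omega), if_pos (by omega)]
    unfold optA
    rw [List.getD_eq_getElem?_getD, List.getD_eq_getElem?_getD, List.getElem?_append]
    have hb : b + 1 - 1 = (b - 1) + 1 := by omega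
    rw [hb]
    split_ifs with h1
    · rw [List.getElem?_tail]
    · rw [List.getElem?_eq_none (by rw [List.length_tail] at h1; omega)]
      rcases hk : b - 1 - c.tail.length with _ | k
      · simp
      · simp

theorem mem_ms {c : List ℕ} {a : ℕ} (h : a ∈ ms c 1) :
    ∃ i, a = i + 1 ∧ i < c.length ∧ c.getD i 0 ≠ 0 := by
  have h1 : 0 < (ms c 1).count a := Multiset.count_pos.mpr h
  rw [count_ms] at h1
  split_ifs at h1 with h2
  · refine ⟨a - 1, by omega, ?_, by omega⟩
    by_contra hc
    rw [List.getD_eq_getElem?_getD, List.getElem?_eq_none (by omega)] at h1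
    simp at h1
  · omega

theorem ms_ne_zero {c : List ℕ} : ms c 1 ≠ 0 ↔ ¬ (c.all (· == 0) = true) := by
  constructor
  · intro h hc
    apply h
    by_contra h'
    obtain ⟨a, ha⟩ := Multiset.exists_mem_of_ne_zero h'
    obtain ⟨i, _, hi, h3⟩ := mem_ms ha
    apply h3
    rw [List.all_eq_true] at hc
    rw [List.getD_eq_getElem?_getD, List.getElem?_eq_getElem hi]
    have := hc _ (List.getElem_mem hi)
    simpa using this
  · intro h hc
    apply h
    rw [List.all_eq_true]
    intro x hx
    obtain ⟨i, hi, rfl⟩ := List.getElem_of_mem hx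
    have h1 : (ms c 1).count (i + 1) = 0 := by rw [hc]; simp
    rw [count_ms, if_pos (by omega)] at h1
    rw [List.getD_eq_getElem?_getD, Nat.add_sub_cancel, List.getElem?_eq_getElem hi] at h1
    simpa using h1

theorem mem_opts {c : List ℕ} {q : Multiset ℕ} (h : Move (ms c 1) q) : ∃ d ∈ opts c, q = ms d 1 := by
  generalize hp : ms c 1 = p at h
  cases h with
  | uni a h =>
    subst hp
    obtain ⟨i, rfl, hi, h3⟩ := mem_ms h
    refine ⟨optU c i, ?_, ms_optU c i hi h3⟩
    unfold opts
    rw [List.mem_append]; right
    rw [List.mem_map]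
    exact ⟨i, by rw [List.mem_filter]; exact ⟨List.mem_range.mpr hi, by simpa using h3⟩, rfl⟩
  | all h =>
    subst hp
    refine ⟨optA c, ?_, ms_optA c⟩
    unfold opts
    rw [List.mem_append]; left
    rw [if_neg (ms_ne_zero.mp h)]
    simp

theorem move_of_mem {c d : List ℕ} (h : d ∈ opts c) : Move (ms c 1) (ms d 1) := by
  unfold opts at h
  rcases List.mem_append.mp h with h | h
  · split_ifs at h with h1
    · simp at h
    · rw [List.mem_singleton] at h
      subst h
      rw [← ms_optA]
      exact Move.all _ (ms_ne_zero.mpr h1)
  · rw [List.mem_map] at h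
    obtain ⟨i, hi, rfl⟩ := h
    rw [List.mem_filter, List.mem_range] at hi
    have h2 : c.getD i 0 ≠ 0 := by simpa using hi.2
    rw [← ms_optU c i hi.1 h2]
    apply Move.uni
    rw [← Multiset.count_pos, count_ms, if_pos (by omega)]
    simpa using Nat.pos_of_ne_zero h2

/-- the certificate check: from every member of `W` every option has an answer in `W` -/
def check (W : List (List ℕ)) : Bool :=
  W.all fun w => (opts w).all fun n => (opts n).any fun r => W.elem r

theorem pos_ms (c : List ℕ) : IsPosition (ms c 1) := by
  intro a ha
  obtain ⟨i, h, _⟩ := mem_ms ha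
  omega

/-- All members of a checked list are `P`-positions. -/
theorem ppos_of_check {W : List (List ℕ)} (hW : check W = true) :
    ∀ (n : ℕ) (w : List ℕ), (ms w 1).sum = n → w ∈ W → PPos (ms w 1) := by
  intro n
  induction n using Nat.strong_induction_on with
  | _ n ih =>
    intro w hn hw
    refine PPos.mk _ (fun q hq => ?_)
    have hlt := hq.sum_lt (pos_ms w)
    obtain ⟨d, hd, rfl⟩ := mem_opts hq
    unfold check at hW
    rw [List.all_eq_true] at hW
    have h1 := hW w hw
    rw [List.all_eq_true] at h1
    have h2 := h1 d hd
    rw [List.any_eq_true] at h2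
    obtain ⟨r, hr, hrW⟩ := h2
    have h3 := move_of_mem hr
    have hlt2 := h3.sum_lt (pos_ms d)
    refine NPos.mk _ _ h3 (ih (ms r 1).sum (by omega) r rfl ?_)
    exact List.mem_of_elem_eq_true hrW

end Pool.Agent.Q14.OOA
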