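import Pool.Agent.TH924.PC.Asym3
import Pool.Agent.H174R3.D6.TaskLS
import Pool.Agent.Helper923.PNT

set_option autoImplicit false

/-! # Good primes of the members of a pencil, at all scales -/

namespace Pool.Agent.Q14.PCS

open Finset Pool.Agent.TH924.PC Pool.Agent.Helper923.HMertens

/-- the shifted classes -/
noncomputable def II (a : ℤ) (T : (p : ℕ) → Finset (ZMod p)) (p : ℕ) : Finset ℕ :=
  (T p).image (fun t => (t - (a : ZMod p) + 1).val)

lemma II_sub {a : ℤ} {T : (p : ℕ) → Finset (ZMod p)} {p : ℕ} (hp : p.Prime) :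
    II a T p ⊆ range p := by
  have : NeZero p := ⟨hp.ne_zero⟩
  intro x hx
  rw [II, mem_image] at hx
  obtain ⟨t, _, rfl⟩ := hx
  rw [mem_range]
  exact ZMod.val_lt _

lemma II_card {a : ℤ} {T : (p : ℕ) → Finset (ZMod p)} {p : ℕ} (hp : p.Prime) :
    (II a T p).card = (T p).card := by
  have : NeZero p := ⟨hp.ne_zero⟩
  rw [II, card_image_of_injective]
  intro s t h
  have := ZMod.val_injective p h
  linear_combination this

lemma II_mem {a : ℤ} {T : (p : ℕ) → Finset (ZMod p)} {p : ℕ} (hp : p.Prime) (n : ℕ) :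
    n % p ∈ II a T p ↔ (((a + n - 1 : ℤ)) : ZMod p) ∈ T p := by
  have : NeZero p := ⟨hp.ne_zero⟩
  rw [II, mem_image]
  have e : n % p = ((n : ZMod p)).val := by rw [ZMod.val_natCast]
  constructor
  · rintro ⟨t, ht, h⟩
    rw [e] at h
    have h1 := ZMod.val_injective p h
    have h2 : (((a + n - 1 : ℤ)) : ZMod p) = t := by
      push_cast
      linear_combination -h1
    rw [h2]
    exact ht
  · intro h
    refine ⟨_, h, ?_⟩
    rw [e]
    congr 1
    push_cast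
    ring

/-- The second moment, by the large sieve. -/
lemma var_ls {a b : ℤ} (hab : a ≤ b) {P : Finset ℕ} (hP : ∀ p ∈ P, p.Prime) {Q : ℕ}
    (hQ : ∀ p ∈ P, p ≤ Q) (T : (p : ℕ) → Finset (ZMod p)) (hT : ∀ p ∈ P, (T p).card ≤ p) :
    ∑ q ∈ Ico a b, ((((P.filter fun p => (q : ZMod p) ∈ T p).card : ℕ) : ℝ) -
      ∑ p ∈ P, ((T p).card : ℝ) / p) ^ 2 ≤
      6 * ((b - a : ℝ) + (Q : ℝ) ^ 2) * P.card := by
  classical
  have h := Pool.Agent.H174R3.D6LS.taskLS (b - a).toNat Q P (II a T) (P.image fun p => {p})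
    (fun _ => 1) hP (fun q hq => II_sub (hP q hq)) (by
      intro s hs
      rw [mem_image] at hs
      obtain ⟨p, hp, rfl⟩ := hs
      refine ⟨by simpa using hp, ?_⟩
      rw [prod_singleton]
      exact hQ p hp)
  have hinj : ∀ f : Finset ℕ → ℝ, ∑ s ∈ P.image (fun p => ({p} : Finset ℕ)), f s =
      ∑ p ∈ P, f {p} := by
    intro f
    exact sum_image fun x _ y _ hxy => by simpa using hxy
  simp only [hinj, prod_singleton, one_mul, one_pow] at h
  have hX : (((b - a).toNat : ℕ) : ℝ) = (b - a : ℝ) := by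
    have : (((b - a).toNat : ℕ) : ℤ) = b - a := Int.toNat_of_nonneg (by omega)
    have h2 : ((((b - a).toNat : ℕ) : ℤ) : ℝ) = ((b - a : ℤ) : ℝ) := by rw [this]
    push_cast at h2
    exact_mod_cast h2
  rw [hX] at h
  have hR : ∑ p ∈ P, ((II a T p).card : ℝ) / p ≤ P.card := by
    rw [← nsmul_one, ← sum_const]
    refine sum_le_sum fun p hp => ?_
    rw [II_card (hP p hp)]
    have hp0 : (0 : ℝ) < p := by exact_mod_cast (hP p hp).pos
    rw [div_le_one hp0]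
    exact_mod_cast hT p hp
  have hab' : (0 : ℝ) ≤ b - a := by
    have : (a : ℝ) ≤ b := by exact_mod_cast hab
    linarith
  have h2 : 6 * ((b - a : ℝ) + (Q : ℝ) ^ 2) * ∑ p ∈ P, ((II a T p).card : ℝ) / p ≤
      6 * ((b - a : ℝ) + (Q : ℝ) ^ 2) * P.card :=
    mul_le_mul_of_nonneg_left hR (by positivity)
  refine le_trans (le_of_eq ?_) (h.trans h2)
  symm
  refine sum_nbij' (fun n : ℕ => a + n - 1) (fun q : ℤ => (q - a + 1).toNat) ?_ ?_ ?_ ?_ ?_
  · intro n hn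
    rw [mem_Icc] at hn
    rw [mem_Ico]
    omega
  · intro q hq
    rw [mem_Ico] at hq
    rw [mem_Icc]
    omega
  · intro n hn
    rw [mem_Icc] at hn
    omega
  · intro q hq
    rw [mem_Ico] at hq
    omega
  · intro n hn
    congr 1
    rw [sum_sub_distrib]
    congr 1
    · rw [card_filter]
      push_cast
      refine sum_congr rfl fun p hp => ?_
      by_cases hc : (((a + n - 1 : ℤ)) : ZMod p) ∈ T p
      · rw [if_pos ((II_mem (hP p hp) n).2 hc)]
        push_cast at hc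
        rw [if_pos hc]
      · rw [if_neg (fun hh => hc ((II_mem (hP p hp) n).1 hh))]
        push_cast at hc
        rw [if_neg hc]
    · refine sum_congr rfl fun p hp => ?_
      rw [II_card (hP p hp)]


open Classical in
/-- One scale. -/
lemma one_scale {n d P₁ : ℕ} (hn : 1 ≤ n) {ε : ℝ} (hε : 0 < ε) :
    ∃ Q₀ : ℕ, 8 ≤ Q₀ ∧ ∀ A : ℕ → ℤ → Prop, Cls A n d P₁ → ∀ X : ℝ, 1 ≤ X → ∀ Q : ℕ, Q₀ ≤ Q →
      ∀ S : Finset ℤ, (∀ q ∈ S, |(q : ℝ)| ≤ X ∧ ((d : ℝ) / n + ε) * Nat.primeCounting Q ≤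
          ((Icc 1 Q).filter fun p => p.Prime ∧ A p q).card) →
        (S.card : ℝ) ≤ 288 / ε ^ 2 * ((X + (Q : ℝ) ^ 2) * (Real.log Q / Q)) := by
  have hn0 : (0 : ℝ) < n := by exact_mod_cast hn
  obtain ⟨N₀, hN₀⟩ := Filter.eventually_atTop.1
    (Nat.tendsto_primeCounting.eventually_ge_atTop ⌈2 * (P₁ : ℝ) / ε⌉₊)
  refine ⟨max N₀ 8, le_max_right _ _, fun A hA X hX Q hQQ S hS => ?_⟩
  have hX0 : 0 < X := by linarith
  have hQN : N₀ ≤ Q := (le_max_left _ _).trans hQQ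
  have hQ8 : 8 ≤ Q := (le_max_right _ _).trans hQQ
  have hQ0 : (8 : ℝ) ≤ Q := by exact_mod_cast hQ8
  set π := Nat.primeCounting Q with hπ
  have hπ1 : 2 * (P₁ : ℝ) / ε ≤ π := by
    have h := hN₀ Q hQN
    exact (Nat.le_ceil _).trans (by exact_mod_cast h)
  have hπ2 := pi_lower hQ8
  have hlogQ : 0 < Real.log Q := Real.log_pos (by linarith)
  have hπ0 : (0 : ℝ) < π := lt_of_lt_of_le (by positivity) hπ2
  set P := (PP Q).filter (fun p => P₁ < p) with hP
  have hPp : ∀ p ∈ P, p.Prime := by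
    intro p hp
    rw [hP, mem_filter, mem_filter] at hp
    exact hp.1.2
  have hPQ : ∀ p ∈ P, p ≤ Q := by
    intro p hp
    rw [hP, mem_filter, mem_filter, mem_Icc] at hp
    exact hp.1.1.2
  have hPπ : (P.card : ℝ) ≤ π := by
    have h1 : P.card ≤ (PP Q).card := card_filter_le _ _
    rw [card_PP] at h1
    exact_mod_cast h1
  have hTT : ∀ p ∈ P, (TT A p).card ≤ p := fun p hp => TT_card (hPp p hp).pos
  have hfl : (0 : ℤ) ≤ ⌊X⌋ := Int.floor_nonneg.2 hX0.le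
  have hab : -⌊X⌋ ≤ ⌊X⌋ + 1 := by linarith
  have hvar := var_ls hab hPp hPQ (TT A) hTT
  set μ := ∑ p ∈ P, ((TT A p).card : ℝ) / p with hμ
  have hμ1 : μ ≤ (d : ℝ) / n * π := by
    have h1 : μ ≤ ∑ p ∈ P, (d : ℝ) / n := by
      rw [hμ]
      refine sum_le_sum fun p hp => ?_
      have hp' := hp
      rw [hP, mem_filter, mem_filter] at hp'
      have h2 := hA p (hPp p hp) hp'.2 (TT A p) TT_spec
      have h3 : ((TT A p).card : ℝ) * n ≤ d * p := by exact_mod_cast h2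
      have hp0 : (0 : ℝ) < p := by exact_mod_cast (hPp p hp).pos
      rw [div_le_div_iff₀ hp0 hn0]
      exact h3
    rw [sum_const, nsmul_eq_mul] at h1
    have h2 : (P.card : ℝ) * (d / n) ≤ π * (d / n) := mul_le_mul_of_nonneg_right hPπ (by positivity)
    linarith
  have hbad : ∀ q ∈ S, (ε / 2 * π) ^ 2 ≤
      ((((P.filter fun p => (q : ZMod p) ∈ TT A p).card : ℕ) : ℝ) - μ) ^ 2 := by
    intro q hq
    have h1 := (hS q hq).2
    have h2 : ((Icc 1 Q).filter fun p => p.Prime ∧ A p q).card ≤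
        (P.filter fun p => (q : ZMod p) ∈ TT A p).card + P₁ := by
      have h3 : ((Icc 1 Q).filter fun p => p.Prime ∧ A p q) ⊆
          (P.filter fun p => (q : ZMod p) ∈ TT A p) ∪ Icc 1 P₁ := by
        intro p hp
        rw [mem_filter, mem_Icc] at hp
        rw [mem_union]
        rcases Nat.lt_or_ge P₁ p with h | h
        · left
          rw [mem_filter, hP, mem_filter, mem_filter, mem_Icc]
          exact ⟨⟨⟨hp.1, hp.2.1⟩, h⟩, mem_TT hp.2.1.pos hp.2.2⟩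
        · right
          rw [mem_Icc]
          exact ⟨hp.1.1, h⟩
      refine (card_le_card h3).trans ((card_union_le _ _).trans ?_)
      rw [Nat.card_Icc]
      omega
    have h2' : ((((Icc 1 Q).filter fun p => p.Prime ∧ A p q).card : ℕ) : ℝ) ≤
        (((P.filter fun p => (q : ZMod p) ∈ TT A p).card : ℕ) : ℝ) + P₁ := by exact_mod_cast h2
    have h4 : (P₁ : ℝ) ≤ ε / 2 * π := by
      rw [div_le_iff₀ hε] at hπ1
      linarith
    have h5 : ((d : ℝ) / n + ε) * π = (d : ℝ) / n * π + 2 * (ε / 2 * π) := by ring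
    rw [h5] at h1
    have h6 : 0 ≤ ε / 2 * π := by positivity
    exact pow_le_pow_left₀ h6 (by linarith) 2
  have hSI : S ⊆ Ico (-⌊X⌋) (⌊X⌋ + 1) := by
    intro q hq
    have h3 := abs_le.1 (hS q hq).1
    rw [mem_Ico]
    constructor
    · rw [neg_le, Int.le_floor]
      push_cast
      linarith
    · rw [Int.lt_add_one_iff, Int.le_floor]
      exact h3.2
  have h1 : (S.card : ℝ) * (ε / 2 * π) ^ 2 ≤
      6 * ((((⌊X⌋ + 1 : ℤ) : ℝ) - ((-⌊X⌋ : ℤ) : ℝ)) + (Q : ℝ) ^ 2) * P.card := by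
    refine le_trans ?_ hvar
    rw [← nsmul_eq_mul, ← sum_const]
    refine (sum_le_sum hbad).trans ?_
    exact sum_le_sum_of_subset_of_nonneg hSI fun q _ _ => sq_nonneg _
  have hJ : (((⌊X⌋ + 1 : ℤ) : ℝ) - ((-⌊X⌋ : ℤ) : ℝ)) ≤ 3 * X := by
    push_cast
    have := Int.floor_le X
    linarith
  have hJ0 : (0 : ℝ) ≤ (((⌊X⌋ + 1 : ℤ) : ℝ) - ((-⌊X⌋ : ℤ) : ℝ)) := by
    push_cast
    have : (0 : ℝ) ≤ ⌊X⌋ := by exact_mod_cast hfl
    linarith
  have h2 : (S.card : ℝ) * (ε / 2 * π) ^ 2 ≤ 18 * (X + (Q : ℝ) ^ 2) * π := by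
    refine h1.trans ?_
    have h7 : (0 : ℝ) ≤ (Q : ℝ) ^ 2 := sq_nonneg _
    have h8 : 6 * ((((⌊X⌋ + 1 : ℤ) : ℝ) - ((-⌊X⌋ : ℤ) : ℝ)) + (Q : ℝ) ^ 2) ≤
        18 * (X + (Q : ℝ) ^ 2) := by linarith
    exact mul_le_mul h8 hPπ (Nat.cast_nonneg _) (by positivity)
  have h3 : (S.card : ℝ) ≤ 72 / ε ^ 2 * ((X + (Q : ℝ) ^ 2) / π) := by
    have h4 : (S.card : ℝ) * (ε / 2 * π) ^ 2 ≤
        (72 / ε ^ 2 * ((X + (Q : ℝ) ^ 2) / π)) * (ε / 2 * π) ^ 2 := by
      refine h2.trans (le_of_eq ?_)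
      field_simp
      ring
    exact le_of_mul_le_mul_right h4 (by positivity)
  have h4 : (X + (Q : ℝ) ^ 2) / π ≤ 4 * ((X + (Q : ℝ) ^ 2) * (Real.log Q / Q)) := by
    rw [div_le_iff₀ hπ0]
    have h5 : (Q : ℝ) ≤ π * (4 * Real.log Q) := by
      rwa [div_le_iff₀ (by positivity)] at hπ2
    have h6 : 0 ≤ X + (Q : ℝ) ^ 2 := by positivity
    have h7 : 1 ≤ 4 * (Real.log Q / Q) * π := by
      rw [show 4 * (Real.log Q / Q) * (π : ℝ) = (π * (4 * Real.log Q)) / Q by ring,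
        le_div_iff₀ (by linarith), one_mul]
      exact h5
    calc X + (Q : ℝ) ^ 2 = (X + (Q : ℝ) ^ 2) * 1 := by ring
      _ ≤ (X + (Q : ℝ) ^ 2) * (4 * (Real.log Q / Q) * π) := mul_le_mul_of_nonneg_left h7 h6
      _ = _ := by ring
  calc (S.card : ℝ) ≤ 72 / ε ^ 2 * ((X + (Q : ℝ) ^ 2) / π) := h3
    _ ≤ 72 / ε ^ 2 * (4 * ((X + (Q : ℝ) ^ 2) * (Real.log Q / Q))) :=
        mul_le_mul_of_nonneg_left h4 (by positivity)
    _ = _ := by ring


/-- From the prime number theorem. -/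
lemma ratio {e : ℝ} (he : 0 < e) : ∃ ρ : ℝ, 1 < ρ ∧ ρ ≤ 2 ∧ ∃ y₀ : ℝ, 1 ≤ y₀ ∧ ∀ y : ℝ, y₀ ≤ y →
    (Nat.primeCounting ⌊ρ * y⌋₊ : ℝ) ≤ (1 + e) * Nat.primeCounting ⌊y⌋₊ := by
  set f := min e 1 with hf
  have hf0 : 0 < f := lt_min he one_pos
  have hf1 : f ≤ 1 := min_le_right _ _
  have hfe : f ≤ e := min_le_left _ _
  have h := Metric.tendsto_atTop.1 Pool.Agent.Helper923.PNT.pi_tendsto (f / 8) (by positivity)
  obtain ⟨x₀, hx₀⟩ := h
  refine ⟨1 + f / 4, by linarith, by linarith, max x₀ 2, le_trans (by norm_num) (le_max_right _ _),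
    fun y hy => ?_⟩
  have hyx : x₀ ≤ y := (le_max_left _ _).trans hy
  have hy2 : 2 ≤ y := (le_max_right _ _).trans hy
  have hy0 : 0 < y := by linarith
  have hly : 0 < Real.log y := Real.log_pos (by linarith)
  have hρy : y ≤ (1 + f / 4) * y := by nlinarith
  have h1 := hx₀ y hyx
  have h2 := hx₀ ((1 + f / 4) * y) (hyx.trans hρy)
  rw [Real.dist_eq, abs_lt] at h1 h2
  have hly2 : Real.log y ≤ Real.log ((1 + f / 4) * y) := Real.log_le_log hy0 hρy
  have h3 : (1 - f / 8) * y ≤ (Nat.primeCounting ⌊y⌋₊ : ℝ) * Real.log y := by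
    have := h1.1
    have h4 : 1 - f / 8 ≤ (Nat.primeCounting ⌊y⌋₊ : ℝ) * Real.log y / y := by linarith
    rwa [le_div_iff₀ hy0] at h4
  have h4 : (Nat.primeCounting ⌊(1 + f / 4) * y⌋₊ : ℝ) * Real.log y ≤
      (1 + f / 8) * ((1 + f / 4) * y) := by
    have h5 : (Nat.primeCounting ⌊(1 + f / 4) * y⌋₊ : ℝ) * Real.log ((1 + f / 4) * y) /
        ((1 + f / 4) * y) ≤ 1 + f / 8 := by linarith [h2.2]
    rw [div_le_iff₀ (by positivity)] at h5
    exact (mul_le_mul_of_nonneg_left hly2 (Nat.cast_nonneg _)).trans h5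
  have h5 : (1 + f / 8) * ((1 + f / 4) * y) ≤ (1 + f) * ((1 - f / 8) * y) := by
    have : (1 + f / 8) * (1 + f / 4) ≤ (1 + f) * (1 - f / 8) := by nlinarith
    nlinarith
  have h6 : (Nat.primeCounting ⌊(1 + f / 4) * y⌋₊ : ℝ) * Real.log y ≤
      ((1 + f) * (Nat.primeCounting ⌊y⌋₊ : ℝ)) * Real.log y := by
    calc _ ≤ (1 + f / 8) * ((1 + f / 4) * y) := h4
      _ ≤ (1 + f) * ((1 - f / 8) * y) := h5
      _ ≤ (1 + f) * ((Nat.primeCounting ⌊y⌋₊ : ℝ) * Real.log y) :=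
          mul_le_mul_of_nonneg_left h3 (by positivity)
      _ = _ := by ring
  have h7 := le_of_mul_le_mul_right h6 hly
  refine h7.trans ?_
  exact mul_le_mul_of_nonneg_right (by linarith) (Nat.cast_nonneg _)

open Classical in
/-- All scales simultaneously. -/
theorem scales {n d P₁ : ℕ} (hn : 1 ≤ n) {ε δ : ℝ} (hε : 0 < ε) (hδ : 0 < δ) (hδ1 : δ ≤ 1 / 2) :
    ∃ C : ℝ, ∀ A : ℕ → ℤ → Prop, Cls A n d P₁ → ∀ X : ℝ, 2 ≤ X →
      (Set.ncard {q : ℤ | |(q : ℝ)| ≤ X ∧ ∃ y : ℝ, X ^ δ ≤ y ∧ y ≤ X ^ (1 - δ) ∧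
        ((d : ℝ) / n + ε) * Nat.primeCounting ⌊y⌋₊ ≤
          ((Icc 1 ⌊y⌋₊).filter fun p => p.Prime ∧ A p q).card} : ℝ) ≤
        C * X ^ (1 - δ) * (Real.log X) ^ 2 := by
  have hn0 : (0 : ℝ) < n := by exact_mod_cast hn
  set α : ℝ := (d : ℝ) / n with hα
  have hα0 : 0 ≤ α := by positivity
  obtain ⟨ρ, hρ1, hρ2, y₀, hy₀, hρ⟩ := ratio (show 0 < ε / (2 * α + ε) by positivity)
  obtain ⟨Q₀, hQ₀, hone⟩ := one_scale (n := n) (d := d) (P₁ := P₁) hn (show 0 < ε / 2 by positivity)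
  set M : ℝ := max y₀ (Q₀ + 1) with hM
  have hM1 : 1 ≤ M := hy₀.trans (le_max_left _ _)
  set X₀ : ℝ := M ^ (1 / δ) with hX₀
  have hX₀0 : 0 < X₀ := by positivity
  have hlρ : 0 < Real.log ρ := Real.log_pos hρ1
  have hl2 : 0 < Real.log 2 := Real.log_pos (by norm_num)
  set K : ℝ := 288 / (ε / 2) ^ 2 * 8 * (1 / Real.log ρ + 1 / Real.log 2) with hK
  have hK0 : 0 ≤ K := by positivity
  refine ⟨max ((2 * X₀ + 1) / (Real.log 2) ^ 2) K, fun A hA X hX => ?_⟩
  have hX0 : 0 < X := by linarith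
  have hlogX : Real.log 2 ≤ Real.log X := Real.log_le_log (by norm_num) hX
  have hlX0 : 0 < Real.log X := by linarith
  have hX1 : 1 ≤ X ^ (1 - δ) := Real.one_le_rpow (by linarith) (by linarith)
  obtain ⟨S, hS1, hS2, hS3⟩ := exists_finset (fun q => ∃ y : ℝ, X ^ δ ≤ y ∧ y ≤ X ^ (1 - δ) ∧
        (α + ε) * Nat.primeCounting ⌊y⌋₊ ≤
          ((Icc 1 ⌊y⌋₊).filter fun p => p.Prime ∧ A p q).card) hX0.le
  rw [hS2]
  rcases lt_or_ge X X₀ with hlt | hge
  · have h1 : 2 * X₀ + 1 ≤ max ((2 * X₀ + 1) / (Real.log 2) ^ 2) K * (Real.log 2) ^ 2 := by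
      rw [← div_le_iff₀ (by positivity)]
      exact le_max_left _ _
    have hm0 : 0 ≤ max ((2 * X₀ + 1) / (Real.log 2) ^ 2) K := hK0.trans (le_max_right _ _)
    calc (S.card : ℝ) ≤ 2 * X + 1 := hS3
      _ ≤ 2 * X₀ + 1 := by linarith
      _ ≤ _ := h1
      _ ≤ max ((2 * X₀ + 1) / (Real.log 2) ^ 2) K * (Real.log X) ^ 2 := by
          refine mul_le_mul_of_nonneg_left ?_ hm0
          exact pow_le_pow_left₀ hl2.le hlogX 2
      _ ≤ max ((2 * X₀ + 1) / (Real.log 2) ^ 2) K * X ^ (1 - δ) * (Real.log X) ^ 2 := by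
          refine mul_le_mul_of_nonneg_right ?_ (sq_nonneg _)
          exact le_mul_of_one_le_right hm0 hX1
  -- large X
  have hXM : M ≤ X ^ δ := by
    have : M = X₀ ^ δ := by
      rw [hX₀, ← Real.rpow_mul (by linarith), one_div, inv_mul_cancel₀ hδ.ne', Real.rpow_one]
    rw [this]
    exact Real.rpow_le_rpow hX₀0.le hge hδ.le
  have hXy : y₀ ≤ X ^ δ := (le_max_left _ _).trans hXM
  have hXQ : (Q₀ : ℝ) + 1 ≤ X ^ δ := (le_max_right _ _).trans hXM
  have hQ₀' : (8 : ℝ) ≤ Q₀ := by exact_mod_cast hQ₀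
  set QQ : ℕ → ℕ := fun k => ⌊ρ ^ (k + 1) * X ^ δ⌋₊ with hQQ
  set J : ℕ := ⌊Real.log X / Real.log ρ⌋₊ with hJ
  set R : Finset ℕ := (range (J + 1)).filter fun k => ρ ^ k * X ^ δ ≤ X ^ (1 - δ) with hR
  set Sk : ℕ → Finset ℤ := fun k => S.filter fun q => (α + ε / 2) * Nat.primeCounting (QQ k) ≤
    ((Icc 1 (QQ k)).filter fun p => p.Prime ∧ A p q).card with hSk
  have hcover : S ⊆ R.biUnion Sk := by
    intro q hq
    obtain ⟨y, hy1, hy2, hy3⟩ := (hS1 q hq).2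
    have hXδ : 0 < X ^ δ := by positivity
    have hyX : 1 ≤ y / X ^ δ := by rwa [le_div_iff₀ hXδ, one_mul]
    have hy0 : 0 < y := lt_of_lt_of_le hXδ hy1
    have hl0 : 0 ≤ Real.log (y / X ^ δ) := Real.log_nonneg hyX
    set k : ℕ := ⌊Real.log (y / X ^ δ) / Real.log ρ⌋₊ with hk
    have hk1 : (k : ℝ) * Real.log ρ ≤ Real.log (y / X ^ δ) := by
      rw [← le_div_iff₀ hlρ]
      exact Nat.floor_le (by positivity)
    have hk2 : Real.log (y / X ^ δ) < ((k + 1 : ℕ) : ℝ) * Real.log ρ := by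
      rw [← div_lt_iff₀ hlρ]
      push_cast
      exact Nat.lt_floor_add_one _
    have hρ0 : 0 < ρ := by linarith
    have hk3 : ρ ^ k * X ^ δ ≤ y := by
      rw [← le_div_iff₀ hXδ]
      rw [← Real.log_pow] at hk1
      exact (Real.log_le_log_iff (by positivity) (by positivity)).1 hk1
    have hk4 : y < ρ ^ (k + 1) * X ^ δ := by
      rw [← div_lt_iff₀ hXδ]
      rw [← Real.log_pow] at hk2
      exact (Real.log_lt_log_iff (by positivity) (by positivity)).1 hk2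
    have hyXX : y / X ^ δ ≤ X := by
      rw [div_le_iff₀ hXδ]
      have h1 : X ^ (1 - δ) ≤ X ^ (1 : ℝ) :=
        Real.rpow_le_rpow_of_exponent_le (by linarith) (by linarith)
      rw [Real.rpow_one] at h1
      have h2 : 1 ≤ X ^ δ := Real.one_le_rpow (by linarith) hδ.le
      nlinarith
    have hkJ : k ≤ J := by
      apply Nat.floor_le_floor
      exact div_le_div_of_nonneg_right (Real.log_le_log (by positivity) hyXX) hlρ.le
    rw [mem_biUnion]
    refine ⟨k, ?_, ?_⟩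
    · rw [hR, mem_filter, mem_range]
      exact ⟨by omega, hk3.trans hy2⟩
    · rw [hSk, mem_filter]
      refine ⟨hq, ?_⟩
      have hle : ⌊y⌋₊ ≤ QQ k := Nat.floor_le_floor hk4.le
      have hgood : ((Icc 1 ⌊y⌋₊).filter fun p => p.Prime ∧ A p q).card ≤
          ((Icc 1 (QQ k)).filter fun p => p.Prime ∧ A p q).card := by
        refine card_le_card (filter_subset_filter _ ?_)
        exact Icc_subset_Icc_right hle
      have hgood' : ((((Icc 1 ⌊y⌋₊).filter fun p => p.Prime ∧ A p q).card : ℕ) : ℝ) ≤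
          ((((Icc 1 (QQ k)).filter fun p => p.Prime ∧ A p q).card : ℕ) : ℝ) := by
        exact_mod_cast hgood
      have hπ1 : (Nat.primeCounting (QQ k) : ℝ) ≤ (1 + ε / (2 * α + ε)) *
          Nat.primeCounting ⌊y⌋₊ := by
        refine le_trans ?_ (hρ y (hXy.trans hy1))
        have : QQ k ≤ ⌊ρ * y⌋₊ := by
          apply Nat.floor_le_floor
          rw [pow_succ]
          calc ρ ^ k * ρ * X ^ δ = ρ * (ρ ^ k * X ^ δ) := by ring
            _ ≤ ρ * y := mul_le_mul_of_nonneg_left hk3 hρ0.le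
        exact_mod_cast Nat.monotone_primeCounting this
      have hid : (α + ε / 2) * (1 + ε / (2 * α + ε)) = α + ε := by
        field_simp
        ring
      calc (α + ε / 2) * (Nat.primeCounting (QQ k) : ℝ) ≤
            (α + ε / 2) * ((1 + ε / (2 * α + ε)) * Nat.primeCounting ⌊y⌋₊) :=
              mul_le_mul_of_nonneg_left hπ1 (by positivity)
        _ = (α + ε) * Nat.primeCounting ⌊y⌋₊ := by rw [← mul_assoc, hid]
        _ ≤ _ := hy3.trans hgood'
  have hterm : ∀ k ∈ R, ((Sk k).card : ℝ) ≤ 288 / (ε / 2) ^ 2 * 8 * (X ^ (1 - δ) * Real.log X) := by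
    intro k hk
    rw [hR, mem_filter] at hk
    have hXδ : 0 < X ^ δ := by positivity
    have hρk : 1 ≤ ρ ^ (k + 1) := one_le_pow₀ hρ1.le
    have hq1 : X ^ δ ≤ ρ ^ (k + 1) * X ^ δ := le_mul_of_one_le_left hXδ.le hρk
    have hq2 : X ^ δ < (QQ k : ℝ) + 1 := hq1.trans_lt (Nat.lt_floor_add_one _)
    have hq3 : Q₀ ≤ QQ k := by
      have : (Q₀ : ℝ) < (QQ k : ℝ) + 1 := by linarith
      have : Q₀ < QQ k + 1 := by exact_mod_cast this
      omega
    have hq4 : (QQ k : ℝ) ≤ 2 * X ^ (1 - δ) := by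
      refine (Nat.floor_le (by positivity)).trans ?_
      rw [pow_succ]
      calc ρ ^ k * ρ * X ^ δ = ρ * (ρ ^ k * X ^ δ) := by ring
        _ ≤ 2 * X ^ (1 - δ) := mul_le_mul hρ2 hk.2 (by positivity) (by norm_num)
    have hq5 : (Q₀ : ℝ) ≤ QQ k := by exact_mod_cast hq3
    have hq0 : (0 : ℝ) < QQ k := by linarith
    have hq6 : X ^ δ ≤ 2 * QQ k := by linarith
    have h1 := hone A hA X (by linarith) (QQ k) hq3 (Sk k) (by
      intro q hq
      rw [hSk, mem_filter] at hq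
      exact ⟨(hS1 q hq.1).1, hq.2⟩)
    refine h1.trans ?_
    rw [mul_assoc]
    refine mul_le_mul_of_nonneg_left ?_ (by positivity)
    have hl : Real.log (QQ k) ≤ 2 * Real.log X := by
      have h2 : (QQ k : ℝ) ≤ X ^ 2 := by
        have h3 : X ^ (1 - δ) ≤ X ^ (1 : ℝ) :=
          Real.rpow_le_rpow_of_exponent_le (by linarith) (by linarith)
        rw [Real.rpow_one] at h3
        nlinarith
      have h3 := Real.log_le_log hq0 h2
      rw [Real.log_pow] at h3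
      exact_mod_cast h3
    have hl0 : 0 ≤ Real.log (QQ k) := Real.log_nonneg (by linarith)
    have h2 : (X + (QQ k : ℝ) ^ 2) / QQ k ≤ 4 * X ^ (1 - δ) := by
      rw [div_le_iff₀ hq0]
      have hXX : X = X ^ (1 - δ) * X ^ δ := by
        rw [← Real.rpow_add hX0]; simp
      have h3 : X ≤ X ^ (1 - δ) * (2 * QQ k) := by
        calc X = X ^ (1 - δ) * X ^ δ := hXX
          _ ≤ _ := mul_le_mul_of_nonneg_left hq6 (by positivity)
      have h4 : (QQ k : ℝ) ^ 2 ≤ 2 * X ^ (1 - δ) * QQ k := by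
        rw [sq]
        exact mul_le_mul_of_nonneg_right hq4 hq0.le
      linarith
    calc (X + (QQ k : ℝ) ^ 2) * (Real.log (QQ k) / QQ k)
          = (X + (QQ k : ℝ) ^ 2) / QQ k * Real.log (QQ k) := by ring
      _ ≤ 4 * X ^ (1 - δ) * (2 * Real.log X) := mul_le_mul h2 hl hl0 (by positivity)
      _ = 8 * (X ^ (1 - δ) * Real.log X) := by ring
  have hRc : (R.card : ℝ) ≤ Real.log X * (1 / Real.log ρ + 1 / Real.log 2) := by
    have h1 : R.card ≤ J + 1 := by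
      refine (card_filter_le _ _).trans ?_
      rw [card_range]
    have h2 : (R.card : ℝ) ≤ J + 1 := by exact_mod_cast h1
    have h3 : (J : ℝ) ≤ Real.log X / Real.log ρ := Nat.floor_le (by positivity)
    have h4 : 1 ≤ Real.log X * (1 / Real.log 2) := by
      rw [mul_one_div, le_div_iff₀ hl2, one_mul]
      exact hlogX
    rw [mul_add, mul_one_div]
    linarith
  have hfin : (S.card : ℝ) ≤ K * X ^ (1 - δ) * (Real.log X) ^ 2 := by
    calc (S.card : ℝ) ≤ ((R.biUnion Sk).card : ℝ) := by exact_mod_cast card_le_card hcover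
      _ ≤ ∑ k ∈ R, ((Sk k).card : ℝ) := by exact_mod_cast card_biUnion_le
      _ ≤ ∑ _k ∈ R, 288 / (ε / 2) ^ 2 * 8 * (X ^ (1 - δ) * Real.log X) := sum_le_sum hterm
      _ = R.card * (288 / (ε / 2) ^ 2 * 8 * (X ^ (1 - δ) * Real.log X)) := by
          rw [sum_const, nsmul_eq_mul]
      _ ≤ (Real.log X * (1 / Real.log ρ + 1 / Real.log 2)) *
            (288 / (ε / 2) ^ 2 * 8 * (X ^ (1 - δ) * Real.log X)) :=
          mul_le_mul_of_nonneg_right hRc (by positivity)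
      _ = _ := by rw [hK]; ring
  refine hfin.trans ?_
  refine mul_le_mul_of_nonneg_right ?_ (sq_nonneg _)
  exact mul_le_mul_of_nonneg_right (le_max_right _ _) (by positivity)

end Pool.Agent.Q14.PCS
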