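import Mathlib

set_option autoImplicit false

/-!
# Coefficients of `1 / (Q(t) + z t^r)`: the argument-ordering argument

`x = -z / Q(0)`.  Off the real line the auxiliary sequences stay in the order of their arguments.
-/

namespace Pool.Agent.Q14.RZ

open Finset

/-- `arg a ≤ arg b ≤ arg (x a)` in a weak algebraic form (`s = ±1` is the sign of `Im x`). -/
def R (s : ℝ) (x a b : ℂ) : Prop :=
  0 ≤ s * (b * (starRingEnd ℂ) a).im ∧ 0 ≤ s * (x * a * (starRingEnd ℂ) b).im

variable {s : ℝ} {x : ℂ}

lemma R.refl (hs : 0 ≤ s * x.im) (a : ℂ) : R s x a a := by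
  constructor
  · simp [Complex.mul_im]; nlinarith
  · rw [mul_assoc, Complex.mul_conj, mul_comm x, Complex.im_ofReal_mul]
    nlinarith [Complex.normSq_nonneg a]

lemma R.zero_left (b : ℂ) : R s x 0 b := by simp [R]

lemma R.zero_right (a : ℂ) : R s x a 0 := by simp [R]

lemma R.add_left {a a' b : ℂ} (h : R s x a b) (h' : R s x a' b) : R s x (a + a') b := by
  obtain ⟨h1, h2⟩ := h
  obtain ⟨h3, h4⟩ := h'
  constructor
  · have : b * (starRingEnd ℂ) (a + a') = b * (starRingEnd ℂ) a + b * (starRingEnd ℂ) a' := by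
      rw [map_add]; ring
    rw [this, Complex.add_im]; linarith
  · have : x * (a + a') * (starRingEnd ℂ) b
        = x * a * (starRingEnd ℂ) b + x * a' * (starRingEnd ℂ) b := by ring
    rw [this, Complex.add_im]; linarith

lemma R.add_right {a b b' : ℂ} (h : R s x a b) (h' : R s x a b') : R s x a (b + b') := by
  obtain ⟨h1, h2⟩ := h
  obtain ⟨h3, h4⟩ := h'
  constructor
  · have : (b + b') * (starRingEnd ℂ) a = b * (starRingEnd ℂ) a + b' * (starRingEnd ℂ) a := by
      ring
    rw [this, Complex.add_im]; linarith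
  · have : x * a * (starRingEnd ℂ) (b + b')
        = x * a * (starRingEnd ℂ) b + x * a * (starRingEnd ℂ) b' := by rw [map_add]; ring
    rw [this, Complex.add_im]; linarith

lemma R.smul_left {a b : ℂ} {t : ℝ} (ht : 0 ≤ t) (h : R s x a b) : R s x (t * a) b := by
  obtain ⟨h1, h2⟩ := h
  constructor
  · have : b * (starRingEnd ℂ) (t * a) = (t : ℂ) * (b * (starRingEnd ℂ) a) := by
      rw [map_mul, Complex.conj_ofReal]; ring
    rw [this, Complex.im_ofReal_mul]
    nlinarith
  · have : x * (t * a) * (starRingEnd ℂ) b = (t : ℂ) * (x * a * (starRingEnd ℂ) b) := by ring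
    rw [this, Complex.im_ofReal_mul]
    nlinarith

lemma R.smul_right {a b : ℂ} {t : ℝ} (ht : 0 ≤ t) (h : R s x a b) : R s x a (t * b) := by
  obtain ⟨h1, h2⟩ := h
  constructor
  · have : (t * b) * (starRingEnd ℂ) a = (t : ℂ) * (b * (starRingEnd ℂ) a) := by ring
    rw [this, Complex.im_ofReal_mul]
    nlinarith
  · have : x * a * (starRingEnd ℂ) (t * b) = (t : ℂ) * (x * a * (starRingEnd ℂ) b) := by
      rw [map_mul, Complex.conj_ofReal]; ring
    rw [this, Complex.im_ofReal_mul]
    nlinarith

lemma R.sum_left {ι : Type*} (S : Finset ι) (f : ι → ℂ) (b : ℂ) (h : ∀ i ∈ S, R s x (f i) b) :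
    R s x (∑ i ∈ S, f i) b := by
  classical
  induction S using Finset.induction_on with
  | empty => simpa using R.zero_left b
  | insert a S ha ih =>
    rw [Finset.sum_insert ha]
    exact R.add_left (h a (mem_insert_self _ _)) (ih fun i hi => h i (mem_insert_of_mem hi))

lemma R.sum_right {ι : Type*} (S : Finset ι) (f : ι → ℂ) (a : ℂ) (h : ∀ i ∈ S, R s x a (f i)) :
    R s x a (∑ i ∈ S, f i) := by
  classical
  induction S using Finset.induction_on with
  | empty => simpa using R.zero_right a
  | insert b S hb ih =>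
    rw [Finset.sum_insert hb]
    exact R.add_right (h b (mem_insert_self _ _)) (ih fun i hi => h i (mem_insert_of_mem hi))

lemma R.rot {a b : ℂ} (h : R s x a b) : R s x b (x * a) := by
  obtain ⟨h1, h2⟩ := h
  refine ⟨h2, ?_⟩
  have : x * b * (starRingEnd ℂ) (x * a)
      = ((Complex.normSq x : ℝ) : ℂ) * (b * (starRingEnd ℂ) a) := by
    rw [map_mul, ← Complex.mul_conj]; ring
  rw [this, Complex.im_ofReal_mul]
  nlinarith [Complex.normSq_nonneg x]

/-- The case `r ≥ 1`, off the real axis. -/
lemma core_pos (hs : 0 < s * x.im) {d : ℕ} (hd : 0 < d) {c : ℕ → ℝ} (hc : ∀ i, 0 < c i)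
    {r : ℕ} (hr : 1 ≤ r) (G : ℕ → ℕ → ℂ) (h0 : ∀ i < d, G i 0 = 1)
    (hrec : ∀ i < d, ∀ m, G i (m + 1) = (if r ≤ m + 1 then x * G 0 (m + 1 - r) else 0)
      + ∑ l ∈ Finset.Ico i d, (c l : ℂ) * G l m) :
    ∀ m, G 0 m ≠ 0 := by
  have hs' : 0 ≤ s * x.im := hs.le
  -- the invariant
  have key : ∀ m, (∀ j ≤ m, m < j + r → ∀ i < d, R s x (G 0 j) (G i m)) ∧
      (∀ i k, i ≤ k → k < d → R s x (G i m) (G k m)) := by
    intro m
    induction m using Nat.strong_induction_on with
    | _ m ih =>
      rcases m with _ | m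
      · refine ⟨?_, ?_⟩
        · intro j hj _ i hi
          obtain rfl : j = 0 := by omega
          rw [h0 0 hd, h0 i hi]
          exact R.refl hs' 1
        · intro i k hik hk
          rw [h0 i (by omega), h0 k hk]
          exact R.refl hs' 1
      · obtain ⟨ih1, ih2⟩ := ih m (Nat.lt_succ_self m)
        -- `E` is above all `G l m`
        set E : ℂ := if r ≤ m + 1 then x * G 0 (m + 1 - r) else 0 with hE
        have hEl : ∀ l < d, R s x (G l m) E := by
          intro l hl
          by_cases hrm : r ≤ m + 1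
          · rw [hE, if_pos hrm]
            exact R.rot (ih1 (m + 1 - r) (by omega) (by omega) l hl)
          · rw [hE, if_neg hrm]
            exact R.zero_right _
        have hEj : ∀ j ≤ m, m + 1 < j + r → R s x (G 0 j) E := by
          intro j hj hjr
          by_cases hrm : r ≤ m + 1
          · rw [hE, if_pos hrm]
            exact R.rot ((ih j (by omega)).1 (m + 1 - r) (by omega) (by omega) 0 hd)
          · rw [hE, if_neg hrm]
            exact R.zero_right _
        have h2 : ∀ i k, i ≤ k → k < d → R s x (G i (m + 1)) (G k (m + 1)) := by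
          intro i k hik hk
          have hM : G k (m + 1) = E + ∑ l ∈ Finset.Ico k d, (c l : ℂ) * G l m := hrec k hk m
          have hi : G i (m + 1) = G k (m + 1) + ∑ l ∈ Finset.Ico i k, (c l : ℂ) * G l m := by
            rw [hM, hrec i (by omega) m, ← Finset.sum_Ico_consecutive _ hik hk.le]
            rw [← hE]; ring
          rw [hi]
          refine R.add_left (R.refl hs' _) ?_
          refine R.sum_left _ _ _ ?_
          intro l hl
          rw [Finset.mem_Ico] at hl
          refine R.smul_left (hc l).le ?_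
          rw [hM]
          refine R.add_right (hEl l (by omega)) ?_
          refine R.sum_right _ _ _ ?_
          intro l' hl'
          rw [Finset.mem_Ico] at hl'
          exact R.smul_right (hc l').le (ih2 l l' (by omega) (by omega))
        refine ⟨?_, h2⟩
        intro j hj hjr i hi
        rcases Nat.lt_or_ge m j with hjm | hjm
        · obtain rfl : j = m + 1 := by omega
          exact h2 0 i (Nat.zero_le _) hi
        · rw [hrec i hi m, ← hE]
          refine R.add_right (hEj j hjm hjr) ?_
          refine R.sum_right _ _ _ ?_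
          intro l hl
          rw [Finset.mem_Ico] at hl
          exact R.smul_right (hc l).le (ih1 j hjm (by omega) l (by omega))
  intro m
  induction m with
  | zero => rw [h0 0 hd]; exact one_ne_zero
  | succ m ihm =>
    intro hz
    have h1 := hrec 0 hd m
    rw [hz] at h1
    have hE : R s x (G 0 m) (if r ≤ m + 1 then x * G 0 (m + 1 - r) else 0) := by
      by_cases hrm : r ≤ m + 1
      · rw [if_pos hrm]
        exact R.rot ((key m).1 (m + 1 - r) (by omega) (by omega) 0 hd)
      · rw [if_neg hrm]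
        exact R.zero_right _
    have hS : (∑ l ∈ Finset.Ico 0 d, (c l : ℂ) * G l m)
        = c 0 * G 0 m + ∑ l ∈ Finset.Ico 1 d, (c l : ℂ) * G l m := by
      rw [Finset.sum_eq_sum_Ico_succ_bot hd]
    have hT : R s x (G 0 m) (∑ l ∈ Finset.Ico 1 d, (c l : ℂ) * G l m) := by
      refine R.sum_right _ _ _ ?_
      intro l hl
      rw [Finset.mem_Ico] at hl
      exact R.smul_right (hc l).le ((key m).2 0 l (by omega) (by omega))
    have hU := R.add_right hE hT
    have hneg : (if r ≤ m + 1 then x * G 0 (m + 1 - r) else 0)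
        + ∑ l ∈ Finset.Ico 1 d, (c l : ℂ) * G l m = -(c 0 * G 0 m) := by
      rw [hS] at h1
      linear_combination -h1
    rw [hneg] at hU
    have h2 := hU.2
    have h3 : x * G 0 m * (starRingEnd ℂ) (-(c 0 * G 0 m))
        = ((-(c 0 * Complex.normSq (G 0 m)) : ℝ) : ℂ) * x := by
      rw [map_neg, map_mul, Complex.conj_ofReal]
      push_cast
      rw [← Complex.mul_conj]
      ring
    rw [h3, Complex.im_ofReal_mul] at h2
    have h4 : 0 < Complex.normSq (G 0 m) := Complex.normSq_pos.mpr ihm
    nlinarith [mul_pos (mul_pos (hc 0) h4) hs]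

/-- The case `r ≥ 1`, on the non-negative real axis. -/
lemma core_pos_real {y : ℝ} (hy : 0 ≤ y) {d : ℕ} (hd : 0 < d) {c : ℕ → ℝ} (hc : ∀ i, 0 < c i)
    {r : ℕ} (G : ℕ → ℕ → ℂ) (h0 : ∀ i < d, G i 0 = 1)
    (hrec : ∀ i < d, ∀ m, G i (m + 1) = (if r ≤ m + 1 then (y : ℂ) * G 0 (m + 1 - r) else 0)
      + ∑ l ∈ Finset.Ico i d, (c l : ℂ) * G l m) (hr : 1 ≤ r) :
    ∀ m, G 0 m ≠ 0 := by
  have key : ∀ m, ∀ i < d, ∃ g : ℝ, 0 < g ∧ G i m = g := by
    intro m
    induction m using Nat.strong_induction_on with
    | _ m ih =>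
      rcases m with _ | m
      · intro i hi
        exact ⟨1, one_pos, by rw [h0 i hi]; simp⟩
      · intro i hi
        have hm := ih m (Nat.lt_succ_self m)
        choose! g hg using hm
        have hE : ∃ e : ℝ, 0 ≤ e ∧ (if r ≤ m + 1 then (y : ℂ) * G 0 (m + 1 - r) else 0) = e := by
          by_cases hrm : r ≤ m + 1
          · obtain ⟨e, he, he'⟩ := ih (m + 1 - r) (by omega) 0 hd
            exact ⟨y * e, by positivity, by rw [if_pos hrm, he']; push_cast; rfl⟩
          · exact ⟨0, le_refl _, by rw [if_neg hrm]; simp⟩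
        obtain ⟨e, he, he'⟩ := hE
        refine ⟨e + ∑ l ∈ Finset.Ico i d, c l * g l, ?_, ?_⟩
        · have : 0 < ∑ l ∈ Finset.Ico i d, c l * g l := by
            refine Finset.sum_pos ?_ ⟨i, by simp [hi]⟩
            intro l hl
            rw [Finset.mem_Ico] at hl
            exact mul_pos (hc l) (hg l hl.2).1
          linarith
        · rw [hrec i hi m, he']
          push_cast
          congr 1
          refine Finset.sum_congr rfl ?_
          intro l hl
          rw [Finset.mem_Ico] at hl
          rw [(hg l hl.2).2]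
  intro m
  obtain ⟨g, hg, hg'⟩ := key m 0 hd
  rw [hg']
  exact_mod_cast hg.ne'

/-- The case `r = 0`, off the real axis. -/
lemma core_zero (hs : 0 < s * x.im) {d : ℕ} (hd : 0 < d) {c : ℕ → ℝ} (hc : ∀ i, 0 < c i)
    (N : ℕ → ℕ → ℂ) (h0 : ∀ i < d, N i 0 = 1)
    (hrec : ∀ i < d, ∀ m, N i (m + 1) = x * (∑ l ∈ Finset.Ico 0 i, (c l : ℂ) * N l m)
      + ∑ l ∈ Finset.Ico i d, (c l : ℂ) * N l m) :
    ∀ m, N 0 m ≠ 0 := by
  have hs' : 0 ≤ s * x.im := hs.le
  have key : ∀ m, ∀ i k, i ≤ k → k < d → R s x (N i m) (N k m) := by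
    intro m
    induction m with
    | zero =>
      intro i k hik hk
      rw [h0 i (by omega), h0 k hk]
      exact R.refl hs' 1
    | succ m ih =>
      intro i k hik hk
      set V : ℂ := ∑ l ∈ Finset.Ico i k, (c l : ℂ) * N l m with hV
      set M : ℂ := x * (∑ l ∈ Finset.Ico 0 i, (c l : ℂ) * N l m)
        + ∑ l ∈ Finset.Ico k d, (c l : ℂ) * N l m with hM
      have h1 : N i (m + 1) = V + M := by
        rw [hrec i (by omega) m, ← Finset.sum_Ico_consecutive _ hik hk.le, hV, hM]; ring
      have h2 : N k (m + 1) = M + x * V := by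
        rw [hrec k hk m, ← Finset.sum_Ico_consecutive _ (Nat.zero_le i) hik, hV, hM]; ring
      -- V ≤ M
      have hVM : R s x V M := by
        refine R.sum_left _ _ _ ?_
        intro l hl
        rw [Finset.mem_Ico] at hl
        refine R.smul_left (hc l).le ?_
        refine R.add_right ?_ ?_
        · refine R.rot ?_
          refine R.sum_left _ _ _ ?_
          intro l' hl'
          rw [Finset.mem_Ico] at hl'
          exact R.smul_left (hc l').le (ih l' l (by omega) (by omega))
        · refine R.sum_right _ _ _ ?_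
          intro l' hl'
          rw [Finset.mem_Ico] at hl'
          exact R.smul_right (hc l').le (ih l l' (by omega) (by omega))
      rw [h1, h2]
      refine R.add_left (R.add_right hVM (R.rot (R.refl hs' V))) ?_
      exact R.add_right (R.refl hs' M) (R.rot hVM)
  intro m
  induction m with
  | zero => rw [h0 0 hd]; exact one_ne_zero
  | succ m ihm =>
    intro hz
    have h1 := hrec 0 hd m
    rw [hz] at h1
    simp only [Finset.Ico_self, Finset.sum_empty, mul_zero, zero_add] at h1
    rw [Finset.sum_eq_sum_Ico_succ_bot hd] at h1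
    have hT : R s x (N 0 m) (∑ l ∈ Finset.Ico 1 d, (c l : ℂ) * N l m) := by
      refine R.sum_right _ _ _ ?_
      intro l hl
      rw [Finset.mem_Ico] at hl
      exact R.smul_right (hc l).le (key m 0 l (by omega) (by omega))
    have hneg : ∑ l ∈ Finset.Ico 1 d, (c l : ℂ) * N l m = -(c 0 * N 0 m) := by
      simp only [zero_add] at h1
      linear_combination -h1
    rw [hneg] at hT
    have h2 := hT.2
    have h3 : x * N 0 m * (starRingEnd ℂ) (-(c 0 * N 0 m))
        = ((-(c 0 * Complex.normSq (N 0 m)) : ℝ) : ℂ) * x := by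
      rw [map_neg, map_mul, Complex.conj_ofReal]
      push_cast
      rw [← Complex.mul_conj]
      ring
    rw [h3, Complex.im_ofReal_mul] at h2
    have h4 : 0 < Complex.normSq (N 0 m) := Complex.normSq_pos.mpr ihm
    nlinarith [mul_pos (mul_pos (hc 0) h4) hs]

/-- The case `r = 0`, on the non-negative real axis. -/
lemma core_zero_real {y : ℝ} (hy : 0 ≤ y) {d : ℕ} (hd : 0 < d) {c : ℕ → ℝ} (hc : ∀ i, 0 < c i)
    (N : ℕ → ℕ → ℂ) (h0 : ∀ i < d, N i 0 = 1)
    (hrec : ∀ i < d, ∀ m, N i (m + 1) = (y : ℂ) * (∑ l ∈ Finset.Ico 0 i, (c l : ℂ) * N l m)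
      + ∑ l ∈ Finset.Ico i d, (c l : ℂ) * N l m) :
    ∀ m, N 0 m ≠ 0 := by
  have key : ∀ m, ∀ i < d, ∃ g : ℝ, 0 < g ∧ N i m = g := by
    intro m
    induction m with
    | zero =>
      intro i hi
      exact ⟨1, one_pos, by rw [h0 i hi]; simp⟩
    | succ m ih =>
      intro i hi
      choose! g hg using ih
      refine ⟨y * (∑ l ∈ Finset.Ico 0 i, c l * g l) + ∑ l ∈ Finset.Ico i d, c l * g l, ?_, ?_⟩
      · have h1 : 0 < ∑ l ∈ Finset.Ico i d, c l * g l := by
          refine Finset.sum_pos ?_ ⟨i, by simp [hi]⟩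
          intro l hl
          rw [Finset.mem_Ico] at hl
          exact mul_pos (hc l) (hg l hl.2).1
        have h2 : 0 ≤ ∑ l ∈ Finset.Ico 0 i, c l * g l := by
          refine Finset.sum_nonneg ?_
          intro l hl
          rw [Finset.mem_Ico] at hl
          exact (mul_pos (hc l) (hg l (by omega)).1).le
        positivity
      · rw [hrec i hi m]
        push_cast
        congr 1
        · congr 1
          refine Finset.sum_congr rfl ?_
          intro l hl
          rw [Finset.mem_Ico] at hl
          rw [(hg l (by omega)).2]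
        · refine Finset.sum_congr rfl ?_
          intro l hl
          rw [Finset.mem_Ico] at hl
          rw [(hg l hl.2).2]
  intro m
  obtain ⟨g, hg, hg'⟩ := key m 0 hd
  rw [hg']
  exact_mod_cast hg.ne'

end Pool.Agent.Q14.RZ
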