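import Mathlib
import Pool.Agent.Q14.RZCore

set_option autoImplicit false

/-!
# Coefficients of `1 / (Q(t) + z t^r)`: from power series to the recursions
-/

namespace Pool.Agent.Q14.RZ

open Polynomial Finset

/-- `g · ∏_{l<i} (1 - c_l T)`, coefficient `m`, times `q`. -/
noncomputable def G (g : PowerSeries ℂ) (q : ℂ) (c : ℕ → ℝ) (i m : ℕ) : ℂ :=
  q * PowerSeries.coeff m
    (g * ∏ l ∈ range i, (1 - PowerSeries.C ((c l : ℝ) : ℂ) * PowerSeries.X))

lemma G_succ_zero (g : PowerSeries ℂ) (q : ℂ) (c : ℕ → ℝ) (i : ℕ) :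
    G g q c (i + 1) 0 = G g q c i 0 := by
  unfold G
  rw [prod_range_succ, ← mul_assoc, mul_sub, mul_one, map_sub]
  rw [← mul_assoc, PowerSeries.coeff_zero_mul_X]
  simp

lemma G_succ_succ (g : PowerSeries ℂ) (q : ℂ) (c : ℕ → ℝ) (i m : ℕ) :
    G g q c (i + 1) (m + 1) = G g q c i (m + 1) - c i * G g q c i m := by
  unfold G
  rw [prod_range_succ, ← mul_assoc, mul_sub, mul_one, map_sub]
  rw [← mul_assoc, PowerSeries.coeff_succ_mul_X, PowerSeries.coeff_mul_C]
  ring

lemma G_zero_eq (g : PowerSeries ℂ) (q : ℂ) (c : ℕ → ℝ) (i j : ℕ) :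
    G g q c i 0 = G g q c j 0 := by
  have : ∀ i, G g q c i 0 = G g q c 0 0 := by
    intro i
    induction i with
    | zero => rfl
    | succ i ih => rw [G_succ_zero, ih]
  rw [this i, this j]

lemma G_sum (g : PowerSeries ℂ) (q : ℂ) (c : ℕ → ℝ) (m i k : ℕ) :
    G g q c i (m + 1) = G g q c (i + k) (m + 1)
      + ∑ l ∈ Finset.Ico i (i + k), (c l : ℂ) * G g q c l m := by
  induction k with
  | zero => simp
  | succ k ih =>
    rw [ih, ← add_assoc, Finset.sum_Ico_succ_top (by omega), G_succ_succ]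
    ring

lemma G_sum' (g : PowerSeries ℂ) (q : ℂ) (c : ℕ → ℝ) (m : ℕ) {i d : ℕ} (h : i ≤ d) :
    G g q c i (m + 1) = G g q c d (m + 1)
      + ∑ l ∈ Finset.Ico i d, (c l : ℂ) * G g q c l m := by
  obtain ⟨k, rfl⟩ := Nat.exists_eq_add_of_le h
  exact G_sum g q c m i k

/-- the complex denominator -/
noncomputable def cden (q : ℂ) (c : ℕ → ℝ) (d r : ℕ) (z : ℂ) : PowerSeries ℂ :=
  PowerSeries.C q * ∏ l ∈ range d, (1 - PowerSeries.C ((c l : ℝ) : ℂ) * PowerSeries.X)
    + PowerSeries.C z * PowerSeries.X ^ r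

lemma G_top {g : PowerSeries ℂ} {q : ℂ} (hq : q ≠ 0) {c : ℕ → ℝ} {d r : ℕ} {z : ℂ}
    (hg : g * cden q c d r z = 1) (m : ℕ) :
    G g q c d m = (if m = 0 then 1 else 0)
      + (if r ≤ m then (-z / q) * G g q c 0 (m - r) else 0) := by
  have h1 : PowerSeries.C q * (g * ∏ l ∈ range d,
      (1 - PowerSeries.C ((c l : ℝ) : ℂ) * PowerSeries.X))
      = 1 - PowerSeries.C z * (g * PowerSeries.X ^ r) := by
    unfold cden at hg
    linear_combination hg
  have h2 := congrArg (PowerSeries.coeff m) h1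
  rw [PowerSeries.coeff_C_mul, map_sub, PowerSeries.coeff_C_mul,
    PowerSeries.coeff_mul_X_pow', PowerSeries.coeff_one] at h2
  unfold G
  rw [h2]
  simp only [range_zero, prod_empty, mul_one]
  split_ifs <;> field_simp <;> ring

/-- The analytic heart, `r ≥ 1`. -/
lemma coeff_ne_zero_pos {g : PowerSeries ℂ} {q : ℝ} (hq : 0 < q) {c : ℕ → ℝ}
    (hc : ∀ i, 0 < c i) {d r : ℕ} (hd : 0 < d) (hr : 1 ≤ r) {z : ℂ}
    (hz : ¬ (0 < z.re ∧ z.im = 0))
    (hg : g * cden q c d r z = 1) (m : ℕ) : PowerSeries.coeff m g ≠ 0 := by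
  have hq' : (q : ℂ) ≠ 0 := by exact_mod_cast hq.ne'
  have hG0 : ∀ i < d, G g q c i 0 = 1 := by
    intro i _
    rw [G_zero_eq g q c i d, G_top hq' hg 0]
    have : ¬ r ≤ 0 := by omega
    simp [this]
  have hrec : ∀ i < d, ∀ m, G g q c i (m + 1)
      = (if r ≤ m + 1 then (-z / q) * G g q c 0 (m + 1 - r) else 0)
        + ∑ l ∈ Finset.Ico i d, (c l : ℂ) * G g q c l m := by
    intro i hi m
    rw [G_sum' g q c m hi.le, G_top hq' hg (m + 1)]
    simp
  have hmain : G g q c 0 m ≠ 0 := by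
    by_cases him : z.im = 0
    · have hre : z.re ≤ 0 := by
        by_contra h
        exact hz ⟨not_le.mp h, him⟩
      have hx : (-z / q : ℂ) = ((-z.re / q : ℝ) : ℂ) := by
        apply Complex.ext
        · rw [Complex.div_ofReal_re]; simp
        · rw [Complex.div_ofReal_im]; simp [him]
      rw [hx] at hrec
      exact core_pos_real (y := -z.re / q) (by
        apply div_nonneg _ hq.le; linarith) hd hc (G g q c) hG0 hrec hr m
    · have him' : (-z / q : ℂ).im = -z.im / q := by rw [Complex.div_ofReal_im]; simp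
      refine core_pos (s := (-z / q : ℂ).im) (x := -z / q) ?_ hd hc hr (G g q c) hG0 hrec m
      rw [him']
      have : -z.im / q ≠ 0 := div_ne_zero (neg_ne_zero.mpr him) hq.ne'
      exact mul_self_pos.mpr this
  intro h0
  apply hmain
  unfold G
  simp [h0]

/-- The analytic heart, `r = 0`. -/
lemma coeff_ne_zero_zero {g : PowerSeries ℂ} {q : ℝ} (hq : 0 < q) {c : ℕ → ℝ}
    (hc : ∀ i, 0 < c i) {d : ℕ} (hd : 0 < d) {z : ℂ}
    (hz : ¬ (0 < z.re ∧ z.im = 0))
    (hg : g * cden q c d 0 z = 1) (m : ℕ) : PowerSeries.coeff m g ≠ 0 := by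
  have hq' : (q : ℂ) ≠ 0 := by exact_mod_cast hq.ne'
  set x : ℂ := -z / q with hx
  have htop : ∀ m, G g q c d m = (if m = 0 then 1 else 0) + x * G g q c 0 m := by
    intro m
    rw [G_top hq' hg m]
    simp [hx]
  have h00 : (1 - x) * G g q c 0 0 = 1 := by
    have := htop 0
    rw [G_zero_eq g q c d 0] at this
    simp at this
    linear_combination this
  set N : ℕ → ℕ → ℂ := fun i m => (1 - x) ^ (m + 1) * G g q c i m with hN
  have hN0 : ∀ i < d, N i 0 = 1 := by
    intro i _
    simp only [hN]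
    rw [G_zero_eq g q c i 0]
    simpa using h00
  have hS : ∀ m, (1 - x) * G g q c 0 (m + 1)
      = ∑ l ∈ Finset.Ico 0 d, (c l : ℂ) * G g q c l m := by
    intro m
    have h1 := G_sum' g q c m (Nat.zero_le d)
    rw [htop (m + 1)] at h1
    simp at h1
    simp
    linear_combination h1
  have hrec : ∀ i < d, ∀ m, N i (m + 1)
      = x * (∑ l ∈ Finset.Ico 0 i, (c l : ℂ) * N l m)
        + ∑ l ∈ Finset.Ico i d, (c l : ℂ) * N l m := by
    intro i hi m
    have h1 := G_sum' g q c m hi.le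
    rw [htop (m + 1)] at h1
    have h2 := hS m
    rw [← Finset.sum_Ico_consecutive _ (Nat.zero_le i) hi.le] at h2
    have h3 : ∀ a b : ℕ, ∑ l ∈ Finset.Ico a b, (c l : ℂ) * N l m
        = (1 - x) ^ (m + 1) * ∑ l ∈ Finset.Ico a b, (c l : ℂ) * G g q c l m := by
      intro a b
      rw [Finset.mul_sum]
      refine Finset.sum_congr rfl ?_
      intro l _
      simp only [hN]; ring
    rw [h3, h3]
    simp only [hN]
    rw [h1]
    simp only [Nat.add_eq_zero_iff, one_ne_zero, and_false, if_false, zero_add]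
    linear_combination ((1 - x) ^ (m + 1) * x) * h2
  have hmain : N 0 m ≠ 0 := by
    by_cases him : z.im = 0
    · have hre : z.re ≤ 0 := by
        by_contra h
        exact hz ⟨not_le.mp h, him⟩
      have hx' : x = ((-z.re / q : ℝ) : ℂ) := by
        rw [hx]
        apply Complex.ext
        · rw [Complex.div_ofReal_re]; simp
        · rw [Complex.div_ofReal_im]; simp [him]
      rw [hx'] at hrec
      exact core_zero_real (y := -z.re / q) (by
        apply div_nonneg _ hq.le; linarith) hd hc N hN0 hrec m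
    · have him' : x.im = -z.im / q := by rw [hx, Complex.div_ofReal_im]; simp
      refine core_zero (s := x.im) (x := x) ?_ hd hc N hN0 hrec m
      rw [him']
      have : -z.im / q ≠ 0 := div_ne_zero (neg_ne_zero.mpr him) hq.ne'
      exact mul_self_pos.mpr this
  intro h0
  apply hmain
  simp only [hN]
  unfold G
  simp [h0]

/-- Factorisation of a product of linear factors with positive real zeros. -/
lemma exists_factor (S : Multiset ℂ) (hS : ∀ w ∈ S, 0 < w.re ∧ w.im = 0) :
    ∃ (c : ℕ → ℝ) (k : ℂ), (∀ i, 0 < c i) ∧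
      (S.map fun w => (X - C w : ℂ[X])).prod
        = C k * ∏ i ∈ range (Multiset.card S), (1 - C ((c i : ℝ) : ℂ) * X) := by
  induction S using Multiset.induction_on with
  | empty => exact ⟨fun _ => 1, 1, fun _ => one_pos, by simp⟩
  | cons w S ih =>
    obtain ⟨c, k, hc, h⟩ := ih fun v hv => hS v (Multiset.mem_cons_of_mem hv)
    obtain ⟨hw1, hw2⟩ := hS w (Multiset.mem_cons_self w S)
    have hw : w = ((w.re : ℝ) : ℂ) := Complex.ext rfl (by simpa using hw2)
    refine ⟨Function.update c (Multiset.card S) (1 / w.re), -w * k, ?_, ?_⟩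
    · intro i
      by_cases hi : i = Multiset.card S
      · subst hi; simp only [Function.update_self]; positivity
      · rw [Function.update_of_ne hi]; exact hc i
    · rw [Multiset.map_cons, Multiset.prod_cons, h, Multiset.card_cons, prod_range_succ,
        Function.update_self]
      have h1 : ∏ i ∈ range (Multiset.card S),
          (1 - C (((Function.update c (Multiset.card S) (1 / w.re) i : ℝ)) : ℂ) * X)
          = ∏ i ∈ range (Multiset.card S), (1 - C ((c i : ℝ) : ℂ) * (X : ℂ[X])) := by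
        refine prod_congr rfl ?_
        intro i hi
        rw [mem_range] at hi
        rw [Function.update_of_ne hi.ne]
      rw [h1]
      have h2 : (X - C w : ℂ[X]) = C (-w) * (1 - C (((1 / w.re : ℝ)) : ℂ) * X) := by
        have h3 : (C (-w) : ℂ[X]) * C (((1 / w.re : ℝ)) : ℂ) = -1 := by
          rw [← C_mul]
          have : -w * (((1 / w.re : ℝ)) : ℂ) = -1 := by
            have hne : ((w.re : ℝ) : ℂ) ≠ 0 := by exact_mod_cast hw1.ne'
            rw [hw]
            push_cast
            simp only [Complex.ofReal_re]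
            field_simp
          rw [this]; simp
        rw [mul_sub, mul_one, ← mul_assoc, h3]
        simp; ring
      rw [h2, C_mul]
      ring

lemma exists_factor_poly (Q : ℝ[X]) (hQ : Q ≠ 0)
    (hz : ∀ w : ℂ, aeval w Q = 0 → 0 < w.re ∧ w.im = 0) :
    ∃ c : ℕ → ℝ, (∀ i, 0 < c i) ∧
      Q.map (algebraMap ℝ ℂ) = C ((Q.eval 0 : ℝ) : ℂ)
        * ∏ i ∈ range Q.natDegree, (1 - C ((c i : ℝ) : ℂ) * X) := by
  set F : ℂ[X] := Q.map (algebraMap ℝ ℂ) with hF
  have hF0 : F ≠ 0 := (Polynomial.map_ne_zero_iff (algebraMap ℝ ℂ).injective).mpr hQ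
  have hsp : F.Splits := IsAlgClosed.splits F
  have hroots : ∀ w ∈ F.roots, 0 < w.re ∧ w.im = 0 := by
    intro w hw
    apply hz w
    rw [mem_roots hF0, IsRoot.def, hF, eval_map_algebraMap] at hw
    exact hw
  obtain ⟨c, k, hc, h⟩ := exists_factor F.roots hroots
  have hcard : Multiset.card F.roots = Q.natDegree := by
    rw [← hsp.natDegree_eq_card_roots, hF, natDegree_map]
  have h1 : F = C (F.leadingCoeff * k)
      * ∏ i ∈ range Q.natDegree, (1 - C ((c i : ℝ) : ℂ) * X) := by
    conv_lhs => rw [hsp.eq_prod_roots, h, hcard]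
    rw [C_mul]; ring
  refine ⟨c, hc, ?_⟩
  have h2 : F.eval 0 = F.leadingCoeff * k := by
    conv_lhs => rw [h1]
    simp [eval_prod]
  have h3 : F.eval 0 = ((Q.eval 0 : ℝ) : ℂ) := by
    rw [hF, eval_map_algebraMap]
    have := Polynomial.aeval_algebraMap_apply ℂ (0 : ℝ) Q
    simp at this
    simpa using this
  rw [h1, ← h2, h3]

end Pool.Agent.Q14.RZ
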