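import Mathlib

/-!
Counting lemma for the lattice points on a hyperbola arc `(i-u)(j-v)=uv`, and the degree bound for
interior points of the Wang-Shi split.
-/

namespace Pool.Agent.Q14.WS

open Finset

/-- If a finite set `S` of integers in `[m, M]` has no two consecutive members and all `s ∈ S` with
`s + 2 ∈ S` are equal to each other, then `3 |S| ≤ M - m + 4` (as soon as `m ≤ M + 4`). -/
theorem gap_count (S : Finset ℤ) (m M : ℤ) (hmM : m ≤ M + 4) (hS : ∀ s ∈ S, m ≤ s ∧ s ≤ M)
    (h1 : ∀ s ∈ S, s + 1 ∉ S) (h2 : ∀ s ∈ S, ∀ t ∈ S, s + 2 ∈ S → t + 2 ∈ S → s = t) :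
    3 * (S.card : ℤ) ≤ M - m + 4 := by
  classical
  by_cases hne : S = ∅
  · subst hne; simp; linarith
  obtain ⟨s0, hs0⟩ := Finset.nonempty_iff_ne_empty.mpr hne
  set B := S.filter (fun s => s + 2 ∈ S) with hB
  have hBc : B.card ≤ 1 := by
    rw [Finset.card_le_one]
    intro s hs t ht
    simp only [hB, Finset.mem_filter] at hs ht
    exact h2 s hs.1 t ht.1 hs.2 ht.2
  set G := S.filter (fun s => ¬ (s + 2 ∈ S)) with hG
  have hGc : B.card + G.card = S.card := by
    rw [hB, hG]; exact Finset.card_filter_add_card_filter_not (s := S) (fun s => s + 2 ∈ S)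
  let T1 := S.image (fun s => s + 1)
  let T2 := G.image (fun s => s + 2)
  have c1 : T1.card = S.card := Finset.card_image_of_injective _ (add_left_injective 1)
  have c2 : T2.card = G.card := Finset.card_image_of_injective _ (add_left_injective 2)
  have d1 : Disjoint S T1 := by
    rw [Finset.disjoint_left]; intro x hx hx'
    obtain ⟨s, hs, rfl⟩ := Finset.mem_image.mp hx'
    exact h1 s hs hx
  have d2 : Disjoint (S ∪ T1) T2 := by
    rw [Finset.disjoint_left]; intro x hx hx'
    obtain ⟨s, hs, rfl⟩ := Finset.mem_image.mp hx'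
    simp only [hG, Finset.mem_filter] at hs
    rcases Finset.mem_union.mp hx with h | h
    · exact hs.2 h
    · obtain ⟨t, ht, hts⟩ := Finset.mem_image.mp h
      have : t = s + 1 := by linarith
      exact h1 s hs.1 (this ▸ ht)
  have hsub : (S ∪ T1) ∪ T2 ⊆ Finset.Icc m (M + 2) := by
    intro x hx
    rw [Finset.mem_Icc]
    rcases Finset.mem_union.mp hx with h | h
    · rcases Finset.mem_union.mp h with h | h
      · have := hS x h; constructor <;> linarith
      · obtain ⟨t, ht, rfl⟩ := Finset.mem_image.mp h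
        have := hS t ht; constructor <;> linarith
    · obtain ⟨t, ht, rfl⟩ := Finset.mem_image.mp h
      simp only [hG, Finset.mem_filter] at ht
      have := hS t ht.1; constructor <;> linarith
  have hc := Finset.card_le_card hsub
  rw [Finset.card_union_of_disjoint d2, Finset.card_union_of_disjoint d1, c1, c2, Int.card_Icc] at hc
  have hs := hS s0 hs0
  have h3 : ((M + 2 + 1 - m).toNat : ℤ) = M + 2 + 1 - m := Int.toNat_of_nonneg (by linarith)
  have : ((S.card + S.card + G.card : ℕ) : ℤ) ≤ M + 2 + 1 - m := by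
    rw [← h3]; exact_mod_cast hc
  push_cast at this
  have h4 : (B.card : ℤ) ≤ 1 := by exact_mod_cast hBc
  have h5 : (B.card : ℤ) + G.card = S.card := by exact_mod_cast hGc
  linarith

/-- The lattice points `(i, j)`, `1 ≤ i, j ≤ d`, with `u / i + v / j = 1`. -/
noncomputable def H (d : ℕ) (u v : ℝ) : Finset (ℕ × ℕ) :=
  (Finset.Icc 1 d ×ˢ Finset.Icc 1 d).filter (fun q => u * q.2 + v * q.1 = q.1 * q.2)

open Classical in
/-- `κ t = t` for integer `t` and `⌈t⌉ + 1` otherwise. -/
noncomputable def κ (t : ℝ) : ℤ := if (⌈t⌉ : ℝ) = t then ⌈t⌉ else ⌈t⌉ + 1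

open Classical in
/-- indicator of integrality -/
noncomputable def ι (t : ℝ) : ℤ := if (⌈t⌉ : ℝ) = t then 1 else 0

theorem mem_H {d : ℕ} {u v : ℝ} {q : ℕ × ℕ} : q ∈ H d u v ↔
    (1 ≤ q.1 ∧ q.1 ≤ d) ∧ (1 ≤ q.2 ∧ q.2 ≤ d) ∧ u * q.2 + v * q.1 = q.1 * q.2 := by
  simp only [H, Finset.mem_filter, Finset.mem_product, Finset.mem_Icc]
  tauto

theorem gt_of_mem {d : ℕ} {u v : ℝ} (hu : 0 < u) (hv : 0 < v) {q : ℕ × ℕ} (h : q ∈ H d u v) :
    u < q.1 ∧ v < q.2 := by
  obtain ⟨⟨h1, _⟩, ⟨h2, _⟩, h3⟩ := mem_H.mp h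
  have a1 : (1:ℝ) ≤ q.1 := by exact_mod_cast h1
  have a2 : (1:ℝ) ≤ q.2 := by exact_mod_cast h2
  constructor
  · by_contra hc
    push Not at hc
    have : (q.1:ℝ) * q.2 ≤ u * q.2 := mul_le_mul_of_nonneg_right hc (by linarith)
    have : 0 < v * q.1 := by positivity
    linarith
  · by_contra hc
    push Not at hc
    have : (q.1:ℝ) * q.2 ≤ v * q.1 := by nlinarith
    have : 0 < u * q.2 := by positivity
    linarith

theorem prod_of_mem {d : ℕ} {u v : ℝ} {q : ℕ × ℕ} (h : q ∈ H d u v) :
    ((q.1:ℝ) - u) * (q.2 - v) = u * v := by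
  obtain ⟨_, _, h3⟩ := mem_H.mp h
  linear_combination -h3

/-- two members: a bigger first coordinate means a smaller second coordinate -/
theorem anti {d : ℕ} {u v : ℝ} (hu : 0 < u) (hv : 0 < v) {q r : ℕ × ℕ} (hq : q ∈ H d u v)
    (hr : r ∈ H d u v) (hlt : q.1 < r.1) : r.2 < q.2 := by
  have p1 := prod_of_mem hq
  have p2 := prod_of_mem hr
  obtain ⟨g1, g2⟩ := gt_of_mem hu hv hq
  obtain ⟨g3, g4⟩ := gt_of_mem hu hv hr
  by_contra hc
  push Not at hc
  have hc' : (q.2:ℝ) ≤ r.2 := by exact_mod_cast hc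
  have hl' : (q.1:ℝ) < r.1 := by exact_mod_cast hlt
  have : ((q.1:ℝ) - u) * (q.2 - v) < (r.1 - u) * (r.2 - v) := by
    apply mul_lt_mul <;> linarith
  linarith

theorem eq_of_fst {d : ℕ} {u v : ℝ} (hu : 0 < u) (hv : 0 < v) {q r : ℕ × ℕ} (hq : q ∈ H d u v)
    (hr : r ∈ H d u v) (he : q.1 = r.1) : q = r := by
  have p1 := prod_of_mem hq
  have p2 := prod_of_mem hr
  obtain ⟨g1, g2⟩ := gt_of_mem hu hv hq
  rw [← p2, he] at p1
  have hne : (r.1:ℝ) - u ≠ 0 := by rw [← he]; linarith
  have := mul_left_cancel₀ hne p1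
  have : (q.2:ℝ) = r.2 := by linarith
  exact Prod.ext he (by exact_mod_cast this)

/-- two distinct members differ by at least `2` in `i - j` -/
theorem diff_ge {d : ℕ} {u v : ℝ} (hu : 0 < u) (hv : 0 < v) {q r : ℕ × ℕ} (hq : q ∈ H d u v)
    (hr : r ∈ H d u v) (hlt : (q.1:ℤ) - q.2 < (r.1:ℤ) - r.2) :
    q.1 + 1 ≤ r.1 ∧ r.2 + 1 ≤ q.2 := by
  rcases lt_trichotomy q.1 r.1 with h | h | h
  · have := anti hu hv hq hr h
    omega
  · have := eq_of_fst hu hv hq hr h
    subst this; omega
  · have := anti hu hv hr hq h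
    omega

theorem inj {d : ℕ} {u v : ℝ} (hu : 0 < u) (hv : 0 < v) {q r : ℕ × ℕ} (hq : q ∈ H d u v)
    (hr : r ∈ H d u v) (he : (q.1:ℤ) - q.2 = (r.1:ℤ) - r.2) : q = r := by
  rcases lt_trichotomy q.1 r.1 with h | h | h
  · have := anti hu hv hq hr h
    omega
  · exact eq_of_fst hu hv hq hr h
  · have := anti hu hv hr hq h
    omega

/-- For a member `(i, j)`: `I ≤ i` where `I` is the abscissa of the arc at height `d`, with
equality only at the height `d`. -/
theorem left_bound {d : ℕ} {u v I : ℝ} (hu : 0 < u) (hv : 0 < v) (huv : u + v < d)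
    (hI : I * (d - v) = u * d) {q : ℕ × ℕ} (hq : q ∈ H d u v) :
    κ I ≤ (q.1:ℤ) - q.2 + d := by
  obtain ⟨g1, g2⟩ := gt_of_mem hu hv hq
  obtain ⟨⟨h1, h1'⟩, ⟨h2, h2'⟩, h3⟩ := mem_H.mp hq
  have a2 : (q.2:ℝ) ≤ d := by exact_mod_cast h2'
  have e1 : ((I:ℝ) - u) * (d - v) = u * v := by linear_combination hI
  have e2 := prod_of_mem hq
  have hdv : (0:ℝ) < d - v := by linarith
  have hIq : I ≤ q.1 := by
    by_contra hc
    push Not at hc
    have l1 : ((q.1:ℝ) - u) * (q.2 - v) ≤ (q.1 - u) * (d - v) :=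
      mul_le_mul_of_nonneg_left (by linarith) (by linarith)
    have l2 : ((q.1:ℝ) - u) * (d - v) < (I - u) * (d - v) :=
      mul_lt_mul_of_pos_right (by linarith) hdv
    linarith
  have hc : ⌈I⌉ ≤ (q.1:ℤ) := by rw [Int.ceil_le]; exact_mod_cast hIq
  rcases Nat.lt_or_ge q.2 d with h | h
  · have : κ I ≤ ⌈I⌉ + 1 := by unfold κ; split_ifs <;> linarith
    omega
  · have hqd : q.2 = d := le_antisymm h2' h
    have hIe : I = q.1 := by
      rw [hqd, ← e1] at e2
      have := mul_right_cancel₀ (ne_of_gt hdv) e2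
      linarith
    have : κ I = q.1 := by
      unfold κ
      rw [if_pos]
      · rw [hIe]; simp
      · rw [hIe]; simp
    rw [this, hqd]; omega

theorem swap_mem {d : ℕ} {u v : ℝ} {q : ℕ × ℕ} (h : q ∈ H d u v) : (q.2, q.1) ∈ H d v u := by
  obtain ⟨h1, h2, h3⟩ := mem_H.mp h
  exact mem_H.mpr ⟨h2, h1, by simp only; linear_combination h3⟩

/-- The arc lemma. -/
theorem arc {d : ℕ} {u v I J : ℝ} (hu : 0 < u) (hv : 0 < v) (huv : u + v < d)
    (hI : I * (d - v) = u * d) (hJ : J * (d - u) = v * d) :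
    3 * ((H d u v).card : ℤ) + κ I + κ J ≤ 2 * d + 4 := by
  classical
  have hd : (0:ℝ) < d := by linarith
  have hI1 : I < d := by
    by_contra hc
    push Not at hc
    have : (d:ℝ) * (d - v) ≤ I * (d - v) := mul_le_mul_of_nonneg_right hc (by linarith)
    nlinarith
  have hJ1 : J < d := by
    by_contra hc
    push Not at hc
    have : (d:ℝ) * (d - u) ≤ J * (d - u) := mul_le_mul_of_nonneg_right hc (by linarith)
    nlinarith
  have cI : ⌈I⌉ ≤ d := by rw [Int.ceil_le]; push_cast; exact hI1.le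
  have cJ : ⌈J⌉ ≤ d := by rw [Int.ceil_le]; push_cast; exact hJ1.le
  have kI : κ I ≤ d + 1 := by unfold κ; split_ifs <;> linarith
  have kJ : κ J ≤ d + 1 := by unfold κ; split_ifs <;> linarith
  set S := (H d u v).image (fun q => (q.1:ℤ) - q.2) with hS
  have hcard : S.card = (H d u v).card := by
    apply Finset.card_image_of_injOn
    intro q hq r hr he
    exact inj hu hv hq hr he
  have key := gap_count S (κ I - d) (d - κ J) (by linarith) ?_ ?_ ?_
  · rw [hcard] at key; linarith
  · intro s hs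
    obtain ⟨q, hq, rfl⟩ := Finset.mem_image.mp hs
    have b1 := left_bound hu hv huv hI hq
    have b2 := left_bound hv hu (by linarith) hJ (swap_mem hq)
    simp only at b2
    constructor <;> linarith
  · intro s hs hs'
    obtain ⟨q, hq, rfl⟩ := Finset.mem_image.mp hs
    obtain ⟨r, hr, hrq⟩ := Finset.mem_image.mp hs'
    have := diff_ge hu hv hq hr (by omega)
    omega
  · -- uniqueness of the gap `2`
    have uniq : ∀ q ∈ H d u v, ((q.1:ℤ) - q.2) + 2 ∈ S → ((q.1:ℝ) - q.2) = u - v - 1 := by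
      intro q hq hs'
      obtain ⟨r, hr, hrq⟩ := Finset.mem_image.mp hs'
      have hd' := diff_ge hu hv hq hr (by omega)
      have e1 : r.1 = q.1 + 1 := by omega
      have e2 : q.2 = r.2 + 1 := by omega
      have p1 := prod_of_mem hq
      have p2 := prod_of_mem hr
      rw [e1] at p2
      rw [e2] at p1
      push_cast at p1 p2
      have : ((q.1:ℝ)) - ((r.2:ℝ) + 1) = u - v - 1 := by linear_combination p1 - p2
      rw [e2]; push_cast; exact this
    intro s hs t ht hs2 ht2
    obtain ⟨q, hq, rfl⟩ := Finset.mem_image.mp hs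
    obtain ⟨r, hr, rfl⟩ := Finset.mem_image.mp ht
    have a1 := uniq q hq hs2
    have a2 := uniq r hr ht2
    have : ((q.1:ℝ) - q.2) = (r.1:ℝ) - r.2 := by rw [a1, a2]
    exact_mod_cast this

theorem kappa_int (n : ℤ) : κ (n:ℝ) = n := by unfold κ; simp

/-- complementary positions -/
theorem kappa_add {d : ℕ} {t t' : ℝ} (h : t + t' = d) : κ t + κ t' = d + 3 * (1 - ι t) := by
  by_cases hn : (⌈t⌉:ℝ) = t
  · have : t' = ((d - ⌈t⌉ : ℤ) : ℝ) := by push_cast; rw [hn]; linarith
    have h1 : ι t = 1 := by unfold ι; rw [if_pos hn]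
    have h2 : κ t = ⌈t⌉ := by unfold κ; rw [if_pos hn]
    rw [this, kappa_int, h1, h2]; ring
  · have h2 : (⌈t'⌉:ℝ) ≠ t' := by
      intro h'
      apply hn
      have : t = ((d - ⌈t'⌉ : ℤ) : ℝ) := by push_cast; rw [h']; linarith
      rw [this]; simp
    have h3 : ι t = 0 := by unfold ι; rw [if_neg hn]
    have h4 : κ t = ⌈t⌉ + 1 := by unfold κ; rw [if_neg hn]
    have h5 : κ t' = ⌈t'⌉ + 1 := by unfold κ; rw [if_neg h2]
    rw [h3, h4, h5]
    have l1 := Int.le_ceil t
    have l2 := Int.ceil_lt_add_one t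
    have l3 := Int.le_ceil t'
    have l4 := Int.ceil_lt_add_one t'
    have l1' : t < ⌈t⌉ := lt_of_le_of_ne l1 (Ne.symm hn)
    have l3' : t' < ⌈t'⌉ := lt_of_le_of_ne l3 (Ne.symm h2)
    have u1 : ((⌈t⌉ + ⌈t'⌉ : ℤ) : ℝ) < ((d + 2 : ℤ) : ℝ) := by push_cast; linarith
    have u2 : ((d : ℤ) : ℝ) < ((⌈t⌉ + ⌈t'⌉ : ℤ) : ℝ) := by push_cast; linarith
    have u1' : ⌈t⌉ + ⌈t'⌉ < d + 2 := by exact_mod_cast u1
    have u2' : (d:ℤ) < ⌈t⌉ + ⌈t'⌉ := by exact_mod_cast u2
    omega

/-- Dropping the point of `H` at height `d` (if there is one). -/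
theorem drop_card {d : ℕ} {u v I : ℝ} (hu : 0 < u) (hv : 0 < v) (huv : u + v < d)
    (hI : I * (d - v) = u * d) :
    (((H d u v).filter (fun q => q.2 < d)).card : ℤ) + ι I ≤ (H d u v).card := by
  classical
  have hd : (0:ℝ) < d := by linarith
  have hd' : 0 < d := by exact_mod_cast hd
  by_cases hn : (⌈I⌉:ℝ) = I
  · have h1 : ι I = 1 := by unfold ι; rw [if_pos hn]
    have hI0 : 0 < I := by
      by_contra hc
      push Not at hc
      have : I * (d - v) ≤ 0 := mul_nonpos_of_nonpos_of_nonneg hc (by linarith)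
      nlinarith [mul_pos hu hd]
    have hI1 : I < d := by
      by_contra hc
      push Not at hc
      have : (d:ℝ) * (d - v) ≤ I * (d - v) := mul_le_mul_of_nonneg_right hc (by linarith)
      nlinarith
    rw [h1]
    generalize ⌈I⌉ = n at hn
    have hn0 : 0 < n := by rw [← hn] at hI0; exact_mod_cast hI0
    have hn1 : n < d := by rw [← hn] at hI1; exact_mod_cast hI1
    obtain ⟨k, rfl⟩ : ∃ k : ℕ, n = k := ⟨n.toNat, (Int.toNat_of_nonneg hn0.le).symm⟩
    have hmem : (k, d) ∈ H d u v := by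
      rw [mem_H]
      refine ⟨⟨by omega, by omega⟩, ⟨by omega, le_refl _⟩, ?_⟩
      simp only
      have : ((k:ℤ):ℝ) = (k:ℝ) := by push_cast; rfl
      rw [this] at hn
      rw [hn]; linear_combination -hI
    have : (H d u v).filter (fun q => q.2 < d) ⊂ H d u v := by
      refine ⟨Finset.filter_subset _ _, fun hs => ?_⟩
      have := hs hmem
      simp only [Finset.mem_filter] at this
      exact lt_irrefl _ this.2
    have := Finset.card_lt_card this
    omega
  · have h1 : ι I = 0 := by unfold ι; rw [if_neg hn]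
    have := Finset.card_filter_le (H d u v) (fun q => q.2 < d)
    rw [h1]; push_cast; omega

theorem drop_card' {d : ℕ} {u v J : ℝ} (hu : 0 < u) (hv : 0 < v) (huv : u + v < d)
    (hJ : J * (d - u) = v * d) :
    (((H d u v).filter (fun q => q.1 < d)).card : ℤ) + ι J ≤ (H d u v).card := by
  classical
  have h := drop_card hv hu (by linarith) hJ
  have c1 : (H d v u).card = (H d u v).card := by
    apply Finset.card_bij (fun q _ => (q.2, q.1))
    · intro q hq; exact swap_mem hq
    · intro q _ r _ he; simp only [Prod.mk.injEq] at he; exact Prod.ext he.2 he.1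
    · intro q hq; exact ⟨(q.2, q.1), swap_mem hq, rfl⟩
  have c2 : ((H d v u).filter (fun q => q.2 < d)).card =
      ((H d u v).filter (fun q => q.1 < d)).card := by
    apply Finset.card_bij (fun q _ => (q.2, q.1))
    · intro q hq
      simp only [Finset.mem_filter] at hq ⊢
      exact ⟨swap_mem hq.1, hq.2⟩
    · intro q _ r _ he; simp only [Prod.mk.injEq] at he; exact Prod.ext he.2 he.1
    · intro q hq
      simp only [Finset.mem_filter] at hq
      exact ⟨(q.2, q.1), by simp only [Finset.mem_filter]; exact ⟨swap_mem hq.1, hq.2⟩, rfl⟩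
  rw [c1, c2] at h
  exact h

/-- The counting inequality for the three arcs. -/
theorem three_arcs {d : ℕ} {a b c : ℝ} (ha : 0 < a) (hb : 0 < b) (hc : 0 < c)
    (habc : a + b + c = d) :
    ((H d b c).filter (fun q => q.2 < d)).card + ((H d a c).filter (fun q => q.1 < d)).card
      + ((H d a b).filter (fun q => q.2 < d)).card ≤ d + 1 := by
  classical
  -- feet of the cevians
  set F := b * d / (d - c) with hF
  set F' := a * d / (d - c) with hF'
  set E := c * d / (d - b) with hE
  set E' := a * d / (d - b) with hE'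
  set D := c * d / (d - a) with hD
  set D' := b * d / (d - a) with hD'
  have nc : (d:ℝ) - c ≠ 0 := by linarith
  have nb : (d:ℝ) - b ≠ 0 := by linarith
  have na : (d:ℝ) - a ≠ 0 := by linarith
  have e1 : F * (d - c) = b * d := by rw [hF]; field_simp
  have e2 : F' * (d - c) = a * d := by rw [hF']; field_simp
  have e3 : E * (d - b) = c * d := by rw [hE]; field_simp
  have e4 : E' * (d - b) = a * d := by rw [hE']; field_simp
  have e5 : D * (d - a) = c * d := by rw [hD]; field_simp
  have e6 : D' * (d - a) = b * d := by rw [hD']; field_simp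
  have s1 : F + F' = d := by
    apply mul_right_cancel₀ nc; linear_combination e1 + e2 + (d:ℝ) * habc
  have s2 : E + E' = d := by
    apply mul_right_cancel₀ nb; linear_combination e3 + e4 + (d:ℝ) * habc
  have s3 : D + D' = d := by
    apply mul_right_cancel₀ na; linear_combination e5 + e6 + (d:ℝ) * habc
  have A1 := arc hb hc (by linarith) e1 e3
  have A2 := arc ha hc (by linarith) e2 e5
  have A3 := arc ha hb (by linarith) e4 e6
  have K1 := kappa_add s1
  have K2 := kappa_add s2
  have K3 := kappa_add s3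
  have B1 := drop_card hb hc (by linarith) e1
  have B2 := drop_card' ha hc (by linarith) e5
  have B3 := drop_card ha hb (by linarith) e4
  have i2 : ι E' = ι E := by
    unfold ι
    have : ((⌈E'⌉:ℝ) = E') ↔ ((⌈E⌉:ℝ) = E) := by
      constructor
      · intro h
        have : E = ((d - ⌈E'⌉ : ℤ) : ℝ) := by push_cast; rw [h]; linarith
        rw [this]; simp
      · intro h
        have : E' = ((d - ⌈E⌉ : ℤ) : ℝ) := by push_cast; rw [h]; linarith
        rw [this]; simp
    simp only [this]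
  rw [i2] at B3
  omega

end Pool.Agent.Q14.WS
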