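import Pool.Agent.Q14.WSArc

/-!
The Wang-Shi split of a triangle: definitions and the reduction of the degree of an interior point
to the counting lemma `three_arcs`.
-/

namespace Pool.Agent.Q14.WS

open Finset

/-- The plane. -/
abbrev E2 := EuclideanSpace ℝ (Fin 2)

/-- The point of the segment from `P` to `Q` at `i / d` of the way. -/
noncomputable def pt (d : ℕ) (P Q : E2) (i : ℕ) : E2 := AffineMap.lineMap P Q ((i : ℝ) / d)

/-- The marked points: each side `V k, V (k+1)` of the triangle `V` is divided into `d` equal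
segments. -/
def marks (d : ℕ) (V : Fin 3 → E2) : Set E2 :=
  {X | ∃ k : Fin 3, ∃ i : ℕ, i ≤ d ∧ X = pt d (V k) (V (k + 1)) i}

/-- The lines of the Wang-Shi split `WS_d` of the triangle `V`: the lines through two marked points
that do not lie on a common side. -/
def wsLines (d : ℕ) (V : Fin 3 → E2) : Set (AffineSubspace ℝ E2) :=
  {l | ∃ X ∈ marks d V, ∃ Y ∈ marks d V,
    (∀ k : Fin 3, ¬ (X ∈ segment ℝ (V k) (V (k + 1)) ∧ Y ∈ segment ℝ (V k) (V (k + 1)))) ∧
    l = line[ℝ, X, Y]}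

/-- The degree of a point: the number of lines of `WS_d` through it. -/
noncomputable def degree (d : ℕ) (V : Fin 3 → E2) (p : E2) : ℕ∞ :=
  {l ∈ wsLines d V | p ∈ l}.encard

/-- the line through the points at `i/d` on `PQ` and at `j/d` on `PR` -/
noncomputable def L (d : ℕ) (P Q R : E2) (q : ℕ × ℕ) : AffineSubspace ℝ E2 :=
  line[ℝ, pt d P Q q.1, pt d P R q.2]

theorem pt_rev {d : ℕ} (hd : 0 < d) (P Q : E2) {i : ℕ} (hi : i ≤ d) :
    pt d P Q i = pt d Q P (d - i) := by
  unfold pt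
  rw [← AffineMap.lineMap_apply_one_sub]
  congr 1
  have : (d:ℝ) ≠ 0 := by positivity
  rw [Nat.cast_sub hi]
  field_simp

theorem pt_d {d : ℕ} (hd : 0 < d) (P Q : E2) : pt d P Q d = Q := by
  unfold pt
  have : (d:ℝ) ≠ 0 := by positivity
  rw [div_self this, AffineMap.lineMap_apply_one]

theorem pt_zero {d : ℕ} (P Q : E2) : pt d P Q 0 = P := by
  unfold pt
  simp

theorem L_swap (d : ℕ) (P Q R : E2) (q : ℕ × ℕ) : L d P Q R q = L d P R Q (q.2, q.1) := by
  unfold L
  rw [Set.pair_comm]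

theorem L_move {d : ℕ} (hd : 0 < d) (P Q R : E2) {i : ℕ} (hi : i ≤ d) :
    L d P Q R (i, d) = L d Q P R (d - i, d) := by
  unfold L
  simp only
  rw [pt_rev hd P Q hi, pt_d hd, pt_d hd]

/-- coordinates of the marked points -/
theorem coord_pt (b : AffineBasis (Fin 3) ℝ E2) (d : ℕ) (k m n : Fin 3) (i : ℕ) :
    b.coord k (pt d (b m) (b n) i) =
      (1 - (i:ℝ) / d) * (if k = m then 1 else 0) + ((i:ℝ) / d) * (if k = n then 1 else 0) := by
  unfold pt
  rw [AffineMap.apply_lineMap, AffineMap.lineMap_apply_ring, AffineBasis.coord_apply,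
    AffineBasis.coord_apply]

/-- the incidence equation -/
theorem mem_L {d : ℕ} (hd : 0 < d) (b : AffineBasis (Fin 3) ℝ E2) {m q r : Fin 3} (hmq : m ≠ q)
    (hmr : m ≠ r) (hqr : q ≠ r) {p : E2} {i j : ℕ} (hi : 1 ≤ i) (hi' : i ≤ d) (hj : 1 ≤ j)
    (hj' : j ≤ d) (hp : p ∈ L d (b m) (b q) (b r) (i, j)) :
    (i, j) ∈ H d (d * b.coord q p) (d * b.coord r p) := by
  unfold L at hp
  rw [mem_affineSpan_pair_iff_exists_lineMap_eq] at hp
  obtain ⟨t, rfl⟩ := hp
  have hd' : (d:ℝ) ≠ 0 := by positivity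
  rw [mem_H]
  refine ⟨⟨hi, hi'⟩, ⟨hj, hj'⟩, ?_⟩
  simp only
  rw [AffineMap.apply_lineMap, AffineMap.apply_lineMap, AffineMap.lineMap_apply_ring,
    AffineMap.lineMap_apply_ring, coord_pt, coord_pt, coord_pt, coord_pt]
  simp only [hmq.symm, hmr.symm, hqr, hqr.symm, if_true, if_false]
  field_simp
  ring

/-- a member at height `d` has its first coordinate `< d` -/
theorem lt_of_height {d : ℕ} {u v : ℝ} (hu : 0 < u) (hv : 0 < v) (huv : u + v < d) {i : ℕ}
    (h : (i, d) ∈ H d u v) : i < d := by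
  obtain ⟨⟨_, h1⟩, _, h3⟩ := mem_H.mp h
  rcases Nat.lt_or_ge i d with h' | h'
  · exact h'
  · have : i = d := le_antisymm h1 h'
    subst this
    simp only at h3
    have h4 : (0:ℝ) < i := by linarith
    nlinarith

theorem lt_of_height' {d : ℕ} {u v : ℝ} (hu : 0 < u) (hv : 0 < v) (huv : u + v < d) {j : ℕ}
    (h : (d, j) ∈ H d u v) : j < d :=
  lt_of_height hv hu (by linarith) (swap_mem h)

/-- Every line of `WS_d` through `p` comes from one of three finite sets. -/
theorem cover {d : ℕ} (hd : 0 < d) (b : AffineBasis (Fin 3) ℝ E2) {m q r : Fin 3} (hmq : m ≠ q)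
    (hmr : m ≠ r) (hqr : q ≠ r) {p : E2} (hp : ∀ k, 0 < b.coord k p)
    (hs : b.coord m p + b.coord q p + b.coord r p = 1) {i j : ℕ} (hi : 1 ≤ i) (hi' : i ≤ d)
    (hj : 1 ≤ j) (hj' : j ≤ d) (h : p ∈ L d (b m) (b q) (b r) (i, j)) :
    ((i, j) ∈ H d (d * b.coord q p) (d * b.coord r p) ∧ j < d) ∨
    (∃ k, (k, d) ∈ H d (d * b.coord m p) (d * b.coord r p) ∧ k < d ∧
      L d (b m) (b q) (b r) (i, j) = L d (b q) (b m) (b r) (k, d)) := by
  have hd' : (0:ℝ) < d := by exact_mod_cast hd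
  have h1 := mem_L hd b hmq hmr hqr hi hi' hj hj' h
  rcases Nat.lt_or_ge j d with hjd | hjd
  · exact Or.inl ⟨h1, hjd⟩
  · have hjd : j = d := le_antisymm hj' hjd
    subst hjd
    right
    have hlt : i < j := by
      apply lt_of_height _ _ _ h1
      · exact mul_pos hd' (hp q)
      · exact mul_pos hd' (hp r)
      · have : (j:ℝ) * (b.coord m p + b.coord q p + b.coord r p) = j := by rw [hs, mul_one]
        have h0 := mul_pos hd' (hp m)
        nlinarith
    have hL := L_move hd (b m) (b q) (b r) hi'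
    refine ⟨j - i, ?_, by omega, hL⟩
    rw [hL] at h
    exact mem_L hd b hmq.symm hqr hmr (by omega) (by omega) hj hj' h

theorem pt_mem (d : ℕ) (P Q : E2) {i : ℕ} (hi : i ≤ d) : pt d P Q i ∈ segment ℝ P Q := by
  rw [segment_eq_image_lineMap]
  refine ⟨(i:ℝ) / d, ⟨by positivity, ?_⟩, rfl⟩
  apply div_le_one_of_le₀ (by exact_mod_cast hi) (by positivity)

/-- Every line of `WS_d` joins points on the two sides at some vertex. -/
theorem ws_cases {d : ℕ} (hd : 0 < d) (V : Fin 3 → E2) {l : AffineSubspace ℝ E2}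
    (hl : l ∈ wsLines d V) : ∃ m : Fin 3, ∃ i j : ℕ, 1 ≤ i ∧ i ≤ d ∧ 1 ≤ j ∧ j ≤ d ∧
      l = L d (V m) (V (m + 2)) (V (m + 1)) (i, j) := by
  obtain ⟨X, ⟨k, i, hi, rfl⟩, Y, ⟨k', j, hj, rfl⟩, hside, rfl⟩ := hl
  have key : ∀ (k k' : Fin 3) (i j : ℕ), i ≤ d → j ≤ d → k' = k + 1 →
      (∀ t : Fin 3, ¬ (pt d (V k) (V (k + 1)) i ∈ segment ℝ (V t) (V (t + 1)) ∧
        pt d (V k') (V (k' + 1)) j ∈ segment ℝ (V t) (V (t + 1)))) →
      ∃ m : Fin 3, ∃ i' j' : ℕ, 1 ≤ i' ∧ i' ≤ d ∧ 1 ≤ j' ∧ j' ≤ d ∧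
      line[ℝ, pt d (V k) (V (k + 1)) i, pt d (V k') (V (k' + 1)) j] =
        L d (V m) (V (m + 2)) (V (m + 1)) (i', j') := by
    intro k k' i j hi hj hk hside
    subst hk
    have hk2 : k + 1 + 2 = k := by
      fin_cases k <;> rfl
    refine ⟨k + 1, d - i, j, ?_, by omega, ?_, hj, ?_⟩
    · by_contra hc
      have hid : i = d := by omega
      apply hside (k + 1)
      refine ⟨?_, pt_mem d _ _ hj⟩
      rw [hid, pt_d hd]
      exact left_mem_segment ℝ _ _
    · by_contra hc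
      have hj0 : j = 0 := by omega
      apply hside k
      refine ⟨pt_mem d _ _ hi, ?_⟩
      rw [hj0, pt_zero]
      exact right_mem_segment ℝ _ _
    · unfold L
      simp only
      rw [pt_rev hd (V k) (V (k+1)) hi, hk2]
  have hne : k ≠ k' := by
    rintro rfl
    exact hside k ⟨pt_mem d _ _ hi, pt_mem d _ _ hj⟩
  have hcase : k' = k + 1 ∨ k = k' + 1 := by
    have : ∀ x y : Fin 3, x ≠ y → y = x + 1 ∨ x = y + 1 := by decide
    exact this k k' hne
  rcases hcase with h | h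
  · exact key k k' i j hi hj h hside
  · obtain ⟨m, i', j', h1, h2, h3, h4, h5⟩ := key k' k j i hj hi h
      (fun t ht => hside t ⟨ht.2, ht.1⟩)
    exact ⟨m, i', j', h1, h2, h3, h4, by rw [Set.pair_comm]; exact h5⟩

/-- The degree of an interior point is at most `d + 1`. -/
theorem degree_le_basis {d : ℕ} (hd : 0 < d) (b : AffineBasis (Fin 3) ℝ E2) {p : E2}
    (hp : ∀ k, 0 < b.coord k p) : degree d b p ≤ (d + 1 : ℕ) := by
  classical
  have hd' : (0:ℝ) < d := by exact_mod_cast hd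
  have hsum : b.coord 0 p + b.coord 1 p + b.coord 2 p = 1 := by
    have := b.sum_coord_apply_eq_one p
    rw [Fin.sum_univ_three] at this
    exact this
  set a := d * b.coord 0 p with ha
  set b' := d * b.coord 1 p with hb
  set c := d * b.coord 2 p with hc
  have habc : a + b' + c = d := by
    rw [ha, hb, hc, ← mul_add, ← mul_add, hsum, mul_one]
  have hap : 0 < a := mul_pos hd' (hp 0)
  have hbp : 0 < b' := mul_pos hd' (hp 1)
  have hcp : 0 < c := mul_pos hd' (hp 2)
  have h3 := three_arcs hap hbp hcp habc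
  set SA := ((H d b' c).filter (fun q => q.2 < d)).image (L d (b 0) (b 1) (b 2)) with hSA
  set SB := ((H d a c).filter (fun q => q.1 < d)).image (L d (b 1) (b 0) (b 2)) with hSB
  set SC := ((H d a b').filter (fun q => q.2 < d)).image (L d (b 2) (b 0) (b 1)) with hSC
  have hsub : {l ∈ wsLines d b | p ∈ l} ⊆ ((SA ∪ SB ∪ SC : Finset _) : Set (AffineSubspace ℝ E2)) := by
    rintro l ⟨hl, hpl⟩
    obtain ⟨m, i, j, hi, hi', hj, hj', rfl⟩ := ws_cases hd b hl
    simp only [Finset.coe_union, Set.mem_union, Finset.mem_coe]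
    have hm : m = 0 ∨ m = 1 ∨ m = 2 := by
      fin_cases m <;> simp
    rcases hm with rfl | rfl | rfl
    · -- vertex 0
      have e : L d (b 0) (b (0 + 2)) (b (0 + 1)) (i, j) = L d (b 0) (b 1) (b 2) (j, i) := by
        rw [L_swap]; rfl
      rw [e] at hpl ⊢
      rcases cover hd b (m := 0) (q := 1) (r := 2) (by decide) (by decide) (by decide) hp hsum
        hj hj' hi hi' hpl with ⟨h1, h2⟩ | ⟨k, h1, h2, h4⟩
      · left; left
        exact Finset.mem_image.mpr ⟨(j, i), Finset.mem_filter.mpr ⟨h1, h2⟩, rfl⟩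
      · left; right
        exact Finset.mem_image.mpr ⟨(k, d), Finset.mem_filter.mpr ⟨h1, h2⟩, h4.symm⟩
    · -- vertex 1
      have e : L d (b 1) (b (1 + 2)) (b (1 + 1)) (i, j) = L d (b 1) (b 2) (b 0) (j, i) := by
        rw [L_swap]; rfl
      rw [e] at hpl ⊢
      rcases cover hd b (m := 1) (q := 2) (r := 0) (by decide) (by decide) (by decide) hp
        (by linarith) hj hj' hi hi' hpl with ⟨h1, h2⟩ | ⟨k, h1, h2, h4⟩
      · left; right
        rw [L_swap]
        exact Finset.mem_image.mpr ⟨(i, j), Finset.mem_filter.mpr ⟨swap_mem h1, h2⟩, rfl⟩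
      · right
        rw [h4, L_swap]
        exact Finset.mem_image.mpr ⟨(d, k), Finset.mem_filter.mpr ⟨swap_mem h1, h2⟩, rfl⟩
    · -- vertex 2
      have e : L d (b 2) (b (2 + 2)) (b (2 + 1)) (i, j) = L d (b 2) (b 0) (b 1) (j, i) := by
        rw [L_swap]; rfl
      rw [e] at hpl ⊢
      rcases cover hd b (m := 2) (q := 0) (r := 1) (by decide) (by decide) (by decide) hp
        (by linarith) hj hj' hi hi' hpl with ⟨h1, h2⟩ | ⟨k, h1, h2, h4⟩
      · right
        exact Finset.mem_image.mpr ⟨(j, i), Finset.mem_filter.mpr ⟨h1, h2⟩, rfl⟩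
      · left; left
        rw [h4, L_swap]
        refine Finset.mem_image.mpr ⟨(d, k), Finset.mem_filter.mpr ⟨swap_mem h1, h2⟩, rfl⟩
  unfold degree
  have hcard : (SA ∪ SB ∪ SC).card ≤ d + 1 := by
    have c1 := Finset.card_union_le (SA ∪ SB) SC
    have c2 := Finset.card_union_le SA SB
    have c3 : SA.card ≤ _ := Finset.card_image_le
    have c4 : SB.card ≤ _ := Finset.card_image_le
    have c5 : SC.card ≤ _ := Finset.card_image_le
    omega
  calc {l ∈ wsLines d b | p ∈ l}.encard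
      ≤ (((SA ∪ SB ∪ SC : Finset _) : Set (AffineSubspace ℝ E2))).encard := Set.encard_le_encard hsub
    _ = ((SA ∪ SB ∪ SC).card : ℕ∞) := Set.encard_coe_eq_coe_finsetCard _
    _ ≤ (d + 1 : ℕ) := by exact_mod_cast hcard

theorem degree_le {d : ℕ} (hd : 0 < d) (V : Fin 3 → E2) (hV : AffineIndependent ℝ V) {p : E2}
    (hp : p ∈ interior (convexHull ℝ (Set.range V))) : degree d V p ≤ (d + 1 : ℕ) := by
  have htop : affineSpan ℝ (Set.range V) = ⊤ := by
    rw [hV.affineSpan_eq_top_iff_card_eq_finrank_add_one]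
    simp
  let b : AffineBasis (Fin 3) ℝ E2 := ⟨V, hV, htop⟩
  have hb : (b : Fin 3 → E2) = V := rfl
  rw [← hb] at hp ⊢
  rw [AffineBasis.interior_convexHull] at hp
  exact degree_le_basis hd b hp

end Pool.Agent.Q14.WS
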